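import Pool.Agent.W_4481e3_q25.SndR
import Pool.Agent.W_4481e3_h6.StP

/-!
Kill certificate, format RT: assembly of the slope leaves.
-/

namespace Pool.Agent.W_4481e3_q25.EvR

open Complex
open Pool.Agent.W_4481e3_q42 (Alive Adm aa ww cc dd)
open Pool.Agent.W_MP_4481e3_an.Ev (gd pt gd_true)
open Pool.Agent.W_4481e3_q42.Ev (nrq cf k0 InF)
open Pool.Agent.W_4481e3_h6.Ev (slc klo khi kpr kpw StP lLO lHI lPR lPW gs zsl)

/-- product of the half derivatives over the four steps from the phase `1` -/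
noncomputable def Gp (e w : ℂ) : ℂ :=
  (1 - 2 * cc (1 + 0) * ww e 1 w 0) / 2 * ((1 - 2 * cc (1 + 1) * ww e 1 w 1) / 2) *
    ((1 - 2 * cc (1 + 2) * ww e 1 w 2) / 2) * ((1 - 2 * cc (1 + 3) * ww e 1 w 3) / 2)

lemma aa_affine (e w a : ℂ) : aa e 1 w a 4 = Gp e w * a + aa e 1 w 0 4 := by
  unfold Gp
  show ((1 - 2 * cc (1 + 3) * ww e 1 w 3) * (((1 - 2 * cc (1 + 2) * ww e 1 w 2) *
    (((1 - 2 * cc (1 + 1) * ww e 1 w 1) * (((1 - 2 * cc (1 + 0) * ww e 1 w 0) * a +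
      dd (1 + 0) * (e - ww e 1 w 0 ^ 2)) / 2) + dd (1 + 1) * (e - ww e 1 w 1 ^ 2)) / 2) +
      dd (1 + 2) * (e - ww e 1 w 2 ^ 2)) / 2) + dd (1 + 3) * (e - ww e 1 w 3 ^ 2)) / 2 =
    _ + ((1 - 2 * cc (1 + 3) * ww e 1 w 3) * (((1 - 2 * cc (1 + 2) * ww e 1 w 2) *
    (((1 - 2 * cc (1 + 1) * ww e 1 w 1) * (((1 - 2 * cc (1 + 0) * ww e 1 w 0) * 0 +
      dd (1 + 0) * (e - ww e 1 w 0 ^ 2)) / 2) + dd (1 + 1) * (e - ww e 1 w 1 ^ 2)) / 2) +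
      dd (1 + 2) * (e - ww e 1 w 2 ^ 2)) / 2) + dd (1 + 3) * (e - ww e 1 w 3 ^ 2)) / 2
  ring

/-- centre of the slope, scale `2 ^ 24` -/
noncomputable def xsl (P Q : ℕ) : ℂ := 1024 * ⟨(P:ℝ) - 16777216, (Q:ℝ) - 16777216⟩

/-- soundness of the slope chain -/
def SlcOK : Prop := ∀ (X Y t A B F G dl P Q ra : ℕ)
    (k : ℕ → ℕ → ℕ → ℕ → ℕ → ℕ → ℕ → ℕ → ℕ → ℕ → ℕ → Bool) (e w a : ℂ),
    slc X Y t A B F G dl P Q ra k = true → ‖16777216 * e - k0 X Y‖ ≤ t →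
    ‖16777216 * w - (pt A B + cf F G * (16777216 * e - k0 X Y))‖ ≤ dl →
    ‖16777216 * a - xsl P Q‖ ≤ ra →
    ∃ zv zp zq r zy zE zW R nW ny M : ℕ, k zv zp zq r zy zE zW R nW ny M = true ∧
      StP 65536 (16777216 * e - k0 X Y)
        (16777216 * w - (pt A B + cf F G * (16777216 * e - k0 X Y))) (16777216 * a - xsl P Q) 4
        (16777216 * ww e 1 w 4) (16777216 * aa e 1 w a 4) (Gp e w) zv zp zq r zy zE zW R nW ny M

def KloOK : Prop := ∀ (A1 t dl ra : ℕ) (η ω π W A G : ℂ) (zv zp zq r zy zE zW R nW ny M : ℕ),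
    ‖η‖ ≤ t → ‖ω‖ ≤ dl → ‖π‖ ≤ ra → StP 65536 η ω π 4 W A G zv zp zq r zy zE zW R nW ny M →
    klo A1 t dl ra zv zp zq r zy zE zW R nW ny M = true → ‖A‖ < A1

def KhiOK : Prop := ∀ (A2 t dl ra : ℕ) (η ω π W A G : ℂ) (zv zp zq r zy zE zW R nW ny M : ℕ),
    ‖η‖ ≤ t → ‖ω‖ ≤ dl → ‖π‖ ≤ ra → StP 65536 η ω π 4 W A G zv zp zq r zy zE zW R nW ny M →
    khi A2 t dl ra zv zp zq r zy zE zW R nW ny M = true → (A2:ℝ) < ‖A‖

def KprOK : Prop := ∀ (P Q t dl ra : ℕ) (η ω π W A G : ℂ) (zv zp zq r zy zE zW R nW ny M : ℕ),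
    P + Q ≤ 4294967296 →
    ‖η‖ ≤ t → ‖ω‖ ≤ dl → ‖π‖ ≤ ra → StP 65536 η ω π 4 W A G zv zp zq r zy zE zW R nW ny M →
    kpr P Q t dl ra zv zp zq r zy zE zW R nW ny M = true → 101 * ‖A‖ < 100 * ‖xsl P Q + π‖

def KpwOK : Prop := ∀ (A1 t dl : ℕ) (η ω π W A G : ℂ) (zv zp zq r zy zE zW R nW ny M : ℕ),
    ‖η‖ ≤ t → ‖ω‖ ≤ dl → π = 0 → StP 65536 η ω π 4 W A G zv zp zq r zy zE zW R nW ny M →
    kpw A1 t dl zv zp zq r zy zE zW R nW ny M = true →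
    ∀ b : ℝ, A1 ≤ b → ‖A‖ + 101 / 100 * ‖G‖ * b < b

lemma slc_guard {X Y t A B F G dl P Q ra : ℕ}
    {k : ℕ → ℕ → ℕ → ℕ → ℕ → ℕ → ℕ → ℕ → ℕ → ℕ → ℕ → Bool}
    (h : slc X Y t A B F G dl P Q ra k = true) : P + Q ≤ 4294967296 := by
  unfold slc at h
  rw [gd_true, gd_true] at h
  have h1 := Nat.le_of_ble_eq_true h.2.1
  simp only [Nat.add_eq] at h1
  omega

lemma norm_xsl {P Q : ℕ} {a : ℂ} {ra : ℕ}
    (h : ‖16384 * a - (⟨(P:ℝ) - 16777216, (Q:ℝ) - 16777216⟩ : ℂ)‖ ≤ ra) :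
    ‖16777216 * a - xsl P Q‖ ≤ ((Nat.mul 1024 ra : ℕ) : ℝ) := by
  have e : 16777216 * a - xsl P Q =
      1024 * (16384 * a - (⟨(P:ℝ) - 16777216, (Q:ℝ) - 16777216⟩ : ℂ)) := by
    unfold xsl; ring
  have e2 : ‖(1024 : ℂ)‖ = 1024 := by norm_num
  have e3 : ((Nat.mul 1024 ra : ℕ) : ℝ) = 1024 * ra := by
    show ((1024 * ra : ℕ) : ℝ) = _
    push_cast; ring
  rw [e, norm_mul, e2, e3]
  linarith

/-- **Soundness of the slope leaves.** -/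
theorem gsOK_of (hs : SlcOK) (h1 : KloOK) (h2 : KhiOK) (h3 : KprOK) (h4 : KpwOK) (K TAU A1 A2 : ℕ) :
    GsOK K TAU A1 A2 (gs A1 A2) := by
  intro m X Hx Y Hy A B px py F G P Q qx qy h ε w a hSit hc
  have hE := cell_E hc
  have hW : ‖16777216 * w - (pt A B + cf F G * (16777216 * ε ^ 2 - k0 X Y))‖ ≤ nrq px py := cell_W hc
  have ha := norm_xsl (cell_a hc)
  have e24 : ‖(16777216 : ℂ)‖ = 16777216 := by norm_num
  have c1 : ∀ x : ℕ, ((Nat.mul 1024 x : ℕ) : ℝ) = 1024 * x := by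
    intro x
    show ((1024 * x : ℕ) : ℝ) = _
    push_cast; ring
  have hlo := hSit.lo
  have hhi := hSit.hi
  have hfour := hSit.four
  unfold gs at h
  generalize Nat.ble 9 m = b9 at h
  generalize Nat.ble 10 m = b10 at h
  generalize Nat.ble 11 m = b11 at h
  cases b10 with
  | false =>
    cases b9 with
    | false =>
      have h5 : lLO A1 X Y (nrq Hx Hy) A B F G (nrq px py) P Q (nrq qx qy) = true := h
      unfold lLO at h5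
      obtain ⟨zv, zp, zq, r, zy, zE, zW, R, nW, ny, M, hk, hS⟩ :=
        hs _ _ _ _ _ _ _ _ _ _ _ _ (ε ^ 2) w a h5 hE hW ha
      have h6 := h1 _ _ _ _ _ _ _ _ _ _ _ _ _ _ _ _ _ _ _ _ _ hE hW ha hS hk
      rw [norm_mul, e24, c1] at h6
      linarith
    | true =>
      have h5 : lHI A2 X Y (nrq Hx Hy) A B F G (nrq px py) P Q (nrq qx qy) = true := h
      unfold lHI at h5
      obtain ⟨zv, zp, zq, r, zy, zE, zW, R, nW, ny, M, hk, hS⟩ :=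
        hs _ _ _ _ _ _ _ _ _ _ _ _ (ε ^ 2) w a h5 hE hW ha
      have h6 := h2 _ _ _ _ _ _ _ _ _ _ _ _ _ _ _ _ _ _ _ _ _ hE hW ha hS hk
      rw [norm_mul, e24, c1] at h6
      linarith
  | true =>
    cases b11 with
    | false =>
      have h5 : lPR X Y (nrq Hx Hy) A B F G (nrq px py) P Q (nrq qx qy) = true := h
      unfold lPR at h5
      have hPQ := slc_guard h5
      obtain ⟨zv, zp, zq, r, zy, zE, zW, R, nW, ny, M, hk, hS⟩ :=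
        hs _ _ _ _ _ _ _ _ _ _ _ _ (ε ^ 2) w a h5 hE hW ha
      have h6 := h3 _ _ _ _ _ _ _ _ _ _ _ _ _ _ _ _ _ _ _ _ _ _ hPQ hE hW ha hS hk
      rw [norm_mul, e24, add_sub_cancel, norm_mul, e24] at h6
      linarith
    | true =>
      have h5 : lPW A1 X Y (nrq Hx Hy) A B F G (nrq px py) = true := h
      unfold lPW at h5
      have hx0 : (16777216 * (0:ℂ) - xsl 16777216 16777216) = 0 := by
        unfold xsl
        have : (⟨((16777216:ℕ):ℝ) - 16777216, ((16777216:ℕ):ℝ) - 16777216⟩ : ℂ) = 0 := by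
          apply Complex.ext <;> norm_num
        rw [this]; ring
      obtain ⟨zv, zp, zq, r, zy, zE, zW, R, nW, ny, M, hk, hS⟩ :=
        hs _ _ _ _ _ _ _ _ _ _ _ _ (ε ^ 2) w 0 h5 hE hW (by rw [hx0, norm_zero]; norm_num)
      have h6 := h4 _ _ _ _ _ _ _ _ _ _ _ _ _ _ _ _ _ _ _ _ hE hW hx0 hS hk
        (16777216 * ‖aa (ε ^ 2) 1 w a 4‖) (by rw [c1]; linarith)
      rw [norm_mul, e24] at h6
      have h7 : ‖aa (ε ^ 2) 1 w a 4‖ ≤ ‖Gp (ε ^ 2) w‖ * ‖a‖ + ‖aa (ε ^ 2) 1 w 0 4‖ := by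
        rw [aa_affine (ε ^ 2) w a]
        refine (norm_add_le _ _).trans ?_
        rw [norm_mul]
      have h8 : ‖Gp (ε ^ 2) w‖ * (100 * ‖a‖) ≤ ‖Gp (ε ^ 2) w‖ * (101 * ‖aa (ε ^ 2) 1 w a 4‖) :=
        mul_le_mul_of_nonneg_left hfour (norm_nonneg _)
      nlinarith

end Pool.Agent.W_4481e3_q25.EvR
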