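import Pool.Agent.W_4481e3_q25.GainA

/-!
**GAIN**: along a frozen block of the base `(01)^∞` tameness is gained by an arbitrary factor.
-/

open MeasureTheory Filter Topology Set

namespace Pool.Agent.W_MP_4481e3_an

variable {α : ℂ}

private lemma idx_tendsto (k : ℤ) :
    Tendsto (fun K : ℕ => ((K : ℤ) + 1 + k).toNat) atTop atTop := by
  refine tendsto_atTop_mono (fun K => ?_) (tendsto_sub_atTop_nat k.natAbs)
  omega

private lemma rigK_params (hα : ‖α‖ < 1) (him : |α.im| < α.re) :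
    (1 - α ^ 2 / 4) / 4 ≠ 0 ∧ ((1 - α / 2) / 2) ^ 2 + (1 - α ^ 2 / 4) / 4 = (1 - α / 2) / 2 ∧
      ‖2 * ((1 - α / 2) / 2)‖ < 1 ∧ ‖(1 - α ^ 2 / 4) / 4‖ ≤ 1 := by
  have hsq : ‖α ^ 2 / 4‖ ≤ 1 / 4 := by
    rw [norm_div, norm_pow]
    have : ‖(4:ℂ)‖ = 4 := by simp
    rw [this]
    have := pow_le_one₀ (n := 2) (norm_nonneg α) hα.le
    linarith
  refine ⟨?_, by ring, ?_, ?_⟩
  · intro h
    have h1 : α ^ 2 / 4 = 1 := by
      have := mul_eq_zero_of_left h 4
      rw [div_mul_cancel₀ _ (by norm_num : (4:ℂ) ≠ 0)] at this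
      linear_combination -this
    rw [h1, norm_one] at hsq
    norm_num at hsq
  · have e : 2 * ((1 - α / 2) / 2) = 1 - α / 2 := by ring
    rw [e]
    have h1 : ‖1 - α / 2‖ ^ 2 < 1 := by
      rw [← Complex.normSq_eq_norm_sq, Complex.normSq_apply]
      have hre : (1 - α / 2).re = 1 - α.re / 2 := by simp
      have him' : (1 - α / 2).im = - (α.im / 2) := by simp
      rw [hre, him']
      have h2 : α.re ≤ ‖α‖ := Complex.re_le_norm α
      have h3 : |α.im| ^ 2 ≤ α.re ^ 2 := pow_le_pow_left₀ (abs_nonneg _) him.le 2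
      rw [sq_abs] at h3
      have h4 : 0 < α.re := lt_of_le_of_lt (abs_nonneg _) him
      nlinarith
    by_contra hc
    push Not at hc
    have := one_le_pow₀ (n := 2) hc
    linarith
  · rw [norm_div]
    have : ‖(4:ℂ)‖ = 4 := by simp
    rw [this]
    have := norm_sub_le (1:ℂ) (α ^ 2 / 4)
    rw [norm_one] at this
    linarith

/-- **GAIN.** -/
theorem gain_of_rigK (hrig : RigK) (hα0 : α ≠ 0) (hα : ‖α‖ < 1) (him : |α.im| < α.re) :
    GainStmt α := by
  intro N
  by_contra hcon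
  push Not at hcon
  have hRp := one_le_Rp hα0 hα.le
  have hL0 := L0_ge hα0 hα.le
  set M : ℝ := 8 * ((N:ℝ) + 1) with hM
  have hM1 : 1 ≤ M := by
    have : (0:ℝ) ≤ N := Nat.cast_nonneg N
    linarith
  -- the chains
  have key : ∀ K : ℕ, ∃ (b : ℝ) (V : ℕ → ℂ → ℂ) (q : ℤ) (r : ℝ), Chain α b V ∧ ¬ (3:ℤ) ∣ q ∧
      |b - q / 3| ≤ (1 / 4) ^ (K + 1) ∧ 0 < r ∧ r ≤ (1 / 4) ^ (K + 1) ∧
      2 ^ (K + 1) * (M * r) ≤ 1 ∧ Tame α (V 0) r ∧
      (∀ i ≤ 2 * (K + 1), 2 ^ i * r ≤ 1) ∧
      (∀ i ≤ 2 * (K + 1), Spars α (V i) ((1 / 64) ^ (K + 1) / 64) (2 ^ i * r)) ∧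
      Spars α (V (2 * (K + 1))) ((1 / 64) ^ (K + 1) / 64) (2 ^ (K + 1) * (M * r)) ∧
      ¬ Tame α (V (2 * (K + 1))) (N * r) := by
    intro K
    obtain ⟨x0, hx0, h⟩ := hcon (K + 1) (by omega) ((1 / 64) ^ (K + 1) / 64) (by positivity)
    obtain ⟨b, V, q, r, hC, hq, hb, hr, hr0, hT, hS, hn⟩ :=
      h (min x0 1 * (1 / 4) ^ (K + 1) / M) (by positivity)
    have hm1 : min x0 1 ≤ 1 := min_le_right _ _
    have hm0 : min x0 1 ≤ x0 := min_le_left _ _
    have hmp : 0 < min x0 1 := lt_min hx0 one_pos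
    have hp4 : (1 / 4 : ℝ) ^ (K + 1) * 4 ^ (K + 1) = 1 := by
      rw [← mul_pow]; norm_num
    have hMr : M * r ≤ min x0 1 * (1 / 4) ^ (K + 1) := by
      rw [le_div_iff₀ (by linarith)] at hr0
      linarith
    have hrM : r ≤ M * r := by nlinarith
    have h4p : (0:ℝ) < (1 / 4) ^ (K + 1) := by positivity
    have hA : 4 ^ (K + 1) * (M * r) ≤ min x0 1 := by
      calc 4 ^ (K + 1) * (M * r) ≤ 4 ^ (K + 1) * (min x0 1 * (1 / 4) ^ (K + 1)) := by gcongr
        _ = min x0 1 * ((1 / 4 : ℝ) ^ (K + 1) * 4 ^ (K + 1)) := by ring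
        _ = min x0 1 := by rw [hp4, mul_one]
    have hB : ∀ i ≤ 2 * (K + 1), 2 ^ i * r ≤ min x0 1 := by
      intro i hi
      have h1 : (2:ℝ) ^ i ≤ 4 ^ (K + 1) := by
        have : (4:ℝ) ^ (K + 1) = 2 ^ (2 * (K + 1)) := by rw [pow_mul]; norm_num
        rw [this]
        exact pow_le_pow_right₀ (by norm_num) hi
      calc 2 ^ i * r ≤ 4 ^ (K + 1) * (M * r) := by gcongr
        _ ≤ _ := hA
    have hD : 2 ^ (K + 1) * (M * r) ≤ min x0 1 := by
      have h1 : (2:ℝ) ^ (K + 1) ≤ 4 ^ (K + 1) := by gcongr; norm_num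
      refine le_trans ?_ hA
      have : 0 < M * r := by positivity
      nlinarith
    refine ⟨b, V, q, r, hC, hq, hb, hr, ?_, by linarith, hT, fun i hi => (hB i hi).trans hm1,
      fun i hi => hS i hi _ (by positivity) ((hB i hi).trans hm0),
      hS _ le_rfl _ (by positivity) (hD.trans hm0), hn⟩
    calc r ≤ M * r := hrM
      _ ≤ min x0 1 * (1 / 4) ^ (K + 1) := hMr
      _ ≤ 1 * (1 / 4) ^ (K + 1) := by gcongr
      _ = _ := one_mul _
  choose b V q r hC hq hb hr hr4 hrM hT hi1 hS hS2 hnT using key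
  -- rescaled middle times
  set U : Ultrafilter ℕ := hyperfilter ℕ with hU
  have hUt : (U : Filter ℕ) ≤ atTop := Nat.hyperfilter_le_atTop
  set idx : ℤ → ℕ → ℕ := fun k K => ((K : ℤ) + 1 + k).toNat with hidx
  set F : ℤ → ℕ → ℂ → ℂ := fun k K τ => V K (idx k K) (r K * τ) with hF
  have hidxle : ∀ k : ℤ, ∀ᶠ K : ℕ in atTop, ((idx k K : ℕ) : ℤ) = (K : ℤ) + 1 + k ∧
      idx k K ≤ 2 * (K + 1) := by
    intro k
    filter_upwards [eventually_ge_atTop k.natAbs] with K hK
    simp only [hidx]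
    constructor <;> omega
  have hmaj : ∀ (k : ℤ) (R : ℝ), ∀ᶠ K : ℕ in atTop, ∀ z : ℂ, ‖z‖ ≤ R → ‖F k K z‖ ≤
      2 * Rp α * Real.exp (L0 α * (z.re ^ 2 / 2 ^ (idx k K) + 2 * max |z.im| ((1 / 2) ^ (K + 1)) +
        (1 / 2) ^ (K + 1))) := by
    intro k R
    have h1 : ∀ᶠ K : ℕ in atTop, 2 * R ≤ (2:ℝ) ^ (idx k K) :=
      ((tendsto_pow_atTop_atTop_of_one_lt (by norm_num : (1:ℝ) < 2)).comp
        (idx_tendsto k)).eventually_ge_atTop (2 * R)
    filter_upwards [hidxle k, h1] with K hK1 hK2 z hz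
    have hK3 : (1:ℝ) ≤ 2 ^ (idx k K) := one_le_pow₀ (by norm_num)
    have h := (hC K).major' hα0 hα.le (hr K) (hi1 K _ hK1.2) (hT K)
      (δ := (1 / 64) ^ (K + 1) / 64) (by positivity) (hS K _ hK1.2)
      (e := (1 / 2) ^ (K + 1)) (by positivity) (by
        have : (1 / 2 : ℝ) ^ (K + 1) ≤ 1 / 2 := by
          rw [pow_succ]
          have : (1 / 2 : ℝ) ^ K ≤ 1 := pow_le_one₀ (by norm_num) (by norm_num)
          linarith
        linarith) (τ := z) (by linarith)
    refine h.trans ?_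
    have h4 : (4:ℝ) ^ (idx k K) ≤ 16 ^ (K + 1) := by
      have : (16:ℝ) ^ (K + 1) = 4 ^ (2 * (K + 1)) := by rw [pow_mul]; norm_num
      rw [this]
      exact pow_le_pow_right₀ (by norm_num) hK1.2
    have h5 : (1 / 64 : ℝ) ^ (K + 1) / 64 * 4 ^ (idx k K) / (1 / 2) ^ (K + 1) ≤
        (1 / 2) ^ (K + 1) := by
      rw [div_le_iff₀ (by positivity)]
      calc (1 / 64 : ℝ) ^ (K + 1) / 64 * 4 ^ (idx k K)
          ≤ (1 / 64 : ℝ) ^ (K + 1) / 64 * 16 ^ (K + 1) := by gcongr
        _ = (1 / 4) ^ (K + 1) / 64 := by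
            rw [div_mul_eq_mul_div, ← mul_pow]; norm_num
        _ ≤ (1 / 4) ^ (K + 1) := by
            have : (0:ℝ) < (1 / 4) ^ (K + 1) := by positivity
            linarith
        _ = (1 / 2) ^ (K + 1) * (1 / 2) ^ (K + 1) := by rw [← mul_pow]; norm_num
    gcongr
  have hFd : ∀ (k : ℤ) (K : ℕ), Differentiable ℂ (F k K) := by
    intro k K
    exact ((hC K).diff _).comp (by fun_prop)
  have hlim : ∀ k : ℤ, ∃ g : ℂ → ℂ, Differentiable ℂ g ∧
      (∀ z, Tendsto (fun K => F k K z) U (𝓝 (g z))) ∧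
      (∀ R : ℝ, TendstoUniformlyOn (F k) g U (Metric.closedBall 0 R)) := by
    intro k
    obtain ⟨g, h1, h2, h3, -⟩ := Pool.Agent.W_4481_h69.ultra_entire U (F := F k)
      (Eventually.of_forall (hFd k))
      (B := fun R => 2 * Rp α * Real.exp (L0 α * (R ^ 2 + 2 * max R 1 + 1))) (by
        intro R
        refine hUt ?_
        filter_upwards [hmaj k R] with K hK z hz
        refine (hK z hz).trans ?_
        have hp : (1 / 2 : ℝ) ^ (K + 1) ≤ 1 := pow_le_one₀ (by norm_num) (by norm_num)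
        have h1 : z.re ^ 2 / 2 ^ (idx k K) ≤ R ^ 2 := by
          have h2 : z.re ^ 2 ≤ R ^ 2 := by
            rw [← sq_abs]
            exact pow_le_pow_left₀ (abs_nonneg _) ((Complex.abs_re_le_norm z).trans hz) 2
          exact (div_le_self (sq_nonneg _) (one_le_pow₀ (by norm_num))).trans h2
        have h2 : max |z.im| ((1 / 2) ^ (K + 1)) ≤ max R 1 :=
          max_le_max ((Complex.abs_im_le_norm z).trans hz) hp
        gcongr)
    exact ⟨g, h1, h2, h3⟩
  choose g hgd hgt hgu using hlim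
  -- the bound of the limits
  have hgb : ∀ (k : ℤ) (z : ℂ), ‖g k z‖ ≤ 2 * Rp α * Real.exp (2 * L0 α * |z.im|) := by
    intro k z
    have hz0 : Tendsto (fun K : ℕ => (1 / 2 : ℝ) ^ (K + 1)) atTop (𝓝 0) :=
      (tendsto_pow_atTop_nhds_zero_of_lt_one (by norm_num) (by norm_num)).comp
        (tendsto_add_atTop_nat 1)
    have hz1 : Tendsto (fun K : ℕ => z.re ^ 2 / (2:ℝ) ^ (idx k K)) atTop (𝓝 0) :=
      ((tendsto_pow_atTop_atTop_of_one_lt (by norm_num : (1:ℝ) < 2)).comp
        (idx_tendsto k)).const_div_atTop _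
    have hz2 : Tendsto (fun K : ℕ => max |z.im| ((1 / 2 : ℝ) ^ (K + 1))) atTop (𝓝 |z.im|) := by
      have := (tendsto_const_nhds (x := |z.im|)).max hz0
      simpa using this
    have hz3 : Tendsto (fun K : ℕ => 2 * Rp α * Real.exp (L0 α * (z.re ^ 2 / 2 ^ (idx k K) +
        2 * max |z.im| ((1 / 2) ^ (K + 1)) + (1 / 2) ^ (K + 1)))) atTop
        (𝓝 (2 * Rp α * Real.exp (L0 α * (0 + 2 * |z.im| + 0)))) :=
      (Real.continuous_exp.tendsto _ |>.comp
        (((hz1.add (hz2.const_mul 2)).add hz0).const_mul (L0 α))).const_mul (2 * Rp α)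
    have h := le_of_tendsto_of_tendsto (hgt k z).norm (hz3.mono_left hUt)
      (hUt ((hmaj k ‖z‖).mono fun K hK => hK z le_rfl))
    refine h.trans (le_of_eq ?_)
    congr 2
    ring
  -- the recursion of the limits
  have hrt : Tendsto r atTop (𝓝 0) := by
    refine squeeze_zero (fun K => (hr K).le) hr4 ?_
    exact (tendsto_pow_atTop_nhds_zero_of_lt_one (by norm_num) (by norm_num)).comp
      (tendsto_add_atTop_nat 1)
  have hgr : ∀ (k : ℤ) (z : ℂ), g (k + 1) (2 * z) = g k z +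
      α * (-1 / 2) * g k z * (1 - g k z) := by
    intro k z
    set η : ℕ → ℂ := fun K => (((2:ℝ) ^ (idx k K) * (b K - q K / 3) : ℝ) : ℂ) + r K * z with hη
    have hη0 : Tendsto η atTop (𝓝 0) := by
      have h1 : Tendsto (fun K : ℕ => (2:ℝ) ^ (idx k K) * (b K - q K / 3)) atTop (𝓝 0) := by
        rw [tendsto_zero_iff_abs_tendsto_zero]
        have hz0 : Tendsto (fun K : ℕ => (2:ℝ) ^ k.natAbs * (1 / 2 : ℝ) ^ (K + 1)) atTop
            (𝓝 0) := by
          have := ((tendsto_pow_atTop_nhds_zero_of_lt_one (r := (1 / 2 : ℝ)) (by norm_num)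
            (by norm_num)).comp (tendsto_add_atTop_nat 1)).const_mul ((2:ℝ) ^ k.natAbs)
          simpa using this
        refine squeeze_zero' (Eventually.of_forall fun _ => abs_nonneg _) ?_ hz0
        filter_upwards [hidxle k] with K hK
        simp only [Function.comp]
        rw [abs_mul, abs_of_pos (by positivity)]
        have h2 : (2:ℝ) ^ (idx k K) ≤ 2 ^ (K + 1) * 2 ^ k.natAbs := by
          rw [← pow_add]
          apply pow_le_pow_right₀ (by norm_num)
          omega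
        calc (2:ℝ) ^ (idx k K) * |b K - q K / 3|
            ≤ (2 ^ (K + 1) * 2 ^ k.natAbs) * (1 / 4) ^ (K + 1) := by
              gcongr
              exact hb K
          _ = 2 ^ k.natAbs * ((2 : ℝ) ^ (K + 1) * (1 / 4) ^ (K + 1)) := by ring
          _ = _ := by rw [← mul_pow]; norm_num
      have h2 : Tendsto (fun K : ℕ => ((r K : ℝ) : ℂ) * z) atTop (𝓝 0) := by
        have := ((Complex.continuous_ofReal.tendsto 0).comp hrt).mul_const z
        simpa using this
      have h3 := ((Complex.continuous_ofReal.tendsto 0).comp h1).add h2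
      simpa [hη] using h3
    have hcos : Tendsto (fun K => Complex.cos (2 * Real.pi *
        (2 ^ (idx k K) * (b K : ℂ) + r K * z))) U (𝓝 (-1 / 2)) := by
      have h1 := tendsto_cos_block (l := (U : Filter ℕ)) (m := fun K => 2 ^ (idx k K) * q K)
        (η := η) (by
          intro K hd
          have hcop : IsCoprime (3:ℤ) (2 ^ (idx k K)) := by
            apply IsCoprime.pow_right
            exact ⟨1, -1, by norm_num⟩
          exact hq K (hcop.dvd_of_dvd_mul_left hd)) (hη0.mono_left hUt)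
      refine h1.congr fun K => ?_
      congr 2
      simp only [hη]
      push_cast
      ring
    have hL : Tendsto (fun K => F (k + 1) K (2 * z)) U (𝓝 (g k z +
        α * (-1 / 2) * g k z * (1 - g k z))) := by
      have h1 : Tendsto (fun K => F k K z + α * Complex.cos (2 * Real.pi *
          (2 ^ (idx k K) * (b K : ℂ) + r K * z)) * F k K z * (1 - F k K z)) U
          (𝓝 (g k z + α * (-1 / 2) * g k z * (1 - g k z))) :=
        (hgt k z).add (((hcos.const_mul α).mul (hgt k z)).mul ((hgt k z).const_sub 1))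
      refine h1.congr' (hUt ?_)
      filter_upwards [hidxle k, hidxle (k + 1)] with K hK1 hK2
      have e : idx (k + 1) K = idx k K + 1 := by omega
      simp only [hF]
      rw [e]
      have h2 := (hC K).recur (idx k K) (r K * z)
      have e2 : (r K : ℂ) * (2 * z) = 2 * (r K * z) := by ring
      rw [e2, h2]
    exact tendsto_nhds_unique (hgt (k + 1) (2 * z)) hL
  -- rigidity
  obtain ⟨hκ0, hfix, ha, hκ1⟩ := rigK_params hα him
  have hconst := hrig _ _ hκ0 hfix ha hκ1 (fun k z => (α * g k z - α / 2 + 1) / 2)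
    (fun k => by
      have := hgd k
      fun_prop)
    ⟨2 * Rp α + 2, 2 * L0 α, fun k z => by
      have h1 := hgb k z
      have hE : 1 ≤ Real.exp (2 * L0 α * |z.im|) :=
        Real.one_le_exp (by positivity)
      have h2 : ‖(α * g k z - α / 2 + 1) / 2‖ ≤ (‖α‖ * ‖g k z‖ + ‖α‖ / 2 + 1) / 2 := by
        rw [norm_div]
        have e2 : ‖(2:ℂ)‖ = 2 := by simp
        rw [e2]
        have h3 := norm_add_le (α * g k z - α / 2) 1
        have h4 := norm_sub_le (α * g k z) (α / 2)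
        rw [norm_mul, norm_div, e2] at h4
        rw [norm_one] at h3
        linarith
      have h3 : ‖α‖ * ‖g k z‖ ≤ ‖g k z‖ := by
        have := norm_nonneg (g k z)
        nlinarith
      show ‖(α * g k z - α / 2 + 1) / 2‖ ≤ _
      nlinarith⟩
    (fun k z => by
      show (α * g (k + 1) (2 * z) - α / 2 + 1) / 2 = ((α * g k z - α / 2 + 1) / 2) ^ 2 +
        (1 - α ^ 2 / 4) / 4
      rw [hgr k z]
      ring)
  have hg0 : ∀ z, ‖g 0 z‖ ≤ 2 * Rp α := by
    intro z
    have h1 := hconst 0 z 0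
    have h2 : g 0 z = g 0 0 := by
      have h3 : α * g 0 z = α * g 0 0 := by
        have h4 : (α * g 0 z - α / 2 + 1) / 2 = (α * g 0 0 - α / 2 + 1) / 2 := h1
        linear_combination 2 * h4
      exact mul_left_cancel₀ hα0 h3
    rw [h2]
    have := hgb 0 0
    simpa using this
  -- conclusion
  have hclose : ∀ᶠ K in (U : Filter ℕ), ∀ z ∈ Metric.closedBall (0:ℂ) M,
      dist (g 0 z) (F 0 K z) < 1 :=
    Metric.tendstoUniformlyOn_iff.1 (hgu 0 M) 1 one_pos
  obtain ⟨K, hK⟩ := hclose.exists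
  have hCt : 2 * Rp α + 1 ≤ Ct α := by
    have h1 : 1 ≤ Real.exp Real.pi := Real.one_le_exp Real.pi_pos.le
    unfold Ct
    have h2 : Rp α ≤ Rp α ^ 2 := by nlinarith
    have h3 : 12 * Rp α ≤ 12 * Real.exp Real.pi * Rp α ^ 2 := by
      have : Rp α ^ 2 ≤ Real.exp Real.pi * Rp α ^ 2 := by nlinarith [sq_nonneg (Rp α)]
      nlinarith
    linarith
  have htame : Tame α (V K (K + 1)) (M * r K) := by
    intro s hs
    have hrK := hr K
    have hrc : (r K : ℂ) ≠ 0 := by exact_mod_cast hrK.ne'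
    have h1 := hK (s / r K) (by
      rw [mem_closedBall_zero_iff, norm_div, Complex.norm_real, Real.norm_eq_abs,
        abs_of_pos hrK, div_le_iff₀ hrK]
      exact hs)
    have e : F 0 K (s / r K) = V K (K + 1) s := by
      simp only [hF, hidx]
      rw [mul_div_cancel₀ _ hrc]
      congr 1
    rw [e, dist_eq_norm] at h1
    have h2 := hg0 (s / r K)
    have h3 : ‖V K (K + 1) s‖ ≤ ‖g 0 (s / r K)‖ + ‖g 0 (s / r K) - V K (K + 1) s‖ := by
      have := norm_sub_le (g 0 (s / r K)) (g 0 (s / r K) - V K (K + 1) s)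
      simpa using this
    linarith
  have hfin := ((hC K).shift (K + 1)).no_loss hα0 hα.le (r := M * r K) (k := K + 1)
    (by have := hr K; positivity) (hrM K) (by simpa using htame) (by
      have h1 := (hS2 K).mono (δ' := (1 / 4) ^ (K + 1) / 64) (by gcongr; norm_num)
        (by have := hr K; positivity)
      have e : K + 1 + (K + 1) = 2 * (K + 1) := by ring
      simpa only [e] using h1)
  apply hnT K
  have e : K + 1 + (K + 1) = 2 * (K + 1) := by ring
  have hfin' : Tame α (V K (2 * (K + 1))) (M * r K / 8) := by simpa only [e] using hfin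
  refine hfin'.mono ?_
  have := hr K
  rw [hM]
  nlinarith

end Pool.Agent.W_MP_4481e3_an
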