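import Pool.Agent.W_4481e3_q25.TreeR
import Pool.Agent.W_4481e3_q42.SndK
import Pool.Agent.W_4481e3_q42.Close

/-!
Kill certificate, format RT: the statements.
-/

namespace Pool.Agent.W_4481e3_q25.EvR

open Pool.Agent.W_4481e3_q42 (Alive Adm aa ww cc dd)
open Pool.Agent.W_MP_4481e3_an.Ev (pt)
open Pool.Agent.W_4481e3_q42.Ev (cf k0)

/-- What is known: `w`, `a` are the point and the slope at the time `-4` (phase `1`, base `2 / 15`);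
`A1`, `A2` at the scale `2^14`, `K = 16 kap`, `TAU = 2^34 tau`. -/
structure Situ (K TAU A1 A2 : ℕ) (ε w a : ℂ) : Prop where
  adm : Adm ε
  reg : 47 * ‖ε ^ 2‖ ^ 2 < 32 * (ε ^ 2).re
  alive : Alive ε (2 / 15) w
  lo : (A1 : ℝ) ≤ 16384 * ‖aa (ε ^ 2) 1 w a 4‖
  hi : 16384 * ‖aa (ε ^ 2) 1 w a 4‖ ≤ A2
  four : 100 * ‖a‖ ≤ 101 * ‖aa (ε ^ 2) 1 w a 4‖
  test : ∀ s : ℝ, 17179869184 * |s| ≤ TAU →
    ∃ Z : ℂ, ‖Z - (w + a * s)‖ ≤ K / 32 * s ^ 2 ∧ Alive ε (2 / 15 + s) Z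

/-- The cell; `E = 2^24 eps^2`, `W = 2^24 w`, `a' = 2^14 a`. -/
structure Cell (X Hx Y Hy A B px py F G P Q qx qy : ℕ) (E W a' : ℂ) : Prop where
  ex : |E.re - X| ≤ Hx
  ey : |E.im - Y| ≤ Hy
  wx : |(W - (pt A B + cf F G * (E - k0 X Y))).re| ≤ px
  wy : |(W - (pt A B + cf F G * (E - k0 X Y))).im| ≤ py
  ax : |a'.re - ((P:ℝ) - 16777216)| ≤ qx
  ay : |a'.im - ((Q:ℝ) - 16777216)| ≤ qy

/-- no orbit with its data in the cell -/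
def Cov (K TAU A1 A2 : ℕ) : CF Prop := fun X Hx Y Hy A B px py F G P Q qx qy =>
  ∀ ε w a : ℂ, Situ K TAU A1 A2 ε w a →
    Cell X Hx Y Hy A B px py F G P Q qx qy (16777216 * ε ^ 2) (16777216 * w) (16384 * a) → False

/-- soundness of the slope leaves -/
def GsOK (K TAU A1 A2 : ℕ) (gs : ℕ → CF Bool) : Prop :=
  ∀ m X Hx Y Hy A B px py F G P Q qx qy : ℕ, gs m X Hx Y Hy A B px py F G P Q qx qy = true →
    Cov K TAU A1 A2 X Hx Y Hy A B px py F G P Q qx qy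

/-- soundness of the trap over an integer base; `R` is a radius, all at the scale `2^24` -/
def Tp0OK (tp0 : TF) : Prop := ∀ X Hx Y Hy A B R : ℕ, tp0 X Hx Y Hy A B R = true →
  ∀ ε : ℂ, Adm ε → |(16777216 * ε ^ 2 : ℂ).re - (X:ℝ)| ≤ Hx → |(16777216 * ε ^ 2 : ℂ).im - (Y:ℝ)| ≤ Hy →
    ∀ (n : ℤ) (Z : ℂ), ‖16777216 * Z - pt A B‖ ≤ R → ¬ Alive ε n Z

/-- soundness of the trap over a base of order three -/
def Tp3OK (tp3 : TF) : Prop := ∀ X Hx Y Hy A B R : ℕ, tp3 X Hx Y Hy A B R = true →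
  ∀ ε : ℂ, Adm ε → |(16777216 * ε ^ 2 : ℂ).re - (X:ℝ)| ≤ Hx → |(16777216 * ε ^ 2 : ℂ).im - (Y:ℝ)| ≤ Hy →
    ∀ (x : ℝ) (q : ℤ), 3 * x = q → ¬ (3 ∣ q) →
      ∀ Z : ℂ, ‖16777216 * Z - pt A B‖ ≤ R → ¬ Alive ε x Z

/-- the words after the header -/
def wd (S : ℕ) : ℕ → ℕ
  | 0 => Nat.shiftRight S 64
  | k + 1 => Nat.shiftRight (wd S k) 88

/-- **What the table check has to give**, for every test `i` (also beyond the table). -/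
structure TestOK (S : ℕ) (x : ℝ) : Prop where
  s : (Nat.land (Nat.shiftRight S 40) 1 = 0 ∧
      |((Nat.land S 1099511627775 : ℕ) : ℝ) - 17179869184 * (x - 2 / 15)| ≤ 1) ∨
    (Nat.land (Nat.shiftRight S 40) 1 = 1 ∧
      |-((Nat.land S 1099511627775 : ℕ) : ℝ) - 17179869184 * (x - 2 / 15)| ≤ 1)
  c : ∀ k < Nat.land (Nat.shiftRight S 41) 63, ∃ C : ℕ, C ≤ 16777216 ∧
    ((Nat.land (wd S k) 67108863 = C ∧
      |(C:ℝ) - 16777216 * Real.cos (2 * Real.pi * (2 ^ k * x))| ≤ 1) ∨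
    (Nat.land (wd S k) 67108863 = C + 33554432 ∧
      |-(C:ℝ) - 16777216 * Real.cos (2 * Real.pi * (2 ^ k * x))| ≤ 1))
  esc : ∀ k < Nat.land (Nat.shiftRight S 41) 63, ∀ ε Z : ℂ, Adm ε →
    47 * ‖ε ^ 2‖ ^ 2 < 32 * (ε ^ 2).re →
    (((Nat.land (Nat.shiftRight (wd S k) 56) 1073741823 : ℕ)) : ℝ) ≤
      ‖16777216 * Z - (⟨((Nat.land (Nat.shiftRight (wd S k) 26) 1073741823 : ℕ) : ℝ) - 536870912, 0⟩ : ℂ)‖ →
    ¬ Alive ε (2 ^ k * x) Z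
  f0 : ∀ k < Nat.land (Nat.shiftRight S 41) 63, fl (wd S k) = 1 → ∃ n : ℤ, 2 ^ k * x = n
  f3 : ∀ k < Nat.land (Nat.shiftRight S 41) 63, fl (wd S k) = 2 →
    ∃ q : ℤ, 3 * (2 ^ k * x) = q ∧ ¬ (3 ∣ q)

def TabOK (T : ℕ) : Prop := ∀ i, ∃ x : ℝ, TestOK (slot T i) x

end Pool.Agent.W_4481e3_q25.EvR
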