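import Pool.Agent.W_4481e3_q42.EvK

/-!
Kill certificate, format RT: evaluator of the reshear tree.

Cell (fourteen numbers): the scaled parameter `E = 2^24 e` lies in the rectangle with centre
`X + Y i` and half sides `Hx`, `Hy`; the scaled point `W = 2^24 u_4` is
`pt A B + cf F G (E - (X + Y i)) + om` with `|Re om| <= px`, `|Im om| <= py`; the scaled slope
`2^14 b_4` lies in the rectangle with centre `(P - 2^24) + (Q - 2^24) i` and half sides `qx`, `qy`.

Stream: hexadecimal digits, lowest first.  Tags: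
`0` OUT, `1` SWx, `2` SWy, `3` SAx, `4` SAy, `5` SEx, `6` SEy, `7` RS (20 bits F, 20 bits G),
`8` RLO, `9` RHI, `10` PR, `11` PW,
`12` escape, `13` trap over the base 0, `14` unit disc over the base 1/3, `15` trap over the base 1/3;
the tags `12 .. 15` are followed by 12 bits (number `i` of the test) and 8 bits (number `k` of steps).
At a split the data of the upper child come first.

Slot of a test (2880 bits): header of 64 bits (bits 0-39 `|s| 2^34` rounded, bit 40 the sign of `s`
(1 = negative), bits 41-46 the number `L` of words), then 32 words of 88 bits.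
Word `k` (base `2^k (2/15 + s)`): bits 0-24 `|cos| 2^24` rounded, bit 25 the sign (1 = negative),
bits 26-55 `m 2^24 + 2^29`, bits 56-85 `rho 2^24`, bits 86-87 flag (1: the base is an integer,
2: three times the base is an integer prime to 3).
-/

namespace Pool.Agent.W_4481e3_q25.EvR

open Pool.Agent.W_MP_4481e3_an.Ev (gd nrm1)
open Pool.Agent.W_4481e3_q12.Ev (ds fid neg)
open Pool.Agent.W_4481e3_q42.Ev (nrq ste sep sen)

/-- closer at the end of a chain: word `T`, ball `(A, B, R)` -/
abbrev Cl := ℕ → ℕ → ℕ → ℕ → Bool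

/-- escape: `|Z - m| >= rho` -/
noncomputable def es2 (a b R : ℕ) : Bool :=
  Nat.ble (Nat.mul R R) (Nat.add (Nat.mul a a) (Nat.mul b b))

noncomputable def es (T A B R : ℕ) : Bool :=
  es2 (ds A (Nat.land (Nat.shiftRight T 26) 1073741823)) (ds B 536870912)
    (Nat.add (Nat.land (Nat.shiftRight T 56) 1073741823) R)

/-- flag of a word: `1` integer base, `2` third base -/
def fl (T : ℕ) : ℕ := Nat.land (Nat.shiftRight T 86) 3

/-- unit disc about `-1` over a base of order three -/
noncomputable def d32 (a b R : ℕ) : Bool :=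
  Nat.ble (Nat.succ (Nat.add (Nat.mul a a) (Nat.mul b b))) (Nat.mul R R)

noncomputable def d3 (T A B R : ℕ) : Bool :=
  gd (Nat.beq (fl T) 2) (d32 (ds A 520093696) (ds B 536870912) (Nat.sub 16777216 R))

/-- one step with the cosine of the word `c` (25 bits and the sign) -/
noncomputable def st1 (c X Y t te A B r F G : ℕ) (k : ℕ → ℕ → ℕ → ℕ → ℕ → Bool) : Bool :=
  Bool.rec (sep c X Y t te A B r F G k) (sen (Nat.sub c 33554432) X Y t te A B r F G k)
    (Nat.ble 33554432 c)

/-- end of a chain: total radius -/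
noncomputable def ce (cl : Cl) (t T A B r F G : ℕ) : Bool :=
  cl T A B (Nat.add (Nat.add (Nat.div (Nat.mul (nrq (ds F 268435456) (ds G 268435456)) t) 65536) 1) r)

/-- `k` steps of the chain; `T` holds the remaining words -/
noncomputable def ch (cl : Cl) (X Y t te k : ℕ) : ℕ → ℕ → ℕ → ℕ → ℕ → ℕ → Bool :=
  Nat.rec (fun T A B r F G => ce cl t T A B r F G)
    (fun _ ih T A B r F G =>
      st1 (Nat.land T 67108863) X Y t te A B r F G (ih (Nat.shiftRight T 88))) k

/-- slot of the test `i`: header of 64 bits, 32 words of 88 bits -/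
def slot (T i : ℕ) : ℕ :=
  Nat.land (Nat.shiftRight T (Nat.mul 2880 i)) (Nat.sub (Nat.pow 2 2880) 1)

/-- `A + s (P - 2^24) / 2^24` and `A - s (P - 2^24) / 2^24` -/
def adp (s A P : ℕ) : ℕ := Nat.sub (Nat.add A (Nat.div (Nat.mul s P) 16777216)) s
def adn (s A P : ℕ) : ℕ := Nat.sub (Nat.add A s) (Nat.div (Nat.mul s P) 16777216)

/-- start of the chain of a test, with the guards against truncated subtraction -/
noncomputable def ts5 (cl : Cl) (k X Y t A B S r F G : ℕ) : Bool :=
  gd (Nat.ble 1 A) (gd (Nat.ble 1 B)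
    (ch cl X Y t (Nat.add (Nat.div (Nat.mul t 3) 131072) 37) k (Nat.shiftRight S 64) A B r F G))

noncomputable def ts4 (cl : Cl) (k X Y t A B F G P Q S s r : ℕ) : Bool :=
  Bool.rec (ts5 cl k X Y t (adp s A P) (adp s B Q) S r F G)
    (ts5 cl k X Y t (adn s A P) (adn s B Q) S r F G)
    (Nat.ble 1 (Nat.land (Nat.shiftRight S 40) 1))

noncomputable def ts3 (K TAU : ℕ) (cl : Cl) (k X Y t A B rw F G P Q ra S s s1 : ℕ) : Bool :=
  gd (Nat.ble s1 TAU)
    (ts4 cl k X Y t A B F G P Q S s
      (Nat.add (Nat.add rw (Nat.div (Nat.mul s ra) 16777216))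
        (Nat.add (Nat.div (Nat.mul K (Nat.mul s1 s1)) 562949953421312) 6)))

noncomputable def ts2 (K TAU : ℕ) (cl : Cl) (k X Y t A B rw F G P Q ra S : ℕ) : Bool :=
  gd (Nat.ble (Nat.succ k) (Nat.land (Nat.shiftRight S 41) 63))
    (ts3 K TAU cl k X Y t A B rw F G P Q ra S (Nat.land S 1099511627775)
      (Nat.add (Nat.land S 1099511627775) 1))

noncomputable def ts1 (K TAU : ℕ) (cl : Cl) (k X Y t A B rw F G P Q ra S : ℕ) : Bool :=
  gd (Nat.ble X 4194304) (gd (Nat.ble Y 4194304) (gd (Nat.ble t 16777216)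
    (ts2 K TAU cl k X Y t A B rw F G P Q ra S)))

/-- the test leaf: test `i` of the table `T`, closer after `k` steps -/
noncomputable def ts (T K TAU : ℕ) (cl : Cl) (i k X Hx Y Hy A B px py F G P Q qx qy : ℕ) : Bool :=
  ts1 K TAU cl k X Y (nrq Hx Hy) A B (nrq px py) F G P Q (nrq qx qy) (slot T i)

/-- outside of the parameter region -/
noncomputable def ou2 (x q : ℕ) : Bool :=
  Bool.rec (Nat.ble (Nat.mul 536870912 x) (Nat.mul 47 q)) true (Nat.ble 17592186044416 q)

noncomputable def ou1 (x u v : ℕ) : Bool := ou2 x (Nat.add (Nat.mul u u) (Nat.mul v v))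

noncomputable def ou (X Hx Y Hy : ℕ) : Bool := ou1 (Nat.add X Hx) (Nat.sub X Hx) (Nat.sub Y Hy)

end Pool.Agent.W_4481e3_q25.EvR
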