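import Pool.Agent.W_4481e3_h6.LossB
import Pool.Agent.W_4481_h69.Ultra

/-!
Preparation for the frozen block theorem GAIN.
-/

open MeasureTheory Filter Topology Set

namespace Pool.Agent.W_MP_4481e3_an

variable {α : ℂ}

/-- rigidity at the base `1/3` in quadratic form (statement) -/
def RigK : Prop := ∀ (κ a : ℂ), κ ≠ 0 → a ^ 2 + κ = a → ‖2 * a‖ < 1 → ‖κ‖ ≤ 1 →
  ∀ W : ℤ → ℂ → ℂ, (∀ k, Differentiable ℂ (W k)) →
  (∃ R C : ℝ, ∀ k z, ‖W k z‖ ≤ R * Real.exp (C * |z.im|)) →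
  (∀ k z, W (k + 1) (2 * z) = (W k z) ^ 2 + κ) → ∀ k z w, W k z = W k w

lemma Chain.shift {b : ℝ} {V : ℕ → ℂ → ℂ} (hC : Chain α b V) (K : ℕ) :
    Chain α (2 ^ K * b) (fun i => V (K + i)) := by
  refine ⟨fun i => hC.diff _, fun i s => ?_⟩
  have h := hC.recur (K + i) s
  have e : (2:ℂ) ^ (K + i) * (b : ℂ) + s = 2 ^ i * ((2 ^ K * b : ℝ) : ℂ) + s := by
    push_cast
    rw [pow_add]
    ring
  rw [e] at h
  exact h

lemma Spars.mono {V : ℂ → ℂ} {δ δ' x : ℝ} (h : Spars α V δ x) (hd : δ ≤ δ') (hx : 0 ≤ x) :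
    Spars α V δ' x :=
  le_trans h (ENNReal.ofReal_le_ofReal (by gcongr))

lemma cos_third {m : ℤ} (hm : ¬ (3:ℤ) ∣ m) : Real.cos (2 * Real.pi * (m / 3)) = -1 / 2 := by
  have h3 : m % 3 = 1 ∨ m % 3 = 2 := by omega
  have hc : Real.cos (Real.pi - Real.pi / 3) = -1 / 2 := by
    rw [Real.cos_pi_sub, Real.cos_pi_div_three]; norm_num
  have hc2 : Real.cos (Real.pi / 3 + Real.pi) = -1 / 2 := by
    rw [Real.cos_add_pi, Real.cos_pi_div_three]; norm_num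
  have hm' : (m : ℝ) = 3 * ((m / 3 : ℤ) : ℝ) + ((m % 3 : ℤ) : ℝ) := by
    exact_mod_cast (Int.mul_ediv_add_emod m 3).symm
  rcases h3 with h | h
  · rw [hm', h]
    have e : 2 * Real.pi * ((3 * ((m / 3 : ℤ) : ℝ) + ((1 : ℤ) : ℝ)) / 3) =
        (Real.pi - Real.pi / 3) + ((m / 3 : ℤ) : ℝ) * (2 * Real.pi) := by
      push_cast; ring
    rw [e, Real.cos_add_int_mul_two_pi, hc]
  · rw [hm', h]
    have e : 2 * Real.pi * ((3 * ((m / 3 : ℤ) : ℝ) + ((2 : ℤ) : ℝ)) / 3) =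
        (Real.pi / 3 + Real.pi) + ((m / 3 : ℤ) : ℝ) * (2 * Real.pi) := by
      push_cast; ring
    rw [e, Real.cos_add_int_mul_two_pi, hc2]

lemma cos_third_near {m : ℤ} (hm : ¬ (3:ℤ) ∣ m) (η : ℂ) :
    ‖Complex.cos (2 * Real.pi * ((m : ℂ) / 3 + η)) - (-1 / 2)‖ ≤
      ‖Complex.cos (2 * Real.pi * η) - 1‖ + ‖Complex.sin (2 * Real.pi * η)‖ := by
  have h1 := cos_third hm
  have h2 : Complex.cos (2 * Real.pi * ((m : ℂ) / 3)) = -1 / 2 := by
    have := congrArg (fun x : ℝ => (x : ℂ)) h1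
    push_cast at this
    exact this
  have h3 : ‖Complex.sin (2 * Real.pi * ((m : ℂ) / 3))‖ ≤ 1 := by
    have e : Complex.sin (2 * Real.pi * ((m : ℂ) / 3)) =
        ((Real.sin (2 * Real.pi * (m / 3)) : ℝ) : ℂ) := by push_cast; rfl
    rw [e, Complex.norm_real]
    exact Real.abs_sin_le_one _
  have e : Complex.cos (2 * Real.pi * ((m : ℂ) / 3 + η)) - (-1 / 2) =
      (-1 / 2) * (Complex.cos (2 * Real.pi * η) - 1) -
        Complex.sin (2 * Real.pi * ((m : ℂ) / 3)) * Complex.sin (2 * Real.pi * η) := by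
    rw [mul_add, Complex.cos_add, h2]
    ring
  rw [e]
  refine (norm_sub_le _ _).trans (add_le_add ?_ ?_)
  · rw [norm_mul]
    have : ‖(-1 / 2 : ℂ)‖ ≤ 1 := by norm_num
    nlinarith [norm_nonneg (Complex.cos (2 * Real.pi * η) - 1)]
  · rw [norm_mul]
    nlinarith [norm_nonneg (Complex.sin (2 * Real.pi * η))]

/-- the cosines along a frozen block tend to `-1/2` -/
lemma tendsto_cos_block {l : Filter ℕ} {m : ℕ → ℤ} {η : ℕ → ℂ} (hm : ∀ K, ¬ (3:ℤ) ∣ m K)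
    (hη : Tendsto η l (𝓝 0)) :
    Tendsto (fun K => Complex.cos (2 * Real.pi * ((m K : ℂ) / 3 + η K))) l (𝓝 (-1 / 2)) := by
  rw [tendsto_iff_norm_sub_tendsto_zero]
  refine squeeze_zero (fun _ => norm_nonneg _) (fun K => cos_third_near (hm K) (η K)) ?_
  have hcont : Continuous (fun x : ℂ => ‖Complex.cos (2 * Real.pi * x) - 1‖ +
      ‖Complex.sin (2 * Real.pi * x)‖) := by fun_prop
  have h := (hcont.tendsto 0).comp hη
  simpa [Function.comp_def] using h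

/-- the majorant in the rescaled form -/
lemma Chain.major' {b : ℝ} {V : ℕ → ℂ → ℂ} (hC : Chain α b V) (hα0 : α ≠ 0) (hα : ‖α‖ ≤ 1)
    {r δ e : ℝ} {i : ℕ} (hr : 0 < r) (hk : 2 ^ i * r ≤ 1) (hT : Tame α (V 0) r) (hδ : 0 ≤ δ)
    (hS : Spars α (V i) δ (2 ^ i * r)) (he : 0 < e) (he1 : e ≤ 2 ^ i / 2) {τ : ℂ}
    (hτ : ‖τ‖ ≤ 2 ^ i / 2) :
    ‖V i (r * τ)‖ ≤ 2 * Rp α * Real.exp (L0 α * (τ.re ^ 2 / 2 ^ i + 2 * max |τ.im| e +
      δ * 4 ^ i / e)) := by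
  have h := hC.major hα0 hα hr hk hT hδ hS (e := r * e) (by positivity)
    (by nlinarith) (s := r * τ) (by
      rw [norm_mul, Complex.norm_real, Real.norm_eq_abs, abs_of_pos hr]
      nlinarith)
  refine h.trans (le_of_eq ?_)
  congr 2
  have e1 : (r * τ : ℂ).re = r * τ.re := by simp
  have e2 : (r * τ : ℂ).im = r * τ.im := by simp
  have e3 : max |r * τ.im| (r * e) = r * max |τ.im| e := by
    rw [abs_mul, abs_of_pos hr, mul_max_of_nonneg _ _ hr.le]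
  have e4 : (4:ℝ) ^ i = 2 ^ i * 2 ^ i := by rw [← mul_pow]; norm_num
  rw [e1, e2, e3, e4]
  field_simp

end Pool.Agent.W_MP_4481e3_an
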