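import Pool.Agent.W_4481e3_q25.Gain
import Pool.Agent.W_4481_h69.RigK3

/-!
**GAIN**, unconditional form.
-/

namespace Pool.Agent.W_MP_4481e3_an

variable {α : ℂ}

/-- **GAIN** (unconditional). -/
theorem gain (hα0 : α ≠ 0) (hα : ‖α‖ < 1) (him : |α.im| < α.re) : GainStmt α :=
  gain_of_rigK (fun _ _ h0 h1 h2 h3 _ hd hg hs => Pool.Agent.W_4481_h69.rigK h0 h1 h2 h3 hd hg hs)
    hα0 hα him

end Pool.Agent.W_MP_4481e3_an
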