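import Pool.Agent.W_4481e3_q25.GainFin
import Pool.Agent.W_4481e3_q46.MainTwo

/-!
The conjecture for `L = 2` reduced to `NoFam2`.
-/

open MeasureTheory Filter Topology Set

namespace Pool.Agent.W_MP_4481e3_an

variable {α : ℂ}

/-- **The conjecture for `L = 2`**, reduced to the non-existence of the limit family. -/
theorem main_two_of_noFam2 (hno : NoFam2) (hα0 : 0 < ‖α‖) (hα : ‖α‖ < 1)
    (h0 : ∫ x in (0:ℝ)..1, logf α x < 0) (h1 : ∫ x in (0:ℝ)..1, logf (-α) x < 0) :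
    ∀ᵐ u ∂(volume.restrict (Ico (0:ℝ) 1)), randomFatou α 2 u = combinedBasin α 2 u :=
  main_two (fun _ h0 h1 h2 => gain h0 h1 h2) hno hα0 hα h0 h1

end Pool.Agent.W_MP_4481e3_an
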