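import Pool.Agent.W_4481e3_q25.CellR

/-!
Kill certificate, format RT: soundness of the nodes, for an arbitrary set `S` of states.
-/

namespace Pool.Agent.W_4481e3_q25.EvR

open Complex
open Pool.Agent.W_MP_4481e3_an.Ev (gd pt gd_true div_lower div_upper norm_pt_sq norm_le_sqrt_two ndiv_eq)
open Pool.Agent.W_4481e3_q12.Ev (ds ds_cast)
open Pool.Agent.W_4481e3_q42.Ev (cf k0)

/-- no state of `S` in the cell -/
def CovS (S : ℂ → ℂ → ℂ → Prop) : CF Prop := fun X Hx Y Hy A B px py F G P Q qx qy =>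
  ∀ E W a : ℂ, S E W a → Cell X Hx Y Hy A B px py F G P Q qx qy E W a → False

section
variable {S : ℂ → ℂ → ℂ → Prop} {X Hx Y Hy A B px py F G P Q qx qy K : ℕ}

/-- halving an interval -/
lemma halve {u : ℝ} {p K : ℕ} (hp : p ≤ 2 * K) (h : |u| ≤ p) : |u + K| ≤ K ∨ |u - K| ≤ K := by
  have hp' : (p:ℝ) ≤ 2 * K := by exact_mod_cast hp
  obtain ⟨h1, h2⟩ := abs_le.1 h
  rcases le_total u 0 with h3 | h3
  · left; rw [abs_le]; constructor <;> linarith
  · right; rw [abs_le]; constructor <;> linarith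

lemma CovS.swx (hp : px ≤ 2 * K) (hA : K ≤ A)
    (c1 : CovS S X Hx Y Hy (A - K) B K py F G P Q qx qy)
    (c2 : CovS S X Hx Y Hy (A + K) B K py F G P Q qx qy) :
    CovS S X Hx Y Hy A B px py F G P Q qx qy := by
  intro E W a hs ⟨ex, ey, wx, wy, ax, ay⟩
  have e1 : ((A - K : ℕ) : ℝ) = A - K := Nat.cast_sub hA
  rcases halve hp wx with h | h
  · refine c1 E W a hs ⟨ex, ey, ?_, ?_, ax, ay⟩
    · refine le_trans (le_of_eq ?_) h
      congr 1
      simp only [pt, Complex.sub_re, Complex.add_re, e1]; ring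
    · refine le_trans (le_of_eq ?_) wy
      congr 1
  · refine c2 E W a hs ⟨ex, ey, ?_, ?_, ax, ay⟩
    · refine le_trans (le_of_eq ?_) h
      congr 1
      simp only [pt, Complex.sub_re, Complex.add_re]; push_cast; ring
    · refine le_trans (le_of_eq ?_) wy
      congr 1

lemma CovS.swy (hp : py ≤ 2 * K) (hB : K ≤ B)
    (c1 : CovS S X Hx Y Hy A (B - K) px K F G P Q qx qy)
    (c2 : CovS S X Hx Y Hy A (B + K) px K F G P Q qx qy) :
    CovS S X Hx Y Hy A B px py F G P Q qx qy := by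
  intro E W a hs ⟨ex, ey, wx, wy, ax, ay⟩
  have e1 : ((B - K : ℕ) : ℝ) = B - K := Nat.cast_sub hB
  rcases halve hp wy with h | h
  · refine c1 E W a hs ⟨ex, ey, ?_, ?_, ax, ay⟩
    · refine le_trans (le_of_eq ?_) wx
      congr 1
    · refine le_trans (le_of_eq ?_) h
      congr 1
      simp only [pt, Complex.sub_im, Complex.add_im, e1]; ring
  · refine c2 E W a hs ⟨ex, ey, ?_, ?_, ax, ay⟩
    · refine le_trans (le_of_eq ?_) wx
      congr 1
    · refine le_trans (le_of_eq ?_) h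
      congr 1
      simp only [pt, Complex.sub_im, Complex.add_im]; push_cast; ring

lemma CovS.sax (hp : qx ≤ 2 * K) (hA : K ≤ P)
    (c1 : CovS S X Hx Y Hy A B px py F G (P - K) Q K qy)
    (c2 : CovS S X Hx Y Hy A B px py F G (P + K) Q K qy) :
    CovS S X Hx Y Hy A B px py F G P Q qx qy := by
  intro E W a hs ⟨ex, ey, wx, wy, ax, ay⟩
  have e1 : ((P - K : ℕ) : ℝ) = P - K := Nat.cast_sub hA
  rcases halve hp ax with h | h
  · refine c1 E W a hs ⟨ex, ey, wx, wy, ?_, ay⟩
    refine le_trans (le_of_eq ?_) h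
    rw [e1]; congr 1; ring
  · refine c2 E W a hs ⟨ex, ey, wx, wy, ?_, ay⟩
    refine le_trans (le_of_eq ?_) h
    push_cast; congr 1; ring

lemma CovS.say (hp : qy ≤ 2 * K) (hA : K ≤ Q)
    (c1 : CovS S X Hx Y Hy A B px py F G P (Q - K) qx K)
    (c2 : CovS S X Hx Y Hy A B px py F G P (Q + K) qx K) :
    CovS S X Hx Y Hy A B px py F G P Q qx qy := by
  intro E W a hs ⟨ex, ey, wx, wy, ax, ay⟩
  have e1 : ((Q - K : ℕ) : ℝ) = Q - K := Nat.cast_sub hA
  rcases halve hp ay with h | h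
  · refine c1 E W a hs ⟨ex, ey, wx, wy, ax, ?_⟩
    refine le_trans (le_of_eq ?_) h
    rw [e1]; congr 1; ring
  · refine c2 E W a hs ⟨ex, ey, wx, wy, ax, ?_⟩
    refine le_trans (le_of_eq ?_) h
    push_cast; congr 1; ring

lemma up_sound {A F K : ℕ} (h : 1 ≤ up A F K) :
    |((up A F K : ℕ) : ℝ) - (A + K * ((F - 268435456) / 65536))| ≤ 1 := by
  unfold up at *
  simp only [Nat.add_eq, Nat.mul_eq, Nat.sub_eq, ndiv_eq] at *
  have l := div_lower (F * K) 65536 (by norm_num)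
  have u := div_upper (F * K) 65536
  push_cast at l u
  rw [Nat.cast_sub (by omega), abs_le]
  push_cast
  constructor <;> linarith

lemma dn_sound {A F K : ℕ} (h : 1 ≤ dn A F K) :
    |((dn A F K : ℕ) : ℝ) - (A - K * ((F - 268435456) / 65536))| ≤ 1 := by
  unfold dn at *
  simp only [Nat.add_eq, Nat.mul_eq, Nat.sub_eq, ndiv_eq] at *
  have l := div_lower (F * K) 65536 (by norm_num)
  have u := div_upper (F * K) 65536
  push_cast at l u
  rw [Nat.cast_sub (by omega), abs_le]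
  push_cast
  constructor <;> linarith

lemma abs_add_one {u v : ℝ} {p : ℕ} (h : |u| ≤ p) (hv : |v| ≤ 1) : |u + v| ≤ ((p + 1 : ℕ) : ℝ) := by
  push_cast
  exact (abs_add_le _ _).trans (add_le_add h hv)

/-- moving the centre of the parameter -/
lemma move {X' Y' A' B' : ℕ} {dx dy : ℝ} {E W a : ℂ}
    (hc : Cell X Hx Y Hy A B px py F G P Q qx qy E W a) {Hx' Hy' : ℕ}
    (hX : (X':ℝ) = X + dx) (hY : (Y':ℝ) = Y + dy)
    (hx : |E.re - X'| ≤ Hx') (hy : |E.im - Y'| ≤ Hy')
    (hA : |(A':ℝ) - (A + dx * ((F - 268435456) / 65536) - dy * ((G - 268435456) / 65536))| ≤ 1)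
    (hB : |(B':ℝ) - (B + dx * ((G - 268435456) / 65536) + dy * ((F - 268435456) / 65536))| ≤ 1) :
    Cell X' Hx' Y' Hy' A' B' (px + 1) (py + 1) F G P Q qx qy E W a := by
  obtain ⟨_, _, wx, wy, ax, ay⟩ := hc
  refine ⟨hx, hy, ?_, ?_, ax, ay⟩
  · rw [abs_sub_comm] at hA
    refine le_trans (le_of_eq ?_) (abs_add_one wx hA)
    congr 1
    simp only [pt, cf, k0, Complex.sub_re, Complex.add_re, Complex.mul_re, Complex.sub_im, hX, hY]
    ring
  · rw [abs_sub_comm] at hB
    refine le_trans (le_of_eq ?_) (abs_add_one wy hB)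
    congr 1
    simp only [pt, cf, k0, Complex.sub_re, Complex.add_im, Complex.mul_im, Complex.sub_im, hX, hY]
    ring

lemma CovS.sex (hp : Hx ≤ 2 * K) (hK : K ≤ X) (h1 : 1 ≤ dn A F K) (h2 : 1 ≤ dn B G K)
    (h3 : 1 ≤ up A F K) (h4 : 1 ≤ up B G K)
    (c1 : CovS S (X - K) K Y Hy (dn A F K) (dn B G K) (px + 1) (py + 1) F G P Q qx qy)
    (c2 : CovS S (X + K) K Y Hy (up A F K) (up B G K) (px + 1) (py + 1) F G P Q qx qy) :
    CovS S X Hx Y Hy A B px py F G P Q qx qy := by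
  intro E W a hs hc
  have e1 : ((X - K : ℕ) : ℝ) = X - K := Nat.cast_sub hK
  rcases halve hp hc.ex with h | h
  · refine c1 E W a hs (move hc (dx := -K) (dy := 0) (by rw [e1]; ring) (by ring) ?_ hc.ey ?_ ?_)
    · rw [e1]
      refine le_trans (le_of_eq ?_) h
      congr 1; ring
    · refine le_trans (le_of_eq ?_) (dn_sound h1)
      congr 1; ring
    · refine le_trans (le_of_eq ?_) (dn_sound h2)
      congr 1; ring
  · refine c2 E W a hs (move hc (dx := K) (dy := 0) (by push_cast; ring) (by ring) ?_ hc.ey ?_ ?_)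
    · refine le_trans (le_of_eq ?_) h
      push_cast; congr 1; ring
    · refine le_trans (le_of_eq ?_) (up_sound h3)
      congr 1; ring
    · refine le_trans (le_of_eq ?_) (up_sound h4)
      congr 1; ring

lemma CovS.sey (hp : Hy ≤ 2 * K) (hK : K ≤ Y) (h1 : 1 ≤ up A G K) (h2 : 1 ≤ dn B F K)
    (h3 : 1 ≤ dn A G K) (h4 : 1 ≤ up B F K)
    (c1 : CovS S X Hx (Y - K) K (up A G K) (dn B F K) (px + 1) (py + 1) F G P Q qx qy)
    (c2 : CovS S X Hx (Y + K) K (dn A G K) (up B F K) (px + 1) (py + 1) F G P Q qx qy) :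
    CovS S X Hx Y Hy A B px py F G P Q qx qy := by
  intro E W a hs hc
  have e1 : ((Y - K : ℕ) : ℝ) = Y - K := Nat.cast_sub hK
  rcases halve hp hc.ey with h | h
  · refine c1 E W a hs (move hc (dx := 0) (dy := -K) (by ring) (by rw [e1]; ring) hc.ex ?_ ?_ ?_)
    · rw [e1]
      refine le_trans (le_of_eq ?_) h
      congr 1; ring
    · refine le_trans (le_of_eq ?_) (up_sound h1)
      congr 1; ring
    · refine le_trans (le_of_eq ?_) (dn_sound h2)
      congr 1; ring
  · refine c2 E W a hs (move hc (dx := 0) (dy := K) (by ring) (by push_cast; ring) hc.ex ?_ ?_ ?_)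
    · refine le_trans (le_of_eq ?_) h
      push_cast; congr 1; ring
    · refine le_trans (le_of_eq ?_) (dn_sound h3)
      congr 1; ring
    · refine le_trans (le_of_eq ?_) (up_sound h4)
      congr 1; ring

/-- reshear -/
lemma CovS.rs {F' G' f g : ℕ} (hf : f = ds F F') (hg : g = ds G G')
    (c : CovS S X Hx Y Hy A B (px + ((f * Hx + g * Hy) / 65536 + 1))
      (py + ((g * Hx + f * Hy) / 65536 + 1)) F' G' P Q qx qy) :
    CovS S X Hx Y Hy A B px py F G P Q qx qy := by
  intro E W a hs ⟨ex, ey, wx, wy, ax, ay⟩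
  have hF : (f:ℝ) = |(F:ℝ) - F'| := by rw [hf, ds_cast]
  have hG : (g:ℝ) = |(G:ℝ) - G'| := by rw [hg, ds_cast]
  have l1 := div_lower (f * Hx + g * Hy) 65536 (by norm_num)
  have l2 := div_lower (g * Hx + f * Hy) 65536 (by norm_num)
  push_cast at l1 l2
  have b1 : |((F:ℝ) - F') * (E.re - X)| ≤ f * Hx := by
    rw [abs_mul, ← hF]; exact mul_le_mul_of_nonneg_left ex (Nat.cast_nonneg _)
  have b2 : |((G:ℝ) - G') * (E.im - Y)| ≤ g * Hy := by
    rw [abs_mul, ← hG]; exact mul_le_mul_of_nonneg_left ey (Nat.cast_nonneg _)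
  have b3 : |((G:ℝ) - G') * (E.re - X)| ≤ g * Hx := by
    rw [abs_mul, ← hG]; exact mul_le_mul_of_nonneg_left ex (Nat.cast_nonneg _)
  have b4 : |((F:ℝ) - F') * (E.im - Y)| ≤ f * Hy := by
    rw [abs_mul, ← hF]; exact mul_le_mul_of_nonneg_left ey (Nat.cast_nonneg _)
  refine c E W a hs ⟨ex, ey, ?_, ?_, ax, ay⟩
  · have e : (W - (pt A B + cf F' G' * (E - k0 X Y))).re = (W - (pt A B + cf F G * (E - k0 X Y))).re +
        (((F:ℝ) - F') * (E.re - X) - ((G:ℝ) - G') * (E.im - Y)) / 65536 := by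
      simp only [pt, cf, k0, Complex.sub_re, Complex.add_re, Complex.mul_re, Complex.sub_im]
      ring
    rw [e]
    refine (abs_add_le _ _).trans ?_
    have h1 : |(((F:ℝ) - F') * (E.re - X) - ((G:ℝ) - G') * (E.im - Y)) / 65536| ≤
        (f * Hx + g * Hy) / 65536 := by
      rw [abs_div, abs_of_pos (by norm_num : (0:ℝ) < 65536)]
      apply div_le_div_of_nonneg_right _ (by norm_num)
      refine (abs_sub _ _).trans ?_
      linarith
    push_cast
    linarith
  · have e : (W - (pt A B + cf F' G' * (E - k0 X Y))).im = (W - (pt A B + cf F G * (E - k0 X Y))).im +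
        (((G:ℝ) - G') * (E.re - X) + ((F:ℝ) - F') * (E.im - Y)) / 65536 := by
      simp only [pt, cf, k0, Complex.sub_re, Complex.add_im, Complex.mul_im, Complex.sub_im]
      ring
    rw [e]
    refine (abs_add_le _ _).trans ?_
    have h1 : |(((G:ℝ) - G') * (E.re - X) + ((F:ℝ) - F') * (E.im - Y)) / 65536| ≤
        (g * Hx + f * Hy) / 65536 := by
      rw [abs_div, abs_of_pos (by norm_num : (0:ℝ) < 65536)]
      apply div_le_div_of_nonneg_right _ (by norm_num)
      refine (abs_add_le _ _).trans ?_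
      linarith
    push_cast
    linarith

end

end Pool.Agent.W_4481e3_q25.EvR
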