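import Mathlib

/-!
# Rigidity at base 1/3

Let `‖κ‖ < 1/4`, `β ^ 2 + κ = β` with `0 < β.re`, `1/2 ≤ ‖β‖ < 1`.  If `W k : ℝ → ℂ` (`k : ℤ`)
are uniformly Lipschitz, bounded, bounded below by `1/2` and satisfy
`W (k+1) (2 * t) = W k t ^ 2 + κ`, then every `W k` is constant.
-/

open Set

namespace Q25

/-! ## The abstract angle lemma -/

theorem scale_nat {A : ℤ → ℝ → ℝ}
    (h2 : ∀ k s t, A (k+1) (2*s) - A (k+1) (2*t) = 2*(A k s - A k t)) (n : ℕ) :
    ∀ k s t, A (k+n) (2^n*s) - A (k+n) (2^n*t) = 2^n*(A k s - A k t) := by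
  induction n with
  | zero => intro k s t; simp
  | succ n ih =>
    intro k s t
    have h := h2 (k+n) (2^n*s) (2^n*t)
    rw [ih k s t] at h
    have e1 : k + ((n+1 : ℕ) : ℤ) = k + n + 1 := by push_cast; ring
    rw [e1]
    have e2 : ∀ u : ℝ, (2:ℝ)^(n+1)*u = 2*(2^n*u) := fun u => by ring
    rw [e2, e2, h]; ring

theorem scale_zpow {A : ℤ → ℝ → ℝ}
    (h2 : ∀ k s t, A (k+1) (2*s) - A (k+1) (2*t) = 2*(A k s - A k t)) (n : ℤ) :
    ∀ k s t, A (k+n) (2^n*s) - A (k+n) (2^n*t) = 2^n*(A k s - A k t) := by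
  intro k s t
  obtain ⟨m, rfl | rfl⟩ := n.eq_nat_or_neg
  · simpa using scale_nat h2 m k s t
  · have h := scale_nat h2 m (k + -(m:ℤ)) (2^(-(m:ℤ))*s) (2^(-(m:ℤ))*t)
    have e0 : (2:ℝ)^m * 2^(-(m:ℤ)) = 1 := by
      rw [zpow_neg, zpow_natCast]; field_simp
    have e1 : ∀ u : ℝ, (2:ℝ)^m * (2^(-(m:ℤ))*u) = u := fun u => by
      rw [← mul_assoc, e0, one_mul]
    rw [e1, e1] at h
    have e2 : k + -(m:ℤ) + m = k := by ring
    rw [e2] at h
    rw [h, ← mul_assoc, mul_comm ((2:ℝ)^(-(m:ℤ))) ((2:ℝ)^m), e0, one_mul]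

theorem angle_const {A : ℤ → ℝ → ℝ} (h1 : ∀ k, Continuous (A k))
    (h2 : ∀ k s t, A (k+1) (2*s) - A (k+1) (2*t) = 2*(A k s - A k t))
    {M : ℝ} (h3 : ∀ k s t, |A k s - A k t| ≤ M * |s - t|)
    (h4 : ∀ ε : ℝ, 0 < ε → ∃ j : ℕ, ∀ (m : ℤ) (x : ℝ), (∃ n : ℤ, A m x = 2 * Real.pi * n) →
      |A (m+j) (2^j*x+1) - A (m+j) (2^j*x)| ≤ ε) :
    ∀ k s t, A k s = A k t := by
  classical
  set S : Set ℝ := {y | ∃ (k : ℤ) (s t : ℝ), s < t ∧ y = |A k t - A k s| / (t - s)} with hS
  have hSbdd : BddAbove S := by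
    refine ⟨M, ?_⟩
    rintro y ⟨k, s, t, hst, rfl⟩
    rw [div_le_iff₀ (by linarith)]
    have := h3 k t s
    rwa [abs_of_pos (by linarith : 0 < t - s)] at this
  have hSne : S.Nonempty := ⟨_, 0, 0, 1, by norm_num, rfl⟩
  set B : ℝ := sSup S with hB
  have hlip : ∀ (k : ℤ) (s t : ℝ), s ≤ t → |A k t - A k s| ≤ B * (t - s) := by
    intro k s t hst
    rcases hst.eq_or_lt with h | h
    · subst h; simp
    · have := le_csSup hSbdd (⟨k, s, t, h, rfl⟩ : |A k t - A k s| / (t - s) ∈ S)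
      rwa [div_le_iff₀ (by linarith)] at this
  have hB0 : 0 ≤ B := by
    have := hlip 0 0 1 (by norm_num)
    have h' := abs_nonneg (A 0 1 - A 0 0)
    linarith
  rcases hB0.eq_or_lt with h0 | hpos
  · intro k s t
    rcases le_total s t with hst | hst
    · have := hlip k s t hst
      rw [← h0, zero_mul] at this
      have := abs_nonpos_iff.1 this
      linarith
    · have := hlip k t s hst
      rw [← h0, zero_mul] at this
      have := abs_nonpos_iff.1 this
      linarith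
  exfalso
  obtain ⟨j, hj⟩ := h4 (B/4) (by linarith)
  set h : ℝ := ((2:ℝ)^j)⁻¹ with hh
  have h2j : (1:ℝ) ≤ 2^j := one_le_pow₀ (by norm_num)
  have hhpos : 0 < h := by positivity
  have hh1 : h ≤ 1 := inv_le_one_of_one_le₀ h2j
  have hjh : (2:ℝ)^j * h = 1 := by rw [hh]; field_simp
  -- the small scale consequence
  have hsmall : ∀ (m : ℤ) (x : ℝ), (∃ n : ℤ, A m x = 2 * Real.pi * n) →
      |A m (x+h) - A m x| ≤ B/4 * h := by
    intro m x hx
    have e := scale_nat h2 j m (x+h) x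
    have e' : (2:ℝ)^j*(x+h) = 2^j*x+1 := by rw [mul_add, hjh]
    rw [e'] at e
    have := hj m x hx
    rw [e, abs_mul, abs_of_pos (by positivity : (0:ℝ) < 2^j)] at this
    have h5 : h * ((2:ℝ)^j * |A m (x+h) - A m x|) ≤ h * (B/4) :=
      mul_le_mul_of_nonneg_left this hhpos.le
    rw [← mul_assoc, mul_comm h, hjh, one_mul] at h5
    linarith
  set R1 : ℝ := 4 * Real.pi / B + 4 with hR1
  have hR1pos : 4 ≤ R1 := by
    have : 0 ≤ 4 * Real.pi / B := by positivity
    linarith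
  set η : ℝ := h / (4 * R1) with hη
  have hηpos : 0 < η := by positivity
  have hη1 : η * R1 = h / 4 := by rw [hη]; field_simp
  have hηhalf : η ≤ 1/2 := by
    rw [hη, div_le_iff₀ (by positivity)]
    nlinarith
  -- an approximant of the supremum
  obtain ⟨y, ⟨k, s, t, hst, rfl⟩, hy⟩ := exists_lt_of_lt_csSup hSne
    (show B * (1 - η) < sSup S by rw [← hB]; nlinarith)
  rw [lt_div_iff₀ (by linarith)] at hy
  -- rescale
  obtain ⟨n, hn1, hn2⟩ := exists_mem_Ioc_zpow (show 0 < (t - s)/R1 from div_pos (by linarith) (by linarith))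
    (show (1:ℝ) < 2 by norm_num)
  rw [lt_div_iff₀ (by linarith)] at hn1
  rw [div_le_iff₀ (by linarith)] at hn2
  set m : ℤ := k + (-n) with hm
  set a : ℝ := 2^(-n) * s with ha
  set b : ℝ := 2^(-n) * t with hb
  have hz : (0:ℝ) < 2^(-n) := by positivity
  have hz2 : (2:ℝ)^(-n) * 2^n = 1 := by rw [← zpow_add₀ (by norm_num)]; simp
  have hz3 : (2:ℝ)^(-n) * 2^(n+1) = 2 := by rw [← zpow_add₀ (by norm_num)]; simp
  have hba : b - a = 2^(-n) * (t - s) := by rw [hb, ha]; ring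
  have hba1 : R1 < b - a := by
    rw [hba]
    have := mul_lt_mul_of_pos_left hn1 hz
    rwa [← mul_assoc, hz2, one_mul] at this
  have hba2 : b - a ≤ 2 * R1 := by
    rw [hba]
    have := mul_le_mul_of_nonneg_left hn2 hz.le
    rwa [← mul_assoc, hz3] at this
  have hbig : B * (1 - η) * (b - a) < |A m b - A m a| := by
    have e := scale_zpow h2 (-n) k t s
    rw [← hm, ← hb, ← ha] at e
    rw [e, abs_mul, abs_of_pos hz, hba]
    have := mul_lt_mul_of_pos_left hy hz
    calc B * (1 - η) * (2^(-n) * (t - s)) = 2^(-n) * (B * (1 - η) * (t - s)) := by ring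
      _ < _ := this
  -- choose the sign
  obtain ⟨σ, hσ, hσA⟩ : ∃ σ : ℝ, |σ| = 1 ∧ |A m b - A m a| = σ * (A m b - A m a) := by
    rcases le_total 0 (A m b - A m a) with h | h
    · exact ⟨1, by norm_num, by rw [abs_of_nonneg h, one_mul]⟩
    · exact ⟨-1, by norm_num, by rw [abs_of_nonpos h]; ring⟩
  have hσle : ∀ x : ℝ, σ * x ≤ |x| := by
    intro x
    calc σ * x ≤ |σ * x| := le_abs_self _
      _ = |x| := by rw [abs_mul, hσ, one_mul]
  rw [hσA] at hbig
  -- the function is monotone enough: find the crossing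
  have hA1 : 2 * Real.pi ≤ |A m (b-1) - A m a| := by
    have h6 : σ * (A m b - A m (b-1)) ≤ B * 1 := by
      have := hlip m (b-1) b (by linarith)
      refine (hσle _).trans ?_
      have e : b - (b-1) = 1 := by ring
      rwa [e] at this
    have h7 : B * (1 - η) * (b - a) - B ≤ σ * (A m (b-1) - A m a) := by
      have e : σ * (A m (b-1) - A m a) = σ * (A m b - A m a) - σ * (A m b - A m (b-1)) := by ring
      rw [e]; linarith
    refine le_trans ?_ (h7.trans (hσle _))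
    have h8 : B * (1 - η) * R1 ≤ B * (1 - η) * (b - a) :=
      mul_le_mul_of_nonneg_left hba1.le (mul_nonneg hpos.le (by linarith))
    have h9 : B * (1/2) * R1 ≤ B * (1 - η) * R1 :=
      mul_le_mul_of_nonneg_right (mul_le_mul_of_nonneg_left (by linarith) hpos.le) (by linarith)
    have h10 : B * (1/2) * R1 = 2 * Real.pi + 2 * B := by
      rw [hR1]; field_simp; ring
    linarith
  -- an integer multiple of 2π between the two values
  obtain ⟨x, hxa, hxb, N, hxN⟩ : ∃ x, a ≤ x ∧ x ≤ b - 1 ∧ ∃ N : ℤ, A m x = 2 * Real.pi * N := by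
    have hab : a ≤ b - 1 := by linarith
    have hcont : ContinuousOn (A m) (Icc a (b-1)) := (h1 m).continuousOn
    have hpi : 0 < 2 * Real.pi := by positivity
    have key : ∀ u v : ℝ, u + 2 * Real.pi ≤ v → ∃ N : ℤ, u ≤ 2 * Real.pi * N ∧ 2 * Real.pi * N ≤ v := by
      intro u v huv
      refine ⟨⌈u / (2 * Real.pi)⌉, ?_, ?_⟩
      · have := Int.le_ceil (u / (2 * Real.pi))
        rw [div_le_iff₀ hpi] at this
        linarith
      · have := (Int.ceil_lt_add_one (u / (2 * Real.pi))).le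
        have h11 : 2 * Real.pi * (⌈u / (2 * Real.pi)⌉ : ℝ) ≤ 2 * Real.pi * (u / (2 * Real.pi) + 1) :=
          mul_le_mul_of_nonneg_left this hpi.le
        have h12 : 2 * Real.pi * (u / (2 * Real.pi) + 1) = u + 2 * Real.pi := by
          field_simp
        linarith
    rcases le_total (A m a) (A m (b-1)) with h | h
    · rw [abs_of_nonneg (by linarith)] at hA1
      obtain ⟨N, hN1, hN2⟩ := key (A m a) (A m (b-1)) (by linarith)
      obtain ⟨x, hx, hxe⟩ := intermediate_value_Icc hab hcont ⟨hN1, hN2⟩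
      exact ⟨x, hx.1, hx.2, N, hxe⟩
    · rw [abs_of_nonpos (by linarith)] at hA1
      obtain ⟨N, hN1, hN2⟩ := key (A m (b-1)) (A m a) (by linarith)
      obtain ⟨x, hx, hxe⟩ := intermediate_value_Icc' hab hcont ⟨hN1, hN2⟩
      exact ⟨x, hx.1, hx.2, N, hxe⟩
  have hs := hsmall m x ⟨N, hxN⟩
  have q1 : σ * (A m b - A m (x+h)) ≤ B * (b - (x+h)) :=
    (hσle _).trans (hlip m (x+h) b (by linarith))
  have q2 : σ * (A m (x+h) - A m x) ≤ B/4*h := (hσle _).trans hs
  have q3 : σ * (A m x - A m a) ≤ B * (x - a) := (hσle _).trans (hlip m a x hxa)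
  have q4 : σ * (A m b - A m a) = σ * (A m b - A m (x+h)) + σ * (A m (x+h) - A m x)
      + σ * (A m x - A m a) := by ring
  have q5 : B * (1 - η) * (b - a) < B * (b - (x+h)) + B/4*h + B * (x - a) := by linarith
  have q6 : B * η * (b - a) ≤ B * (h/2) := by
    have : η * (b - a) ≤ η * (2 * R1) := mul_le_mul_of_nonneg_left hba2 hηpos.le
    have h13 : η * (2 * R1) = h/2 := by
      have : η * (2 * R1) = 2 * (η * R1) := by ring
      rw [this, hη1]; ring
    rw [mul_assoc]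
    exact mul_le_mul_of_nonneg_left (by linarith) hpos.le
  have q7 : B * h > 0 := mul_pos hpos hhpos
  nlinarith

/-! ## Continuous logarithms -/

theorem exp_lift_unique {f g : ℝ → ℂ} (hf : Continuous f) (hg : Continuous g)
    (h : ∀ t, Complex.exp (f t) = Complex.exp (g t)) (t s : ℝ) : f t - g t = f s - g s := by
  have hg' : Continuous fun t => g t + (f s - g s) := by fun_prop
  have key : f = fun t => g t + (f s - g s) := by
    refine Complex.isCoveringMap_exp.eq_of_comp_eq hf hg' ?_ s (by ring)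
    funext t
    apply Subtype.ext
    show Complex.exp (f t) = Complex.exp (g t + (f s - g s))
    rw [Complex.exp_add, Complex.exp_sub, h t, h s, div_self (Complex.exp_ne_zero _), mul_one]
  have e := congrFun key t
  rw [e]; ring

theorem exists_lift {W : ℝ → ℂ} (hW : Continuous W) (h0 : ∀ t, W t ≠ 0) :
    ∃ L : ℝ → ℂ, Continuous L ∧ ∀ t, Complex.exp (L t) = W t := by
  obtain ⟨F, ⟨-, hF⟩, -⟩ := Complex.isCoveringMapOn_exp.existsUnique_continuousMap_lifts
    (A := ℝ) ⟨W, hW⟩ (a₀ := 0) (e₀ := Complex.log (W 0)) (Complex.exp_log (h0 0)) (fun a => h0 a)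
  exact ⟨F, F.continuous, fun t => congrFun hF t⟩

/-- the increment of a continuous logarithm while the function stays close -/
theorem lift_diff {W L : ℝ → ℂ} (hW : Continuous W) (hL : Continuous L)
    (he : ∀ t, Complex.exp (L t) = W t) {s t : ℝ}
    (hc : ∀ τ ∈ uIcc t s, ‖W τ - W t‖ ≤ ‖W t‖ / 2) : ‖L s - L t‖ ≤ 3/4 := by
  have hW0 : W t ≠ 0 := by rw [← he t]; exact Complex.exp_ne_zero _
  have hpos : 0 < ‖W t‖ := norm_pos_iff.2 hW0
  set φ : ℝ → ℝ := fun x => t + (max 0 (min x 1)) * (s - t) with hφ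
  have hφc : Continuous φ := by fun_prop
  have hφ0 : φ 0 = t := by simp [hφ]
  have hφ1 : φ 1 = s := by simp [hφ]
  have hφm : ∀ x, φ x ∈ uIcc t s := by
    intro x
    have h0 : 0 ≤ max 0 (min x 1) := le_max_left _ _
    have h1 : max 0 (min x 1) ≤ 1 := max_le (by norm_num) (min_le_right _ _)
    rcases le_total t s with h | h
    · rw [uIcc_of_le h]
      constructor
      · have := mul_nonneg h0 (sub_nonneg.2 h); simp only [hφ]; linarith
      · have := mul_le_mul_of_nonneg_right h1 (sub_nonneg.2 h); simp only [hφ]; linarith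
    · rw [uIcc_of_ge h]
      constructor
      · have := mul_le_mul_of_nonneg_right h1 (sub_nonneg.2 h); simp only [hφ]; linarith
      · have := mul_nonneg h0 (sub_nonneg.2 h); simp only [hφ]; linarith
  have hz : ∀ x, ‖(W (φ x) - W t) / W t‖ ≤ 1/2 := by
    intro x
    rw [norm_div, div_le_iff₀ hpos]
    have := hc (φ x) (hφm x)
    linarith
  have hg : Continuous fun x => L t + Complex.log (1 + (W (φ x) - W t) / W t) := by
    refine continuous_const.add (Continuous.clog ?_ ?_)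
    · fun_prop
    · intro x
      exact Complex.mem_slitPlane_of_norm_lt_one (lt_of_le_of_lt (hz x) (by norm_num))
  have key := exp_lift_unique (hL.comp hφc) hg (fun x => by
    simp only [Function.comp_apply]
    have hne : 1 + (W (φ x) - W t) / W t ≠ 0 := by
      have e : 1 + (W (φ x) - W t) / W t = W (φ x) / W t := by field_simp; ring
      rw [e]
      refine div_ne_zero ?_ hW0
      rw [← he]; exact Complex.exp_ne_zero _
    rw [Complex.exp_add, Complex.exp_log hne, he, he]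
    field_simp; ring) 1 0
  simp only [Function.comp_apply, hφ0, hφ1, sub_self, zero_div, add_zero, Complex.log_one] at key
  have e : L s - L t = Complex.log (1 + (W s - W t) / W t) := by
    have := sub_eq_zero.1 key
    rw [this]; ring
  rw [e]
  have hz1 := hz 1
  rw [hφ1] at hz1
  have := Complex.norm_log_one_add_half_le_self hz1
  linarith

/-! ## The inverse branch in the logarithmic coordinate -/

/-- `G l = (l + Log (1 - κ e^{-l})) / 2` -/
noncomputable def G (κ l : ℂ) : ℂ := (1/2) * (l + Complex.log (1 - κ * Complex.exp (-l)))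

theorem small_term {κ l : ℂ} (hl : -Real.log 2 ≤ l.re) : ‖κ * Complex.exp (-l)‖ ≤ 2 * ‖κ‖ := by
  rw [norm_mul, Complex.norm_exp, Complex.neg_re]
  have : Real.exp (-l.re) ≤ 2 := by
    calc Real.exp (-l.re) ≤ Real.exp (Real.log 2) := Real.exp_le_exp.2 (by linarith)
      _ = 2 := Real.exp_log (by norm_num)
  have h0 := norm_nonneg κ
  nlinarith

theorem slit_term {κ l : ℂ} (hκ : ‖κ‖ < 1/4) (hl : -Real.log 2 ≤ l.re) :
    1 - κ * Complex.exp (-l) ∈ Complex.slitPlane := by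
  have h := small_term (κ := κ) hl
  have : 1 - κ * Complex.exp (-l) = 1 + (-(κ * Complex.exp (-l))) := by ring
  rw [this]
  refine Complex.mem_slitPlane_of_norm_lt_one ?_
  rw [norm_neg]; linarith

theorem exp_G {κ l : ℂ} (hκ : ‖κ‖ < 1/4) (hl : -Real.log 2 ≤ l.re) :
    Complex.exp (2 * G κ l) = Complex.exp l - κ := by
  have h := Complex.slitPlane_ne_zero (slit_term hκ hl)
  have e : 2 * G κ l = l + Complex.log (1 - κ * Complex.exp (-l)) := by unfold G; ring
  rw [e, Complex.exp_add, Complex.exp_log h, mul_sub, mul_one, mul_left_comm, ← Complex.exp_add]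
  simp

theorem im_G {κ l : ℂ} (hκ : ‖κ‖ < 1/4) (hl : -Real.log 2 ≤ l.re) (him : |l.im| ≤ Real.pi / 2) :
    |(G κ l).im| < Real.pi / 2 := by
  have h := small_term (κ := κ) hl
  have hre : 0 < (1 - κ * Complex.exp (-l)).re := by
    have := Complex.abs_re_le_norm (κ * Complex.exp (-l))
    have := (abs_le.1 this).2
    rw [Complex.sub_re, Complex.one_re]
    linarith
  have harg : |(1 - κ * Complex.exp (-l)).arg| < Real.pi / 2 :=
    Complex.abs_arg_lt_pi_div_two_iff.2 (Or.inl hre)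
  have e : (G κ l).im = (l.im + (1 - κ * Complex.exp (-l)).arg) / 2 := by
    unfold G
    have e1 : (1/2 : ℂ) * (l + Complex.log (1 - κ * Complex.exp (-l)))
        = (l + Complex.log (1 - κ * Complex.exp (-l))) / ((2:ℝ) : ℂ) := by push_cast; ring
    rw [e1, Complex.div_ofReal_im, Complex.add_im, Complex.log_im]
  rw [e, abs_div, abs_of_pos (by norm_num : (0:ℝ) < 2)]
  have := abs_add_le l.im (1 - κ * Complex.exp (-l)).arg
  linarith

theorem lip_G {κ : ℂ} (hκ : ‖κ‖ < 1/4) {l l' : ℂ} (hl : -Real.log 2 ≤ l.re)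
    (hl' : -Real.log 2 ≤ l'.re) :
    ‖G κ l - G κ l'‖ ≤ 1 / (2 * (1 - 2 * ‖κ‖)) * ‖l - l'‖ := by
  have hconv : Convex ℝ {z : ℂ | -Real.log 2 ≤ z.re} := convex_halfSpace_re_ge _
  refine hconv.norm_image_sub_le_of_norm_hasDerivWithin_le (f := G κ)
    (f' := fun z => (1/2) * (1 + (κ * Complex.exp (-z)) / (1 - κ * Complex.exp (-z))))
    ?_ ?_ hl' hl
  · intro z hz
    refine HasDerivAt.hasDerivWithinAt ?_
    have h1 : HasDerivAt (fun z : ℂ => 1 - κ * Complex.exp (-z)) (κ * Complex.exp (-z)) z := by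
      have h2 : HasDerivAt (fun z : ℂ => Complex.exp (-z)) (Complex.exp (-z) * (-1)) z :=
        (hasDerivAt_neg z).cexp
      have h3 := (h2.const_mul κ).const_sub 1
      refine h3.congr_deriv ?_
      ring
    have h4 := h1.clog (slit_term hκ hz)
    exact ((hasDerivAt_id z).add h4).const_mul (1/2 : ℂ)
  · intro z hz
    have hz0 := Complex.slitPlane_ne_zero (slit_term hκ hz)
    have h := small_term (κ := κ) hz
    have e : (1/2 : ℂ) * (1 + (κ * Complex.exp (-z)) / (1 - κ * Complex.exp (-z)))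
        = (1/2) * (1 / (1 - κ * Complex.exp (-z))) := by
      field_simp; ring
    have h2 : ‖(1/2 : ℂ)‖ = 1/2 := by norm_num
    rw [e, norm_mul, h2, norm_div, norm_one]
    have hn : 1 - 2 * ‖κ‖ ≤ ‖1 - κ * Complex.exp (-z)‖ := by
      have := norm_sub_norm_le (1:ℂ) (κ * Complex.exp (-z))
      rw [norm_one] at this
      linarith
    have hp : 0 < 1 - 2 * ‖κ‖ := by linarith
    rw [one_div_mul_one_div]
    exact one_div_le_one_div_of_le (by positivity) (by linarith)

/-- the branch selection: principal logarithms in the closed right half plane -/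
theorem log_eq_G {κ w w' : ℂ} (hκ : ‖κ‖ < 1/4) (hw : 1/2 ≤ ‖w‖) (hw' : 1/2 ≤ ‖w'‖)
    (ha : |w.arg| ≤ Real.pi/2) (ha' : |w'.arg| ≤ Real.pi/2) (hr : w' = w^2 + κ) :
    Complex.log w = G κ (Complex.log w') := by
  have hw0 : w ≠ 0 := norm_pos_iff.1 (by linarith)
  have hw0' : w' ≠ 0 := norm_pos_iff.1 (by linarith)
  have hre : -Real.log 2 ≤ (Complex.log w').re := by
    rw [Complex.log_re, ← Real.log_inv]
    exact Real.log_le_log (by norm_num) (by norm_num at hw' ⊢; linarith)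
  have h1 := exp_G hκ hre
  rw [Complex.exp_log hw0'] at h1
  have h2 : Complex.exp (2 * Complex.log w) = w^2 := by
    rw [two_mul, Complex.exp_add, Complex.exp_log hw0, sq]
  have h3 : Complex.exp (2 * G κ (Complex.log w')) = Complex.exp (2 * Complex.log w) := by
    rw [h1, h2, hr]; ring
  obtain ⟨n, hn⟩ := Complex.exp_eq_exp_iff_exists_int.1 h3
  have hi := im_G hκ hre (by rwa [Complex.log_im])
  have hn' : G κ (Complex.log w') = Complex.log w + n * (Real.pi * Complex.I) := by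
    have : (2:ℂ) * G κ (Complex.log w') = 2 * (Complex.log w + n * (Real.pi * Complex.I)) := by
      rw [hn]; ring
    exact mul_left_cancel₀ two_ne_zero this
  have him : (G κ (Complex.log w')).im = w.arg + n * Real.pi := by
    rw [hn']; simp [Complex.log_im]
  have hn0 : n = 0 := by
    by_contra hne
    have h1n : (1:ℝ) ≤ |(n:ℝ)| := by
      rw [← Int.cast_abs]; exact_mod_cast Int.one_le_abs hne
    have e : (n:ℝ) * Real.pi = (G κ (Complex.log w')).im - w.arg := by rw [him]; ring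
    have : |(n:ℝ) * Real.pi| < Real.pi := by
      rw [e]
      calc |(G κ (Complex.log w')).im - w.arg| ≤ |(G κ (Complex.log w')).im| + |w.arg| := abs_sub _ _
        _ < Real.pi := by linarith
    rw [abs_mul, abs_of_pos Real.pi_pos] at this
    nlinarith [Real.pi_pos]
  rw [hn', hn0]; simp

/-! ## The family -/

/-- the family of slices -/
structure Fam (κ β : ℂ) (Λ R : ℝ) (W : ℤ → ℝ → ℂ) : Prop where
  hκ : ‖κ‖ < 1/4
  hβ : β^2 + κ = β
  hre : 0 < β.re
  hβ1 : 1/2 ≤ ‖β‖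
  hβ2 : ‖β‖ < 1
  hlip : ∀ k s t, ‖W k s - W k t‖ ≤ Λ * |s - t|
  hlow : ∀ k t, 1/2 ≤ ‖W k t‖
  hbd : ∀ k t, ‖W k t‖ ≤ R
  hrec : ∀ k t, W (k+1) (2*t) = W k t ^ 2 + κ

namespace Fam

variable {κ β : ℂ} {Λ R : ℝ} {W : ℤ → ℝ → ℂ}

theorem cont (h : Fam κ β Λ R W) (k : ℤ) : Continuous (W k) := by
  have : LipschitzWith (Real.toNNReal Λ) (W k) := by
    refine LipschitzWith.of_dist_le_mul fun s t => ?_
    rw [dist_eq_norm, Real.dist_eq]
    refine (h.hlip k s t).trans ?_
    exact mul_le_mul_of_nonneg_right (Real.le_coe_toNNReal Λ) (abs_nonneg _)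
  exact this.continuous

theorem ne0 (h : Fam κ β Λ R W) (k : ℤ) (t : ℝ) : W k t ≠ 0 :=
  norm_pos_iff.1 (by have := h.hlow k t; linarith)

theorem log_re_ge (h : Fam κ β Λ R W) {l : ℂ} {k : ℤ} {t : ℝ} (he : Complex.exp l = W k t) :
    -Real.log 2 ≤ l.re := by
  have h1 := h.hlow k t
  rw [← he, Complex.norm_exp] at h1
  have := Real.log_le_log (by norm_num) h1
  rwa [Real.log_exp, one_div, Real.log_inv] at this

theorem log_re_le (h : Fam κ β Λ R W) {l : ℂ} {k : ℤ} {t : ℝ} (he : Complex.exp l = W k t) :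
    l.re ≤ Real.log R := by
  have h1 := h.hbd k t
  rw [← he, Complex.norm_exp] at h1
  have := Real.log_le_log (Real.exp_pos _) h1
  rwa [Real.log_exp] at this

/-- the closeness scale -/
noncomputable def del (Λ : ℝ) : ℝ := 1 / (4 * (|Λ| + 1))

theorem del_pos : 0 < del Λ := by unfold del; positivity

theorem del_close (h : Fam κ β Λ R W) {k : ℤ} {s t : ℝ} (hst : |s - t| ≤ del Λ) :
    ∀ τ ∈ uIcc t s, ‖W k τ - W k t‖ ≤ ‖W k t‖ / 2 := by
  intro τ hτ
  have h1 : |τ - t| ≤ |s - t| := abs_sub_left_of_mem_uIcc hτ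
  have h2 := h.hlip k τ t
  have h3 := h.hlow k t
  have h4 : Λ * |τ - t| ≤ 1/4 := by
    calc Λ * |τ - t| ≤ |Λ| * |τ - t| := mul_le_mul_of_nonneg_right (le_abs_self _) (abs_nonneg _)
      _ ≤ (|Λ| + 1) * del Λ :=
        mul_le_mul (by linarith) (h1.trans hst) (abs_nonneg _) (by positivity)
      _ = 1/4 := by unfold del; field_simp
  linarith

/-- the correction term `log (1 + κ / W²)` -/
noncomputable def g (κ : ℂ) (W : ℤ → ℝ → ℂ) (k : ℤ) (t : ℝ) : ℂ :=
  Complex.log (1 + κ / (W k t)^2)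

theorem g_small (h : Fam κ β Λ R W) (k : ℤ) (t : ℝ) : ‖κ / (W k t)^2‖ < 1 := by
  have h1 := h.hlow k t
  have hp : 0 < ‖W k t‖ := by linarith
  rw [norm_div, norm_pow, div_lt_one (by positivity)]
  have := h.hκ
  nlinarith

theorem g_cont (h : Fam κ β Λ R W) (k : ℤ) : Continuous (g κ W k) := by
  unfold g
  refine Continuous.clog ?_ fun t => Complex.mem_slitPlane_of_norm_lt_one (h.g_small k t)
  have := h.cont k
  refine continuous_const.add (continuous_const.div (this.pow 2) fun t => pow_ne_zero 2 (h.ne0 k t))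

theorem g_im (h : Fam κ β Λ R W) (k : ℤ) (t : ℝ) : |(g κ W k t).im| ≤ Real.pi/2 := by
  unfold g
  rw [Complex.log_im]
  refine Complex.abs_arg_le_pi_div_two_iff.2 ?_
  have h1 := h.g_small k t
  have h2 := (abs_le.1 ((Complex.abs_re_le_norm (κ / (W k t)^2)).trans h1.le)).1
  rw [Complex.add_re, Complex.one_re]
  linarith

/-- the angle function -/
noncomputable def A (κ : ℂ) (W L : ℤ → ℝ → ℂ) (k : ℤ) (t : ℝ) : ℝ :=
  (L k t).im + ∑' i : ℕ, (g κ W (k+i) (2^i*t)).im / 2 / 2^i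

theorem term_bd (h : Fam κ β Λ R W) (k : ℤ) (t : ℝ) (i : ℕ) :
    ‖(g κ W (k+i) (2^i*t)).im / 2 / 2^i‖ ≤ Real.pi/2 / 2 / 2^i := by
  rw [norm_div, norm_div, Real.norm_eq_abs, norm_pow]
  have := h.g_im (k+i) (2^i*t)
  have e2 : ‖(2:ℝ)‖ = 2 := by norm_num
  rw [e2]
  gcongr

theorem term_summable (h : Fam κ β Λ R W) (k : ℤ) (t : ℝ) :
    Summable fun i : ℕ => (g κ W (k+i) (2^i*t)).im / 2 / 2^i :=
  Summable.of_norm_bounded (hasSum_geometric_two' (Real.pi/2)).summable (h.term_bd k t)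

theorem A_sub (h : Fam κ β Λ R W) (L : ℤ → ℝ → ℂ) (k : ℤ) (t : ℝ) :
    |A κ W L k t - (L k t).im| ≤ Real.pi/2 := by
  unfold A
  rw [add_sub_cancel_left, ← Real.norm_eq_abs]
  exact tsum_of_norm_bounded (hasSum_geometric_two' (Real.pi/2)) (h.term_bd k t)

theorem A_cont (h : Fam κ β Λ R W) {L : ℤ → ℝ → ℂ} (hL : ∀ k, Continuous (L k)) (k : ℤ) :
    Continuous (A κ W L k) := by
  unfold A
  refine (Complex.continuous_im.comp (hL k)).add ?_
  refine continuous_tsum (fun i => ?_) (hasSum_geometric_two' (Real.pi/2)).summable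
    (fun i t => h.term_bd k t i)
  refine ((Complex.continuous_im.comp ((h.g_cont (k+i)).comp ?_)).div_const 2).div_const _
  fun_prop

theorem A_rec (h : Fam κ β Λ R W) {L : ℤ → ℝ → ℂ} (hL : ∀ k, Continuous (L k))
    (he : ∀ k t, Complex.exp (L k t) = W k t) (k : ℤ) :
    ∃ n : ℤ, ∀ t, A κ W L (k+1) (2*t) = 2 * A κ W L k t + 2 * Real.pi * n := by
  have hf : Continuous fun t : ℝ => L (k+1) (2*t) := (hL (k+1)).comp (by fun_prop)
  have hg : Continuous fun t : ℝ => 2 * L k t + g κ W k t :=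
    ((hL k).const_mul 2).add (h.g_cont k)
  have hexp : ∀ t : ℝ, Complex.exp (L (k+1) (2*t)) = Complex.exp (2 * L k t + g κ W k t) := by
    intro t
    have hne : 1 + κ / (W k t)^2 ≠ 0 :=
      Complex.slitPlane_ne_zero (Complex.mem_slitPlane_of_norm_lt_one (h.g_small k t))
    have hW := h.ne0 k t
    rw [he, h.hrec, Complex.exp_add, two_mul, Complex.exp_add, he]
    unfold g
    rw [Complex.exp_log hne]
    field_simp
  obtain ⟨n, hn⟩ := Complex.exp_eq_exp_iff_exists_int.1 (hexp 0)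
  refine ⟨n, fun t => ?_⟩
  have hu := exp_lift_unique hf hg hexp t 0
  have h0 : L (k+1) (2*t) = 2 * L k t + g κ W k t + n * (2 * Real.pi * Complex.I) := by
    linear_combination hu + hn
  have him : (L (k+1) (2*t)).im = 2 * (L k t).im + (g κ W k t).im + 2 * Real.pi * n := by
    rw [h0]; simp; ring
  unfold A
  rw [him, (h.term_summable k t).tsum_eq_zero_add]
  have e0 : ∀ i : ℕ, (g κ W (k + ((i+1 : ℕ):ℤ)) (2^(i+1)*t)).im / 2 / 2^(i+1)
      = (g κ W (k+1+i) (2^i*(2*t))).im / 2 / 2^i / 2 := by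
    intro i
    have e1 : k + ((i+1 : ℕ):ℤ) = k + 1 + i := by push_cast; ring
    have e2 : (2:ℝ)^(i+1)*t = 2^i*(2*t) := by ring
    rw [e1, e2, pow_succ]; field_simp
  simp_rw [e0]
  rw [tsum_div_const]
  simp
  ring

/-- if the angle is a multiple of `2π`, the value is the fixed point -/
theorem arg_le (h : Fam κ β Λ R W) {L : ℤ → ℝ → ℂ} (he : ∀ k t, Complex.exp (L k t) = W k t)
    {k : ℤ} {t : ℝ} (hA : ∃ n : ℤ, A κ W L k t = 2 * Real.pi * n) : |(W k t).arg| ≤ Real.pi/2 := by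
  obtain ⟨n, hn⟩ := hA
  have h1 := h.A_sub L k t
  rw [hn, abs_sub_comm] at h1
  set l : ℂ := L k t - n * (2 * Real.pi * Complex.I) with hl
  have hle : Complex.exp l = W k t := by
    rw [hl, ← he k t]
    refine Complex.exp_eq_exp_iff_exists_int.2 ⟨-n, ?_⟩
    push_cast; ring
  have him : l.im = (L k t).im - 2 * Real.pi * n := by
    rw [hl]; simp; ring
  rw [← him] at h1
  have h2 := abs_le.1 h1
  have hlog : Complex.log (W k t) = l := by
    rw [← hle]
    exact Complex.log_exp (by linarith [Real.pi_pos]) (by linarith [Real.pi_pos])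
  rw [← Complex.log_im, hlog]
  exact h1

theorem hit (h : Fam κ β Λ R W) {L : ℤ → ℝ → ℂ} (hL : ∀ k, Continuous (L k))
    (he : ∀ k t, Complex.exp (L k t) = W k t) {k : ℤ} {t : ℝ}
    (hA : ∃ n : ℤ, A κ W L k t = 2 * Real.pi * n) (i : ℕ) :
    ∃ n : ℤ, A κ W L (k+i) (2^i*t) = 2 * Real.pi * n := by
  induction i with
  | zero => simpa using hA
  | succ i ih =>
    obtain ⟨n, hn⟩ := ih
    obtain ⟨n', hn'⟩ := h.A_rec hL he (k+i)
    refine ⟨2*n + n', ?_⟩
    have e1 : k + ((i+1 : ℕ):ℤ) = k + i + 1 := by push_cast; ring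
    have e2 : (2:ℝ)^(i+1)*t = 2*(2^i*t) := by ring
    rw [e1, e2, hn', hn]; push_cast; ring

theorem log_bd (h : Fam κ β Λ R W) (k : ℤ) (t : ℝ) :
    ‖Complex.log (W k t)‖ ≤ Real.log 2 + |Real.log R| + Real.pi := by
  have he : Complex.exp (Complex.log (W k t)) = W k t := Complex.exp_log (h.ne0 k t)
  have h1 := h.log_re_ge he
  have h2 := h.log_re_le he
  have h3 : |(Complex.log (W k t)).re| ≤ Real.log 2 + |Real.log R| := by
    rw [abs_le]
    have := le_abs_self (Real.log R)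
    have := abs_nonneg (Real.log R)
    have : 0 ≤ Real.log 2 := Real.log_nonneg (by norm_num)
    constructor <;> linarith
  have h4 : |(Complex.log (W k t)).im| ≤ Real.pi := by
    rw [Complex.log_im]; exact Complex.abs_arg_le_pi _
  have := Complex.norm_le_abs_re_add_abs_im (Complex.log (W k t))
  linarith

theorem q_lt (h : Fam κ β Λ R W) : 0 ≤ 1 / (2 * (1 - 2 * ‖κ‖)) ∧ 1 / (2 * (1 - 2 * ‖κ‖)) < 1 := by
  have := h.hκ
  constructor
  · apply div_nonneg zero_le_one; linarith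
  · rw [div_lt_one (by linarith)]; linarith

theorem eq_of_geom {q C x : ℝ} (hq0 : 0 ≤ q) (hq : q < 1) (hx : 0 ≤ x)
    (h : ∀ i : ℕ, x ≤ q^i * C) : x = 0 := by
  have ht : Filter.Tendsto (fun i : ℕ => q^i * C) Filter.atTop (nhds (0 * C)) :=
    (tendsto_pow_atTop_nhds_zero_of_lt_one hq0 hq).mul_const C
  rw [zero_mul] at ht
  exact le_antisymm (ge_of_tendsto' ht h) hx

/-- Step 3 -/
theorem eq_fix (h : Fam κ β Λ R W) {L : ℤ → ℝ → ℂ} (hL : ∀ k, Continuous (L k))
    (he : ∀ k t, Complex.exp (L k t) = W k t) {k : ℤ} {t : ℝ}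
    (hA : ∃ n : ℤ, A κ W L k t = 2 * Real.pi * n) : W k t = β := by
  set q : ℝ := 1 / (2 * (1 - 2 * ‖κ‖)) with hq
  obtain ⟨hq0, hq1⟩ := h.q_lt
  have hβ0 : β ≠ 0 := norm_pos_iff.1 (by have := h.hβ1; linarith)
  have hβarg : |β.arg| ≤ Real.pi/2 := Complex.abs_arg_le_pi_div_two_iff.2 h.hre.le
  have hβG : Complex.log β = G κ (Complex.log β) :=
    log_eq_G h.hκ h.hβ1 h.hβ1 hβarg hβarg h.hβ.symm
  have hβre : -Real.log 2 ≤ (Complex.log β).re := by
    rw [Complex.log_re, ← Real.log_inv]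
    exact Real.log_le_log (by norm_num) (by have := h.hβ1; norm_num at this ⊢; linarith)
  set l : ℕ → ℂ := fun i => Complex.log (W (k+i) (2^i*t)) with hl
  have harg : ∀ i : ℕ, |(W (k+i) (2^i*t)).arg| ≤ Real.pi/2 := fun i =>
    h.arg_le he (h.hit hL he hA i)
  have hstep : ∀ i : ℕ, ‖l i - Complex.log β‖ ≤ q * ‖l (i+1) - Complex.log β‖ := by
    intro i
    have e1 : k + ((i+1 : ℕ):ℤ) = k + i + 1 := by push_cast; ring
    have e2 : (2:ℝ)^(i+1)*t = 2*(2^i*t) := by ring
    have hr : W (k+((i+1 : ℕ):ℤ)) (2^(i+1)*t) = W (k+i) (2^i*t)^2 + κ := by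
      rw [e1, e2, h.hrec]
    have hG := log_eq_G h.hκ (h.hlow _ _) (h.hlow _ _) (harg i) (harg (i+1)) hr
    have hre' : -Real.log 2 ≤ (l (i+1)).re := h.log_re_ge (Complex.exp_log (h.ne0 _ _))
    have := lip_G h.hκ hre' hβre
    rw [← hβG] at this
    rw [← hG] at this
    exact this
  have hpow : ∀ i : ℕ, ‖l 0 - Complex.log β‖ ≤ q^i * ‖l i - Complex.log β‖ := by
    intro i
    induction i with
    | zero => simp
    | succ i ih =>
      refine ih.trans ?_
      rw [pow_succ, mul_assoc]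
      exact mul_le_mul_of_nonneg_left (hstep i) (pow_nonneg hq0 i)
  have h0 : ‖l 0 - Complex.log β‖ = 0 := by
    refine eq_of_geom hq0 hq1 (norm_nonneg _)
      (C := Real.log 2 + |Real.log R| + Real.pi + ‖Complex.log β‖) fun i => ?_
    refine (hpow i).trans (mul_le_mul_of_nonneg_left ?_ (pow_nonneg hq0 i))
    refine (norm_sub_le _ _).trans ?_
    have := h.log_bd (k+i) (2^i*t)
    simp only [hl]
    linarith
  have h1 : l 0 = Complex.log β := by rwa [norm_eq_zero, sub_eq_zero] at h0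
  have h2 : Complex.exp (l 0) = β := by rw [h1, Complex.exp_log hβ0]
  simpa [hl, Complex.exp_log (h.ne0 k t)] using h2

/-- Step 4: near the forward orbit of such a point the functions flatten -/
theorem flatten (h : Fam κ β Λ R W) {ε T : ℝ} (hε : 0 < ε) :
    ∃ j0 : ℕ, ∀ (m : ℤ) (x : ℝ), (∀ i : ℕ, W (m+i) (2^i*x) = β) →
      ∀ j ≥ j0, ∀ y : ℝ, |y| ≤ T → ‖W (m+j) (2^j*x+y) - β‖ ≤ ε := by
  set ρ : ℝ := ‖β‖ with hρ
  have hρ1 : ρ < 1 := h.hβ2
  have hρ0 : 0 ≤ ρ := norm_nonneg _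
  set δ : ℝ := (1 - ρ) / (|Λ| + 1) with hδ
  have hδ0 : 0 < δ := div_pos (by linarith) (by positivity)
  have hΛδ : |Λ| * δ ≤ 1 - ρ := by
    have : (|Λ| + 1) * δ = 1 - ρ := by rw [hδ]; field_simp
    nlinarith [abs_nonneg Λ]
  set r : ℝ := (1 + ρ) / 2 with hr
  have hr0 : 0 ≤ r := by rw [hr]; linarith
  have hr1 : r < 1 := by rw [hr]; linarith
  have hR : 0 ≤ R := (norm_nonneg _).trans (h.hbd 0 0)
  set C : ℝ := 2 + (R + 1) with hC
  have hC0 : 0 ≤ C := by rw [hC]; linarith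
  obtain ⟨p, hp⟩ : ∃ p : ℕ, T ≤ 2^p * (2*δ) := by
    obtain ⟨p, hp⟩ := pow_unbounded_of_one_lt (T / (2*δ)) (one_lt_two (α := ℝ))
    exact ⟨p, by rw [div_lt_iff₀ (by positivity)] at hp; exact hp.le⟩
  obtain ⟨i0, hi0⟩ : ∃ i0 : ℕ, ∀ i ≥ i0, C^p * (|Λ| * r^i * (2*δ)) ≤ ε := by
    have ht : Filter.Tendsto (fun i : ℕ => C^p * (|Λ| * r^i * (2*δ))) Filter.atTop
        (nhds (C^p * (|Λ| * 0 * (2*δ)))) :=
      (((tendsto_pow_atTop_nhds_zero_of_lt_one hr0 hr1).const_mul |Λ|).mul_const (2*δ)).const_mul _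
    rw [mul_zero, zero_mul, mul_zero] at ht
    obtain ⟨i0, h0⟩ := Filter.eventually_atTop.1 (ht.eventually (gt_mem_nhds hε))
    exact ⟨i0, fun i hi => (h0 i hi).le⟩
  refine ⟨i0 + p, fun m x hx => ?_⟩
  -- the error function
  have hlip : ∀ (i : ℕ) (y : ℝ), ‖W (m+i) (2^i*x+y) - β‖ ≤ |Λ| * |y| := by
    intro i y
    have := h.hlip (m+i) (2^i*x+y) (2^i*x)
    rw [hx i] at this
    refine this.trans ?_
    have e : 2^i*x+y - 2^i*x = y := by ring
    rw [e]
    exact mul_le_mul_of_nonneg_right (le_abs_self _) (abs_nonneg _)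
  have hrec : ∀ (i : ℕ) (y : ℝ), ‖W (m+((i+1:ℕ):ℤ)) (2^(i+1)*x+2*y) - β‖
      = ‖W (m+i) (2^i*x+y) - β‖ * ‖W (m+i) (2^i*x+y) + β‖ := by
    intro i y
    have e1 : m + ((i+1 : ℕ):ℤ) = m + i + 1 := by push_cast; ring
    have e2 : (2:ℝ)^(i+1)*x+2*y = 2*(2^i*x+y) := by ring
    rw [e1, e2, h.hrec, ← norm_mul]
    congr 1
    linear_combination h.hβ
  have hplus : ∀ (i : ℕ) (y : ℝ), ‖W (m+i) (2^i*x+y) + β‖ ≤ 2*ρ + ‖W (m+i) (2^i*x+y) - β‖ := by
    intro i y
    have e : W (m+i) (2^i*x+y) + β = (W (m+i) (2^i*x+y) - β) + 2*β := by ring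
    rw [e]
    refine (norm_add_le _ _).trans ?_
    rw [norm_mul, Complex.norm_ofNat]
    linarith
  have hsmall : ∀ (i : ℕ) (y : ℝ), |y| ≤ 2*δ → ‖W (m+i) (2^i*x+y) - β‖ ≤ |Λ| * r^i * |y| := by
    intro i
    induction i with
    | zero =>
      intro y _
      simpa using hlip 0 y
    | succ i ih =>
      intro y hy
      have hy2 : |y/2| ≤ δ := by rw [abs_div, abs_of_pos (by norm_num : (0:ℝ) < 2)]; linarith
      have e := hrec i (y/2)
      have e2 : 2*(y/2) = y := by ring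
      rw [e2] at e
      rw [e]
      have h1 := ih (y/2) (by linarith)
      have h2 : ‖W (m+i) (2^i*x+y/2) + β‖ ≤ 2*r := by
        refine (hplus i (y/2)).trans ?_
        have h3 := hlip i (y/2)
        have h4 : |Λ| * |y/2| ≤ |Λ| * δ := mul_le_mul_of_nonneg_left hy2 (abs_nonneg _)
        rw [hr]; linarith
      calc ‖W (m+i) (2^i*x+y/2) - β‖ * ‖W (m+i) (2^i*x+y/2) + β‖
          ≤ (|Λ| * r^i * |y/2|) * (2*r) :=
            mul_le_mul h1 h2 (norm_nonneg _) (by positivity)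
        _ = |Λ| * r^(i+1) * |y| := by
            rw [abs_div, abs_of_pos (by norm_num : (0:ℝ) < 2)]; ring
  have hbig : ∀ (p' i : ℕ) (y : ℝ), |y| ≤ 2^p' * (2*δ) →
      ‖W (m+((i+p':ℕ):ℤ)) (2^(i+p')*x+y) - β‖ ≤ C^p' * (|Λ| * r^i * (2*δ)) := by
    intro p' i
    induction p' with
    | zero =>
      intro y hy
      have h1 := hsmall i y (by simpa using hy)
      have h2 : |Λ| * r^i * |y| ≤ |Λ| * r^i * (2*δ) :=
        mul_le_mul_of_nonneg_left (by simpa using hy) (by positivity)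
      simpa using h1.trans h2
    | succ p' ih =>
      intro y hy
      have hy2 : |y/2| ≤ 2^p' * (2*δ) := by
        rw [abs_div, abs_of_pos (by norm_num : (0:ℝ) < 2)]
        rw [pow_succ] at hy; linarith
      have e := hrec (i+p') (y/2)
      have e2 : 2*(y/2) = y := by ring
      rw [e2] at e
      rw [← add_assoc, e]
      have h1 := ih (y/2) hy2
      have h2 : ‖W (m+((i+p':ℕ):ℤ)) (2^(i+p')*x+y/2) + β‖ ≤ C := by
        refine (norm_add_le _ _).trans ?_
        have := h.hbd (m+((i+p':ℕ):ℤ)) (2^(i+p')*x+y/2)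
        rw [hC]; linarith
      calc _ ≤ (C^p' * (|Λ| * r^i * (2*δ))) * C := mul_le_mul h1 h2 (norm_nonneg _) (by positivity)
        _ = _ := by rw [pow_succ]; ring
  intro j hj y hy
  obtain ⟨i, rfl⟩ : ∃ i, j = i + p := ⟨j - p, by omega⟩
  exact (hbig p i y (hy.trans hp)).trans (hi0 i (by omega))

theorem A_diff_bd (h : Fam κ β Λ R W) (L : ℤ → ℝ → ℂ) (k : ℤ) {s t : ℝ}
    (hl : ‖L k s - L k t‖ ≤ 3/4) : |A κ W L k s - A κ W L k t| ≤ 5 := by
  have h1 := h.A_sub L k s
  have h2 := h.A_sub L k t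
  have h3 := (Complex.abs_im_le_norm (L k s - L k t)).trans hl
  rw [Complex.sub_im] at h3
  have e : A κ W L k s - A κ W L k t = (A κ W L k s - (L k s).im) - (A κ W L k t - (L k t).im)
      + ((L k s).im - (L k t).im) := by ring
  rw [e]
  have h4 := abs_add_le ((A κ W L k s - (L k s).im) - (A κ W L k t - (L k t).im))
    ((L k s).im - (L k t).im)
  have h5 := abs_sub (A κ W L k s - (L k s).im) (A κ W L k t - (L k t).im)
  have := Real.pi_lt_four
  linarith

/-- the angle function is Lipschitz, uniformly -/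
theorem A_lip (h : Fam κ β Λ R W) {L : ℤ → ℝ → ℂ} (hL : ∀ k, Continuous (L k))
    (he : ∀ k t, Complex.exp (L k t) = W k t)
    (h2 : ∀ k s t, A κ W L (k+1) (2*s) - A κ W L (k+1) (2*t) = 2*(A κ W L k s - A κ W L k t))
    (k : ℤ) (s t : ℝ) : |A κ W L k s - A κ W L k t| ≤ (10 / del Λ) * |s - t| := by
  have hd : 0 < del Λ := del_pos
  rcases eq_or_ne s t with rfl | hst
  · simp
  have hpos : 0 < |s - t| := abs_pos.2 (sub_ne_zero.2 hst)
  obtain ⟨n, hn1, hn2⟩ := exists_mem_Ioc_zpow (div_pos hpos hd) (show (1:ℝ) < 2 by norm_num)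
  rw [lt_div_iff₀ hd] at hn1
  rw [div_le_iff₀ hd] at hn2
  have hz : (0:ℝ) < 2^(-(n+1)) := by positivity
  have hz2 : (2:ℝ)^(-(n+1)) * 2^(n+1) = 1 := by
    rw [← zpow_add₀ (by norm_num)]; simp
  have hz3 : (2:ℝ)^(n+1) * 2^(-(n+1)) = 1 := by rw [mul_comm]; exact hz2
  have hclose : |2^(-(n+1)) * s - 2^(-(n+1)) * t| ≤ del Λ := by
    rw [← mul_sub, abs_mul, abs_of_pos hz]
    have := mul_le_mul_of_nonneg_left hn2 hz.le
    rwa [← mul_assoc, hz2, one_mul] at this
  have hl := lift_diff (h.cont (k + -(n+1))) (hL _) (he _) (h.del_close (k := k + -(n+1)) hclose)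
  have hA := h.A_diff_bd L _ hl
  have e := scale_zpow h2 (-(n+1)) k s t
  rw [e, abs_mul, abs_of_pos hz] at hA
  have h3 := mul_le_mul_of_nonneg_left hA (show (0:ℝ) ≤ 2^(n+1) by positivity)
  rw [← mul_assoc, hz3, one_mul] at h3
  have h4 : (2:ℝ)^(n+1) = 2 * 2^n := by rw [zpow_add₀ (by norm_num)]; ring
  refine h3.trans ?_
  have h5 : (2:ℝ)^n ≤ |s - t| / del Λ := by rw [le_div_iff₀ hd]; exact hn1.le
  have e6 : (10 / del Λ) * |s - t| = 10 * (|s - t| / del Λ) := by ring
  rw [h4, e6]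
  linarith

/-- the flattening of the angle function near a point where it is a multiple of `2π` -/
theorem A_flat (h : Fam κ β Λ R W) {L : ℤ → ℝ → ℂ} (hL : ∀ k, Continuous (L k))
    (he : ∀ k t, Complex.exp (L k t) = W k t)
    (h2 : ∀ k s t, A κ W L (k+1) (2*s) - A κ W L (k+1) (2*t) = 2*(A κ W L k s - A κ W L k t))
    {ε : ℝ} (hε : 0 < ε) :
    ∃ j : ℕ, ∀ (m : ℤ) (x : ℝ), (∃ n : ℤ, A κ W L m x = 2 * Real.pi * n) →
      |A κ W L (m+j) (2^j*x+1) - A κ W L (m+j) (2^j*x)| ≤ ε := by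
  obtain ⟨I, hI⟩ : ∃ I : ℕ, 5 / ε ≤ (2:ℝ)^I := by
    obtain ⟨I, hI⟩ := pow_unbounded_of_one_lt (5/ε) (one_lt_two (α := ℝ))
    exact ⟨I, hI.le⟩
  rw [div_le_iff₀ hε] at hI
  obtain ⟨j0, hj0⟩ := h.flatten (ε := 1/8) (T := 2^I) (by norm_num)
  refine ⟨j0, fun m x hA => ?_⟩
  have hfix : ∀ i : ℕ, W (m+i) (2^i*x) = β := fun i => h.eq_fix hL he (h.hit hL he hA i)
  have hnear := hj0 m x hfix (j0+I) (by omega)
  set k' : ℤ := m + ((j0+I : ℕ) : ℤ) with hk'
  set a : ℝ := 2^(j0+I)*x with ha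
  have hI0 : (0:ℝ) ≤ 2^I := by positivity
  have hclose : ∀ τ ∈ uIcc a (a + 2^I), ‖W k' τ - W k' a‖ ≤ ‖W k' a‖ / 2 := by
    intro τ hτ
    rw [uIcc_of_le (by linarith)] at hτ
    have h1 := hnear (τ - a) (by rw [abs_of_nonneg (by linarith [hτ.1])]; linarith [hτ.2])
    have h3 := hnear 0 (by simp)
    rw [add_sub_cancel] at h1
    rw [add_zero] at h3
    have h4 := h.hlow k' a
    have h5 : W k' τ - W k' a = (W k' τ - β) - (W k' a - β) := by ring
    rw [h5]
    have := norm_sub_le (W k' τ - β) (W k' a - β)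
    linarith
  have hl := lift_diff (h.cont k') (hL _) (he _) hclose
  have hA5 := h.A_diff_bd L _ hl
  have e := scale_nat h2 I (m+j0) (2^j0*x+1) (2^j0*x)
  have e1 : m + (j0:ℤ) + I = k' := by rw [hk']; push_cast; ring
  have e2 : (2:ℝ)^I*(2^j0*x+1) = a + 2^I := by rw [ha, pow_add]; ring
  have e3 : (2:ℝ)^I*(2^j0*x) = a := by rw [ha, pow_add]; ring
  rw [e1, e2, e3] at e
  rw [e, abs_mul, abs_of_pos (show (0:ℝ) < 2^I by positivity)] at hA5
  have hp : (0:ℝ) < 2^I := by positivity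
  by_contra hcon
  push Not at hcon
  have := mul_lt_mul_of_pos_left hcon hp
  linarith

/-- **Rigidity at base 1/3.** -/
theorem rigid (h : Fam κ β Λ R W) (k : ℤ) (t : ℝ) : W k t = W k 0 := by
  choose L hL he using fun k => exists_lift (h.cont k) (h.ne0 k)
  have h2 : ∀ k s t, A κ W L (k+1) (2*s) - A κ W L (k+1) (2*t)
      = 2*(A κ W L k s - A κ W L k t) := by
    intro k s t
    obtain ⟨n, hn⟩ := h.A_rec hL he k
    rw [hn, hn]; ring
  have hconst := angle_const (fun k => h.A_cont hL k) h2 (h.A_lip hL he h2)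
    (fun ε hε => h.A_flat hL he h2 hε)
  set q : ℝ := 1 / (2 * (1 - 2 * ‖κ‖)) with hq
  obtain ⟨hq0, hq1⟩ := h.q_lt
  -- all the logarithms have bounded oscillation
  set C : ℝ := Real.pi + 2 * (Real.log 2 + |Real.log R|) with hC
  have hosc : ∀ k s t, ‖L k s - L k t‖ ≤ C := by
    intro k s t
    have h1 := h.A_sub L k s
    have h3 := h.A_sub L k t
    rw [hconst k s t] at h1
    have him : |(L k s - L k t).im| ≤ Real.pi := by
      rw [Complex.sub_im]
      have e : (L k s).im - (L k t).im = (A κ W L k t - (L k t).im) - (A κ W L k t - (L k s).im) := by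
        ring
      rw [e]
      have := abs_sub (A κ W L k t - (L k t).im) (A κ W L k t - (L k s).im)
      linarith
    have hb : ∀ u, |(L k u).re| ≤ Real.log 2 + |Real.log R| := by
      intro u
      have h5 := h.log_re_ge (he k u)
      have h6 := h.log_re_le (he k u)
      rw [abs_le]
      have := le_abs_self (Real.log R)
      have := abs_nonneg (Real.log R)
      have : 0 ≤ Real.log 2 := Real.log_nonneg (by norm_num)
      constructor <;> linarith
    have hre : |(L k s - L k t).re| ≤ 2 * (Real.log 2 + |Real.log R|) := by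
      rw [Complex.sub_re]
      have := abs_sub (L k s).re (L k t).re
      linarith [hb s, hb t]
    have := Complex.norm_le_abs_re_add_abs_im (L k s - L k t)
    rw [hC]; linarith
  -- the inverse branches contract
  have hb : ∀ k s t, ‖L k s - L k t‖ ≤ q * ‖L (k+1) (2*s) - L (k+1) (2*t)‖ := by
    intro k s t
    have hre : ∀ u, -Real.log 2 ≤ (L (k+1) (2*u)).re := fun u => h.log_re_ge (he (k+1) (2*u))
    have hGc : Continuous fun u : ℝ => 2 * G κ (L (k+1) (2*u)) := by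
      have hc : Continuous fun u : ℝ => L (k+1) (2*u) := (hL (k+1)).comp (by fun_prop)
      unfold G
      refine continuous_const.mul (continuous_const.mul (hc.add (Continuous.clog ?_ ?_)))
      · exact continuous_const.sub (continuous_const.mul (Complex.continuous_exp.comp hc.neg))
      · exact fun u => slit_term h.hκ (hre u)
    have hLc : Continuous fun u : ℝ => 2 * L k u := continuous_const.mul (hL k)
    have hu := exp_lift_unique hLc hGc (fun u => by
      rw [exp_G h.hκ (hre u), he, h.hrec, two_mul, Complex.exp_add, he]; ring) s t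
    have e : L k s - L k t = G κ (L (k+1) (2*s)) - G κ (L (k+1) (2*t)) := by
      have : (2:ℂ) * (L k s - L k t) = 2 * (G κ (L (k+1) (2*s)) - G κ (L (k+1) (2*t))) := by
        linear_combination hu
      exact mul_left_cancel₀ two_ne_zero this
    rw [e]
    exact lip_G h.hκ (hre s) (hre t)
  have hpow : ∀ (i : ℕ) (s t : ℝ), ‖L k s - L k t‖
      ≤ q^i * ‖L (k+i) (2^i*s) - L (k+i) (2^i*t)‖ := by
    intro i s t
    induction i with
    | zero => simp
    | succ i ih =>
      refine ih.trans ?_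
      rw [pow_succ, mul_assoc]
      refine mul_le_mul_of_nonneg_left ?_ (pow_nonneg hq0 i)
      have e1 : k + ((i+1 : ℕ):ℤ) = k + i + 1 := by push_cast; ring
      have e2 : ∀ u : ℝ, (2:ℝ)^(i+1)*u = 2*(2^i*u) := fun u => by ring
      rw [e1, e2, e2]
      exact hb (k+i) (2^i*s) (2^i*t)
  have h0 : ‖L k t - L k 0‖ = 0 := by
    refine eq_of_geom hq0 hq1 (norm_nonneg _) (C := C) fun i => ?_
    exact (hpow i t 0).trans (mul_le_mul_of_nonneg_left (hosc _ _ _) (pow_nonneg hq0 i))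
  rw [norm_eq_zero, sub_eq_zero] at h0
  rw [← he k t, ← he k 0, h0]

end Fam

/-- The same statement in the coordinate `Z = 2 W - 1`: at base `1/3` one step is
`Z ↦ Z - (ε² - Z²)/2`, and a point with `‖Z + 1‖ < 1` is trapped. -/
theorem rigid_Z {ε : ℂ} (hε1 : ‖1 - ε^2‖ < 1) (hε2 : 0 ≤ ε.re) (hε3 : ‖1 + ε‖ < 2)
    {Z : ℤ → ℝ → ℂ} {Λ R : ℝ}
    (hlip : ∀ k s t, ‖Z k s - Z k t‖ ≤ Λ * |s - t|)
    (hlow : ∀ k t, 1 ≤ ‖Z k t + 1‖) (hbd : ∀ k t, ‖Z k t‖ ≤ R)
    (hrec : ∀ k t, Z (k+1) (2*t) = Z k t - (ε^2 - (Z k t)^2)/2) (k : ℤ) (t : ℝ) :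
    Z k t = Z k 0 := by
  have h : Fam ((1 - ε^2)/4) ((1 + ε)/2) (Λ/2) ((R+1)/2) (fun k t => (Z k t + 1)/2) := by
    refine ⟨?_, by ring, ?_, ?_, ?_, ?_, ?_, ?_, ?_⟩
    · rw [norm_div]; norm_num; linarith
    · simp only [Complex.div_ofNat_re, Complex.add_re, Complex.one_re]; linarith
    · rw [norm_div]; norm_num
      have := Complex.re_le_norm (1 + ε)
      rw [Complex.add_re, Complex.one_re] at this
      linarith
    · rw [norm_div]; norm_num; linarith
    · intro k s t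
      have e : (Z k s + 1)/2 - (Z k t + 1)/2 = (Z k s - Z k t)/2 := by ring
      rw [e, norm_div]; norm_num
      have := hlip k s t
      linarith
    · intro k t
      rw [norm_div]; norm_num
      linarith [hlow k t]
    · intro k t
      rw [norm_div]; norm_num
      have := norm_add_le (Z k t) 1
      rw [norm_one] at this
      linarith [hbd k t]
    · intro k t
      rw [hrec]; ring
  have := h.rigid k t
  linear_combination 2 * this

end Q25
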