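import Pool.Agent.W_4481e3_q25.TreeSnd
import Pool.Agent.W_4481e3_q12.Contr
import Pool.Agent.W_4481e3_h6.Sit
import Pool.Agent.W_4481e3_q46.Cover

/-!
Kill certificate, format RT: rows, octaves, the root.
-/

namespace Pool.Agent.W_4481e3_q25.EvR

open Complex
open Pool.Agent.W_4481e3_q42 (Alive Adm aa ww cc dd orb)
open Pool.Agent.W_4481e3_q12 (Good zz zz_add)
open Pool.Agent.W_4481e3_q12.Ev (cph)
open Pool.Agent.W_MP_4481e3_an.Ev (pt)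
open Pool.Agent.W_4481e3_q42.Ev (cf k0)
open Pool.Agent.W_4481e3_h6 (Sit ph)

/-! ### states of a row and of an octave -/

/-- the scaled states of a row -/
def Sta (K TAU A1 A2 : ℕ) (E W a' : ℂ) : Prop :=
  ∃ ε w a : ℂ, Situ K TAU A1 A2 ε w a ∧ E = 16777216 * ε ^ 2 ∧ W = 16777216 * w ∧ a' = 16384 * a

/-- the scaled states of an octave: the two rows `(K1, [A1, Am])`, `(K2, [Am, A2])` -/
def Oct (K1 K2 TAU A1 Am A2 : ℕ) (E W a' : ℂ) : Prop :=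
  Sta K1 TAU A1 Am E W a' ∨ Sta K2 TAU Am A2 E W a'

lemma CovS.of_cov {K TAU A1 A2 X Hx Y Hy A B px py F G P Q qx qy : ℕ}
    (h : Cov K TAU A1 A2 X Hx Y Hy A B px py F G P Q qx qy) :
    CovS (Sta K TAU A1 A2) X Hx Y Hy A B px py F G P Q qx qy := by
  rintro _ _ _ ⟨ε, w, a, hs, rfl, rfl, rfl⟩ hc
  exact h ε w a hs hc

lemma Cov.of_covS {K TAU A1 A2 X Hx Y Hy A B px py F G P Q qx qy : ℕ}
    (h : CovS (Sta K TAU A1 A2) X Hx Y Hy A B px py F G P Q qx qy) :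
    Cov K TAU A1 A2 X Hx Y Hy A B px py F G P Q qx qy := fun ε w a hs hc =>
  h _ _ _ ⟨ε, w, a, hs, rfl, rfl, rfl⟩ hc

lemma Situ.mono {K TAU A1 A2 K' A1' A2' : ℕ} {ε w a : ℂ} (h : Situ K TAU A1 A2 ε w a) (hK : K ≤ K')
    (h1 : A1' ≤ A1) (h2 : A2 ≤ A2') : Situ K' TAU A1' A2' ε w a := by
  refine ⟨h.adm, h.reg, h.alive, ?_, ?_, h.four, fun s hs => ?_⟩
  · have : (A1' : ℝ) ≤ A1 := by exact_mod_cast h1
    exact this.trans h.lo
  · have : (A2 : ℝ) ≤ A2' := by exact_mod_cast h2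
    exact h.hi.trans this
  · obtain ⟨Z, hZ, hA⟩ := h.test s hs
    refine ⟨Z, hZ.trans ?_, hA⟩
    have : (K : ℝ) ≤ K' := by exact_mod_cast hK
    have hs2 := sq_nonneg s
    nlinarith

lemma Sta.rg {K TAU A1 A2 : ℕ} : RgS (Sta K TAU A1 A2) := by
  rintro _ _ _ ⟨ε, w, a, hs, rfl, rfl, rfl⟩
  have e16 : ‖(16777216 : ℂ)‖ = 16777216 := by norm_num
  have h1 : ‖ε ^ 2‖ < 1 / 4 := by
    rw [norm_pow]
    have := hs.adm.lt_half
    nlinarith [norm_nonneg ε]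
  have h2 : (16777216 * ε ^ 2 : ℂ).re = 16777216 * (ε ^ 2).re := by
    have : (16777216 : ℂ) = ((16777216 : ℝ) : ℂ) := by norm_num
    rw [this, Complex.re_ofReal_mul]
  rw [norm_mul, e16, h2]
  have h3 := hs.reg
  constructor
  · linarith
  · nlinarith

lemma Oct.rg {K1 K2 TAU A1 Am A2 : ℕ} : RgS (Oct K1 K2 TAU A1 Am A2) := by
  intro E W a h
  rcases h with h | h
  · exact Sta.rg E W a h
  · exact Sta.rg E W a h

lemma Oct.sta {K1 K2 TAU A1 Am A2 : ℕ} (hK : K1 ≤ K2) (h1 : A1 ≤ Am) (h2 : Am ≤ A2) {E W a' : ℂ}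
    (h : Oct K1 K2 TAU A1 Am A2 E W a') : Sta K2 TAU A1 A2 E W a' := by
  rcases h with ⟨ε, w, a, hs, e⟩ | ⟨ε, w, a, hs, e⟩
  · exact ⟨ε, w, a, hs.mono hK le_rfl h2, e⟩
  · exact ⟨ε, w, a, hs.mono le_rfl h1 le_rfl, e⟩

/-! ### the leaves -/

lemma lf_ok {tp0 tp3 : TF} {gs : ℕ → CF Bool} {T K TAU A1 A2 : ℕ} (h0 : Tp0OK tp0) (h3 : Tp3OK tp3)
    (hg : GsOK K TAU A1 A2 gs) (hA2 : A2 ≤ 16500000) (hT : TabOK T) (m : ℕ) :
    FnOK (Sta K TAU A1 A2) (lf tp0 tp3 gs T K TAU m) := by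
  intro X Hx Y Hy A B px py F G P Q qx qy n h
  unfold lf at h
  generalize Nat.ble 12 m = b at h
  cases b with
  | false =>
    obtain ⟨h1, h2⟩ := rec_ne h
    exact ⟨h2, CovS.of_cov (hg m _ _ _ _ _ _ _ _ _ _ _ _ _ _ h1)⟩
  | true =>
    obtain ⟨h1, h2⟩ := rec_ne h
    exact ⟨shr_ne h2, CovS.of_cov (lt_sound h0 h3 hA2 hT h1)⟩

lemma FnOK.anti {S S' : ℂ → ℂ → ℂ → Prop} {g : CF (ℕ → ℕ)} (h : FnOK S g)
    (hS : ∀ E W a, S' E W a → S E W a) : FnOK S' g := by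
  intro X Hx Y Hy A B px py F G P Q qx qy n hn
  obtain ⟨h1, h2⟩ := h _ _ _ _ _ _ _ _ _ _ _ _ _ _ _ hn
  exact ⟨h1, fun E W a hs hc => h2 E W a (hS E W a hs) hc⟩

/-! ### the trees -/

/-- tree of one row -/
noncomputable def tR (tp0 tp3 : TF) (gs : ℕ → ℕ → ℕ → CF Bool) (T K TAU A1 A2 d : ℕ) : CF (ℕ → ℕ) :=
  go gf gf (lf tp0 tp3 (gs A1 A2) T K TAU) d

/-- tree of an octave -/
noncomputable def tO (tp0 tp3 : TF) (gs : ℕ → ℕ → ℕ → CF Bool) (T K1 K2 TAU A1 Am A2 d : ℕ) :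
    CF (ℕ → ℕ) :=
  go (tR tp0 tp3 gs T K1 TAU A1 Am d) (tR tp0 tp3 gs T K2 TAU Am A2 d)
    (lf tp0 tp3 (gs A1 A2) T K2 TAU) d

theorem tR_ok {tp0 tp3 : TF} {gs : ℕ → ℕ → ℕ → CF Bool} {T K TAU A1 A2 : ℕ} (h0 : Tp0OK tp0)
    (h3 : Tp3OK tp3) (hg : ∀ K TAU A1 A2, GsOK K TAU A1 A2 (gs A1 A2)) (hA2 : A2 ≤ 16500000)
    (hT : TabOK T) (d : ℕ) : FnOK (Sta K TAU A1 A2) (tR tp0 tp3 gs T K TAU A1 A2 d) :=
  go_sound Sta.rg (fun _ _ _ h => Or.inl h) (gf_ok (Sta K TAU A1 A2)) (gf_ok (Sta K TAU A1 A2))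
    (fun m => lf_ok h0 h3 (hg K TAU A1 A2) hA2 hT m) d

theorem tO_ok {tp0 tp3 : TF} {gs : ℕ → ℕ → ℕ → CF Bool} {T K1 K2 TAU A1 Am A2 : ℕ} (h0 : Tp0OK tp0)
    (h3 : Tp3OK tp3) (hg : ∀ K TAU A1 A2, GsOK K TAU A1 A2 (gs A1 A2)) (hA2 : A2 ≤ 16500000)
    (hT : TabOK T) (hK : K1 ≤ K2) (h1 : A1 ≤ Am) (h2 : Am ≤ A2) (d : ℕ) :
    FnOK (Oct K1 K2 TAU A1 Am A2) (tO tp0 tp3 gs T K1 K2 TAU A1 Am A2 d) :=
  go_sound Oct.rg (fun _ _ _ h => h) (tR_ok h0 h3 hg (h2.trans hA2) hT d) (tR_ok h0 h3 hg hA2 hT d)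
    (fun m => (lf_ok h0 h3 (hg K2 TAU A1 A2) hA2 hT m).anti fun _ _ _ h => Oct.sta hK h1 h2 h) d

/-! ### the root -/

lemma good_of_alive {ε : ℂ} {p : ℕ} {w : ℂ} (h : Alive ε (2 ^ p / 15) w) : Good (ε ^ 2) p w := by
  set e := ε ^ 2 with he
  have horb : ∀ j, orb e (2 ^ p / 15) w j = zz e p j w := by
    intro j
    induction j with
    | zero => rfl
    | succ j ih =>
      have h1 : zz e p (j + 1) w = zz e p j w + (cph (p + j) : ℂ) * (e - zz e p j w ^ 2) := by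
        rw [zz_add]; rfl
      rw [h1, ← ih]
      show orb e (2 ^ p / 15) w j + (Real.cos (2 * Real.pi * (2 ^ j * (2 ^ p / 15))) : ℂ) * _ = _
      congr 2
      unfold cph
      congr 2
      rw [pow_add]
      ring
  refine ⟨fun j => ?_, fun j hj => ?_⟩
  · rw [← horb]; exact h.bd j
  · rw [← horb]
    have hx : (2:ℝ) ^ j * (2 ^ p / 15) = 2 ^ (p + j) / 15 := by rw [pow_add]; ring
    obtain ⟨n, hn⟩ : ∃ n : ℤ, (2:ℤ) ^ (p + j) = 15 * n + 4 := by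
      have h1 : (2:ℤ) ^ (p + j) ≡ 4 [ZMOD 15] := by
        obtain ⟨m, hm⟩ : ∃ m, p + j = 4 * m + 2 := ⟨(p + j) / 4, by omega⟩
        rw [hm, pow_add, pow_mul]
        have h2 : ((2:ℤ) ^ 4) ^ m ≡ 1 ^ m [ZMOD 15] := Int.ModEq.pow m (by decide)
        rw [one_pow] at h2
        have h3 := h2.mul_right (2 ^ 2)
        norm_num at h3 ⊢
        exact h3
      obtain ⟨k, hk⟩ := h1.symm.dvd
      exact ⟨k, by linarith⟩
    have hn' : (2:ℝ) ^ (p + j) = 15 * n + 4 := by exact_mod_cast hn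
    have h4 := h.half j n (by rw [hx, hn']; linarith) (by rw [hx, hn']; linarith)
    rw [hx] at h4
    exact h4

lemma norm_point {ε w : ℂ} (hε : ‖ε‖ < 1 / 2) (h : Alive ε (2 / 15) w) : ‖16777216 * w‖ ≤ 57378078 := by
  have h1 : Alive ε (2 ^ 1 / 15) w := by rw [pow_one]; exact h
  have h2 := (good_of_alive h1).al (by
    rw [norm_pow]
    nlinarith [norm_nonneg ε]) 0
  have h3 : Pool.Agent.W_4481e3_q12.Ev.TT (1 + 0) = 57378078 := by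
    norm_num [Pool.Agent.W_4481e3_q12.Ev.TT]
  rw [h3] at h2
  exact h2

/-- the root cell -/
lemma cell_root {K TAU A1 A2 X Y H q : ℕ} {ε w a : ℂ} (h : Situ K TAU A1 A2 ε w a)
    (hE : Pool.Agent.W_4481e3_q46.InSq X Y H (ε ^ 2)) (hq : 101 * A2 ≤ 100 * q) :
    Cell X H Y H 536870912 536870912 57378079 57378079 268435456 268435456 16777216 16777216 q q
      (16777216 * ε ^ 2) (16777216 * w) (16384 * a) := by
  have e16 : (16777216 : ℂ) = ((16777216 : ℝ) : ℂ) := by norm_num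
  have hw := norm_point h.adm.lt_half h.alive
  have hz : pt 536870912 536870912 + cf 268435456 268435456 * (16777216 * ε ^ 2 - k0 X Y) = 0 := by
    have h1 : pt 536870912 536870912 = 0 := by
      unfold pt; apply Complex.ext <;> norm_num
    have h2 : cf 268435456 268435456 = 0 := by
      unfold cf; apply Complex.ext <;> norm_num
    rw [h1, h2]; ring
  have ha : ‖16384 * a‖ ≤ q := by
    have e : ‖(16384 : ℂ)‖ = 16384 := by norm_num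
    have h1 := h.four
    have h2 := h.hi
    have h3 : (101:ℝ) * A2 ≤ 100 * q := by exact_mod_cast hq
    rw [norm_mul, e]
    linarith
  have e24 : (2:ℝ) ^ 24 = 16777216 := by norm_num
  obtain ⟨hE1, hE2⟩ := hE
  rw [e24] at hE1 hE2
  refine ⟨?_, ?_, ?_, ?_, ?_, ?_⟩
  · rw [e16, Complex.re_ofReal_mul]; exact hE1
  · rw [e16, Complex.im_ofReal_mul]; exact hE2
  · rw [hz, sub_zero]
    refine ((Complex.abs_re_le_norm _).trans hw).trans ?_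
    norm_num
  · rw [hz, sub_zero]
    refine ((Complex.abs_im_le_norm _).trans hw).trans ?_
    norm_num
  · have e : ((16777216 : ℕ) : ℝ) - 16777216 = 0 := by norm_num
    rw [e, sub_zero]
    exact (Complex.abs_re_le_norm _).trans ha
  · have e : ((16777216 : ℕ) : ℝ) - 16777216 = 0 := by norm_num
    rw [e, sub_zero]
    exact (Complex.abs_im_le_norm _).trans ha

/-- from helper6's situation -/
lemma situ_of_sit {ε : ℂ} {m : ℕ} {β κ τ : ℕ → ℝ → ℝ} {u b uf bf : ℕ → ℂ} {K TAU A1 A2 : ℕ}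
    (hε : Adm ε) (hr : 47 * ‖ε ^ 2‖ ^ 2 < 32 * (ε ^ 2).re) (h : Sit ε 4 m β κ τ u b uf bf)
    (hlo : (A1:ℝ) ≤ 16384 * ‖b 0‖) (hhi : 16384 * ‖b 0‖ ≤ A2) (hβ : β 1 ‖b 0‖ ≤ 101 / 100 * ‖b 0‖)
    (hκ : κ 1 ‖b 0‖ ≤ K / 16) (hτ : (TAU:ℝ) / 17179869184 ≤ τ 1 ‖b 0‖) :
    Situ K TAU A1 A2 ε (u 4) (b 4) := by
  have p4 : ph 4 = 1 := by decide
  have p3 : ph 3 = 2 := by decide
  have p2 : ph 2 = 3 := by decide
  have p1 : ph 1 = 0 := by decide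
  have c4 : cc 4 = cc 0 := Pool.Agent.W_4481e3_q59.cc_add_four 0
  have d4 : dd 4 = dd 0 := Pool.Agent.W_4481e3_q59.dd_add_four 0
  have w1 : ww (ε ^ 2) 1 (u 4) 1 = u 3 := by
    have h1 := h.pt 3 (by norm_num)
    rw [p4] at h1
    rw [h1]; rfl
  have w2 : ww (ε ^ 2) 1 (u 4) 2 = u 2 := by
    have h1 := h.pt 2 (by norm_num)
    rw [p3] at h1
    rw [h1, ← w1]; rfl
  have w3 : ww (ε ^ 2) 1 (u 4) 3 = u 1 := by
    have h1 := h.pt 1 (by norm_num)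
    rw [p2] at h1
    rw [h1, ← w2]; rfl
  have a1 : aa (ε ^ 2) 1 (u 4) (b 4) 1 = b 3 := by
    have h1 := h.sl 3 (by norm_num)
    rw [p4] at h1
    rw [h1]; rfl
  have a2 : aa (ε ^ 2) 1 (u 4) (b 4) 2 = b 2 := by
    have h1 := h.sl 2 (by norm_num)
    rw [p3] at h1
    rw [h1, ← a1, ← w1]; rfl
  have a3 : aa (ε ^ 2) 1 (u 4) (b 4) 3 = b 1 := by
    have h1 := h.sl 1 (by norm_num)
    rw [p2] at h1
    rw [h1, ← a2, ← w2]; rfl
  have a4 : aa (ε ^ 2) 1 (u 4) (b 4) 4 = b 0 := by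
    have h1 := h.sl 0 (by norm_num)
    rw [p1, ← c4, ← d4] at h1
    rw [h1]
    show ((1 - 2 * cc (1 + 3) * ww (ε ^ 2) 1 (u 4) 3) * aa (ε ^ 2) 1 (u 4) (b 4) 3 +
      dd (1 + 3) * (ε ^ 2 - ww (ε ^ 2) 1 (u 4) 3 ^ 2)) / 2 = _
    rw [a3, w3]
  have hal := h.alive 4 le_rfl
  rw [p4, pow_one] at hal
  refine ⟨hε, hr, hal, by rw [a4]; exact hlo, by rw [a4]; exact hhi, ?_, fun s hs => ?_⟩
  · rw [a4]
    have h1 := h.bd 4 le_rfl
    rw [p4] at h1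
    linarith
  · have h1 : |s| ≤ τ (ph 4) ‖b 0‖ := by
      rw [p4]
      refine le_trans ?_ hτ
      rw [le_div_iff₀ (by norm_num)]
      linarith
    obtain ⟨Z, hZ, hA⟩ := h.test 4 le_rfl s h1
    rw [p4] at hZ hA
    rw [pow_one] at hA
    refine ⟨Z, hZ.trans ?_, hA⟩
    have hs2 := sq_nonneg s
    nlinarith

end Pool.Agent.W_4481e3_q25.EvR
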