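import Pool.Agent.W_4481e3_q25.CellR
import Pool.Agent.W_4481e3_h58.ApolU

/-!
Kill certificate, format RT: soundness of the test leaf.
-/

namespace Pool.Agent.W_4481e3_q25.EvR

open Complex
open Pool.Agent.W_4481e3_q42 (Alive Adm aa ww cc dd orb)
open Pool.Agent.W_MP_4481e3_an.Ev (gd pt gd_true div_lower div_upper norm_pt_sq norm_le_sqrt_two ndiv_eq)
open Pool.Agent.W_4481e3_q12.Ev (ds ds_cast fid neg stp flip_fid flip_neg)
open Pool.Agent.W_4481e3_q42.Ev (nrq ste sep sen cf k0 InF nrq_sound PhK ste_sound sb_pos sb_neg)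

/-! ### one step -/

lemma phk_pos {C : ℕ} {c : ℝ} (hC : C ≤ 16777216) (hc : |c| ≤ 1) (h : |(C:ℝ) - 16777216 * c| ≤ 1) :
    PhK fid Pool.Agent.W_4481e3_q42.Ev.sbp 4504149383184384 C (Nat.mul C 536870912) c := by
  refine ⟨⟨1, Or.inl rfl, flip_fid, sb_pos, by norm_num, ?_⟩, rfl, hC, hc⟩
  rw [abs_sub_comm]
  rwa [one_mul]

lemma phk_neg {C : ℕ} {c : ℝ} (hC : C ≤ 16777216) (hc : |c| ≤ 1) (h : |-(C:ℝ) - 16777216 * c| ≤ 1) :
    PhK neg Pool.Agent.W_4481e3_q42.Ev.sbn 4503049871556608 C (Nat.mul C 536870912) c := by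
  refine ⟨⟨-1, Or.inr rfl, flip_neg, sb_neg, by norm_num, ?_⟩, rfl, hC, hc⟩
  rw [abs_sub_comm]
  rwa [neg_one_mul]

lemma ble_false {a b : ℕ} (h : b < a) : Nat.ble a b = false := by
  rw [Bool.eq_false_iff]
  intro hb
  have := Nat.le_of_ble_eq_true hb
  omega

lemma ble_true {a b : ℕ} (h : a ≤ b) : Nat.ble a b = true := Nat.ble_eq_true_of_le h

lemma sub_self_add (a b : ℕ) : Nat.sub (a + b) b = a := Nat.add_sub_cancel a b

lemma st1_pos {X Y t te c A B r F G : ℕ} {k : ℕ → ℕ → ℕ → ℕ → ℕ → Bool} (h : c < 33554432) :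
    st1 c X Y t te A B r F G k = sep c X Y t te A B r F G k := by
  unfold st1
  rw [ble_false h]

lemma st1_neg {X Y t te c A B r F G M : ℕ} {k : ℕ → ℕ → ℕ → ℕ → ℕ → Bool} (hM : M = 33554432) :
    st1 (c + M) X Y t te A B r F G k = sen c X Y t te A B r F G k := by
  unfold st1
  rw [← hM, ble_true (Nat.le_add_left _ _), sub_self_add]

lemma st1_sound {X Y t te : ℕ} {E : ℂ} (hX : X ≤ 4194304) (hY : Y ≤ 4194304) (ht : t ≤ 16777216)
    (hte : (t:ℝ) * 3 / 131072 + 36 ≤ te) (hE : ‖E - k0 X Y‖ ≤ t) {w : ℕ} {x : ℝ}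
    (hc : ∃ C : ℕ, C ≤ 16777216 ∧ ((w = C ∧ |(C:ℝ) - 16777216 * Real.cos x| ≤ 1) ∨
      (w = C + 33554432 ∧ |-(C:ℝ) - 16777216 * Real.cos x| ≤ 1)))
    {A B r F G : ℕ} {W : ℂ} {k : ℕ → ℕ → ℕ → ℕ → ℕ → Bool} (hW : InF X Y E A B r F G W)
    (h : st1 w X Y t te A B r F G k = true) :
    ∃ A' B' r' F' G' : ℕ, k A' B' r' F' G' = true ∧ InF X Y E A' B' r' F' G' (stp (Real.cos x) E W) := by
  obtain ⟨C, hC, ⟨hw, hc⟩ | ⟨hw, hc⟩⟩ := hc
  · rw [hw, st1_pos (lt_of_le_of_lt hC (by norm_num))] at h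
    exact ste_sound (phk_pos hC (Real.abs_cos_le_one _) hc) hX hY ht hte hE hW h
  · rw [hw, st1_neg rfl] at h
    exact ste_sound (phk_neg hC (Real.abs_cos_le_one _) hc) hX hY ht hte hE hW h

/-- soundness of a closer along the chain of the slot `S` over the base `x` -/
def ClOK (cl : Cl) (ε : ℂ) (S : ℕ) (x : ℝ) : Prop :=
  ∀ j < Nat.land (Nat.shiftRight S 41) 63, ∀ (A B R : ℕ) (Z : ℂ), cl (wd S j) A B R = true →
    ‖16777216 * Z - pt A B‖ ≤ R → ¬ Alive ε (2 ^ j * x) Z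

lemma scale_stp (c : ℝ) (e Z : ℂ) :
    stp c (16777216 * e) (16777216 * Z) = 16777216 * (Z + (c : ℂ) * (e - Z ^ 2)) := by
  unfold stp; ring

lemma form_ball {X Y t A B r F G : ℕ} {E W : ℂ} (hE : ‖E - k0 X Y‖ ≤ t) (hW : InF X Y E A B r F G W) :
    ‖W - pt A B‖ ≤ ((Nat.add (Nat.add (Nat.div (Nat.mul (nrq (ds F 268435456) (ds G 268435456)) t) 65536)
      1) r : ℕ) : ℝ) := by
  have hFr : ((ds F 268435456 : ℕ) : ℝ) = |(F:ℝ) - 268435456| := by rw [ds_cast]; norm_num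
  have hGr : ((ds G 268435456 : ℕ) : ℝ) = |(G:ℝ) - 268435456| := by rw [ds_cast]; norm_num
  have hFG : ‖cf F G‖ * 65536 ≤ nrq (ds F 268435456) (ds G 268435456) := by
    apply nrq_sound
    rw [hFr, hGr, sq_abs, sq_abs, mul_pow, Complex.sq_norm, Complex.normSq_apply]
    unfold cf
    simp only
    apply le_of_eq; ring
  set nE := nrq (ds F 268435456) (ds G 268435456) with hnEd
  clear_value nE
  have hMl := div_lower (nE * t) 65536 (by norm_num)
  unfold InF at hW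
  have h1 : W - pt A B = (W - (pt A B + cf F G * (E - k0 X Y))) + cf F G * (E - k0 X Y) := by ring
  have h2 : ‖cf F G * (E - k0 X Y)‖ ≤ nE * t / 65536 := by
    rw [norm_mul]
    have e5 : ‖cf F G‖ ≤ nE / 65536 := by rw [le_div_iff₀ (by norm_num)]; exact hFG
    calc ‖cf F G‖ * ‖E - k0 X Y‖ ≤ nE / 65536 * t := mul_le_mul e5 hE (norm_nonneg _) (by positivity)
      _ = _ := by ring
  rw [h1]
  refine (norm_add_le _ _).trans ?_
  simp only [Nat.add_eq, Nat.mul_eq, ndiv_eq]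
  push_cast at hMl ⊢
  linarith

theorem ch_sound {cl : Cl} {ε : ℂ} {S X Y t te : ℕ} {x : ℝ} (hS : TestOK S x) (hcl : ClOK cl ε S x)
    (hX : X ≤ 4194304) (hY : Y ≤ 4194304) (ht : t ≤ 16777216)
    (hte : (t:ℝ) * 3 / 131072 + 36 ≤ te) (hE : ‖16777216 * ε ^ 2 - k0 X Y‖ ≤ t) (k : ℕ) :
    ∀ {j A B r F G : ℕ} {Z : ℂ}, j + k < Nat.land (Nat.shiftRight S 41) 63 →
      InF X Y (16777216 * ε ^ 2) A B r F G (16777216 * Z) →
      ch cl X Y t te k (wd S j) A B r F G = true → ¬ Alive ε (2 ^ j * x) Z := by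
  induction k with
  | zero =>
    intro j A B r F G Z hj hZ h
    have h1 : ce cl t (wd S j) A B r F G = true := h
    unfold ce at h1
    exact hcl j hj _ _ _ _ h1 (form_ball hE hZ)
  | succ k ih =>
    intro j A B r F G Z hj hZ h hA
    have h1 : st1 (Nat.land (wd S j) 67108863) X Y t te A B r F G
      (ch cl X Y t te k (Nat.shiftRight (wd S j) 88)) = true := h
    obtain ⟨A', B', r', F', G', h2, h3⟩ := st1_sound (x := 2 * Real.pi * (2 ^ j * x)) hX hY ht hte hE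
      (hS.c j (by omega)) hZ h1
    rw [scale_stp] at h3
    have h4 := hA.next
    have e1 : 2 * (2 ^ j * x) = 2 ^ (j + 1) * x := by rw [pow_succ]; ring
    rw [e1] at h4
    exact ih (j := j + 1) (by omega) h3 h2 h4

/-! ### the start of the chain -/

lemma nrq_of_abs {z : ℂ} {a b : ℕ} (h1 : |z.re| ≤ a) (h2 : |z.im| ≤ b) : ‖z‖ ≤ nrq a b := by
  apply nrq_sound
  have e3 : ‖z‖ ^ 2 = |z.re| ^ 2 + |z.im| ^ 2 := by
    rw [Complex.sq_norm, Complex.normSq_apply, sq_abs, sq_abs]; ring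
  rw [e3]
  have e4 : |z.re| ^ 2 ≤ (a:ℝ) ^ 2 := pow_le_pow_left₀ (abs_nonneg _) h1 2
  have e5 : |z.im| ^ 2 ≤ (b:ℝ) ^ 2 := pow_le_pow_left₀ (abs_nonneg _) h2 2
  linarith

lemma adp_sound {s A P : ℕ} (h : 1 ≤ adp s A P) :
    |((adp s A P : ℕ) : ℝ) - (A + s / 16777216 * (P - 16777216))| ≤ 1 := by
  unfold adp at *
  simp only [Nat.add_eq, Nat.mul_eq, Nat.sub_eq, ndiv_eq] at *
  have l := div_lower (s * P) 16777216 (by norm_num)
  have u := div_upper (s * P) 16777216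
  push_cast at l u
  rw [Nat.cast_sub (by omega), abs_le]
  push_cast
  constructor <;> linarith

lemma adn_sound {s A P : ℕ} (h : 1 ≤ adn s A P) :
    |((adn s A P : ℕ) : ℝ) - (A + (-(s:ℝ)) / 16777216 * (P - 16777216))| ≤ 1 := by
  unfold adn at *
  simp only [Nat.add_eq, Nat.mul_eq, Nat.sub_eq, ndiv_eq] at *
  have l := div_lower (s * P) 16777216 (by norm_num)
  have u := div_upper (s * P) 16777216
  push_cast at l u
  rw [Nat.cast_sub (by omega), abs_le]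
  push_cast
  constructor <;> linarith

/-- the start of the chain in real numbers -/
lemma start {X Y A B rw F G P Q ra A0 B0 s D K : ℕ} {ε w a Z : ℂ} {x σ : ℝ}
    (hW : InF X Y (16777216 * ε ^ 2) A B rw F G (16777216 * w))
    (ha : ‖16384 * a - (⟨(P:ℝ) - 16777216, (Q:ℝ) - 16777216⟩ : ℂ)‖ ≤ ra)
    (ha' : ‖16384 * a‖ ≤ 16777216) (hσ : |σ| = s) (hs : |σ - 17179869184 * (x - 2 / 15)| ≤ 1)
    (hA : |(A0:ℝ) - (A + σ / 16777216 * (P - 16777216))| ≤ 1)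
    (hB : |(B0:ℝ) - (B + σ / 16777216 * (Q - 16777216))| ≤ 1)
    (hZ : ‖Z - (w + a * ((x - 2 / 15 : ℝ) : ℂ))‖ ≤ K / 32 * (x - 2 / 15) ^ 2)
    (hD : (K:ℝ) * ((s:ℝ) + 1) ^ 2 / 562949953421312 ≤ D) :
    InF X Y (16777216 * ε ^ 2) A0 B0 (rw + s * ra / 16777216 + (D + 5)) F G (16777216 * Z) := by
  unfold InF at *
  set δ : ℝ := x - 2 / 15 with hδ
  set α : ℂ := ⟨(P:ℝ) - 16777216, (Q:ℝ) - 16777216⟩ with hα
  set z := pt A B with hz
  set L := cf F G * (16777216 * ε ^ 2 - k0 X Y) with hL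
  clear_value L δ
  have e16 : (16777216 : ℂ) = ((16777216 : ℝ) : ℂ) := by norm_num
  have hdec : 16777216 * Z - (pt A0 B0 + L) =
      16777216 * (Z - (w + a * (δ : ℂ))) + (16777216 * w - (z + L)) +
      (-((((σ - 17179869184 * δ) / 16777216 : ℝ) : ℂ) * (16384 * a)) +
        ((σ / 16777216 : ℝ) : ℂ) * (16384 * a - α)) +
      (z + ((σ / 16777216 : ℝ) : ℂ) * α - pt A0 B0) := by
    push_cast
    ring
  have n1 : ‖16777216 * (Z - (w + a * (δ : ℂ)))‖ ≤ D := by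
    rw [norm_mul, e16, Complex.norm_real]
    have h1 : |(16777216:ℝ)| = 16777216 := by norm_num
    rw [Real.norm_eq_abs, h1]
    refine le_trans ?_ hD
    have h2 : |17179869184 * δ| ≤ s + 1 := by
      have h3 : 17179869184 * δ = σ - (σ - 17179869184 * δ) := by ring
      rw [h3]
      refine (abs_sub _ _).trans ?_
      rw [hσ]; linarith
    have h3 : (17179869184 * δ) ^ 2 ≤ ((s:ℝ) + 1) ^ 2 := by
      rw [← sq_abs (17179869184 * δ)]
      exact pow_le_pow_left₀ (abs_nonneg _) h2 2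
    have h4 : (K:ℝ) * (17179869184 * δ) ^ 2 ≤ K * ((s:ℝ) + 1) ^ 2 :=
      mul_le_mul_of_nonneg_left h3 (Nat.cast_nonneg _)
    rw [le_div_iff₀ (by norm_num)]
    nlinarith
  have n3 : ‖-((((σ - 17179869184 * δ) / 16777216 : ℝ) : ℂ) * (16384 * a))‖ ≤ 1 := by
    rw [norm_neg, norm_mul, Complex.norm_real, Real.norm_eq_abs, abs_div,
      abs_of_pos (by norm_num : (0:ℝ) < 16777216)]
    calc |σ - 17179869184 * δ| / 16777216 * ‖16384 * a‖ ≤ 1 / 16777216 * 16777216 := by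
          apply mul_le_mul _ ha' (norm_nonneg _) (by norm_num)
          exact div_le_div_of_nonneg_right hs (by norm_num)
      _ = 1 := by norm_num
  have n4 : ‖((σ / 16777216 : ℝ) : ℂ) * (16384 * a - α)‖ ≤ s * ra / 16777216 := by
    rw [norm_mul, Complex.norm_real, Real.norm_eq_abs, abs_div, hσ,
      abs_of_pos (by norm_num : (0:ℝ) < 16777216)]
    calc (s:ℝ) / 16777216 * ‖16384 * a - α‖ ≤ s / 16777216 * ra :=
          mul_le_mul_of_nonneg_left ha (by positivity)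
      _ = _ := by ring
  have n5 : ‖z + ((σ / 16777216 : ℝ) : ℂ) * α - pt A0 B0‖ ≤ 3 / 2 * 1 := by
    apply norm_le_sqrt_two
    · rw [Complex.sub_re, Complex.add_re, Complex.re_ofReal_mul]
      show |(A:ℝ) - 536870912 + σ / 16777216 * ((P:ℝ) - 16777216) - ((A0:ℝ) - 536870912)| ≤ 1
      rw [abs_sub_comm]
      refine le_trans (le_of_eq ?_) hA
      congr 1; ring
    · rw [Complex.sub_im, Complex.add_im, Complex.im_ofReal_mul]
      show |(B:ℝ) - 536870912 + σ / 16777216 * ((Q:ℝ) - 16777216) - ((B0:ℝ) - 536870912)| ≤ 1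
      rw [abs_sub_comm]
      refine le_trans (le_of_eq ?_) hB
      congr 1; ring
  have hl := div_lower (s * ra) 16777216 (by norm_num)
  rw [hdec]
  refine (norm_add_le _ _).trans ?_
  have m1 := norm_add_le (16777216 * (Z - (w + a * (δ : ℂ))) + (16777216 * w - (z + L)))
    (-((((σ - 17179869184 * δ) / 16777216 : ℝ) : ℂ) * (16384 * a)) +
        ((σ / 16777216 : ℝ) : ℂ) * (16384 * a - α))
  have m2 := norm_add_le (16777216 * (Z - (w + a * (δ : ℂ)))) (16777216 * w - (z + L))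
  have m3 := norm_add_le (-((((σ - 17179869184 * δ) / 16777216 : ℝ) : ℂ) * (16384 * a)))
    (((σ / 16777216 : ℝ) : ℂ) * (16384 * a - α))
  have hR : ((rw + s * ra / 16777216 + (D + 5) : ℕ) : ℝ) =
      rw + ((s * ra / 16777216 : ℕ) : ℝ) + (D + 5) := by push_cast; ring
  rw [hR]
  push_cast at hl
  linarith

/-! ### the test leaf -/

lemma cell_E {X Hx Y Hy A B px py F G P Q qx qy : ℕ} {E W a' : ℂ}
    (h : Cell X Hx Y Hy A B px py F G P Q qx qy E W a') : ‖E - k0 X Y‖ ≤ nrq Hx Hy := by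
  apply nrq_of_abs
  · rw [Complex.sub_re]; exact h.ex
  · rw [Complex.sub_im]; exact h.ey

lemma cell_W {X Hx Y Hy A B px py F G P Q qx qy : ℕ} {E W a' : ℂ}
    (h : Cell X Hx Y Hy A B px py F G P Q qx qy E W a') : InF X Y E A B (nrq px py) F G W :=
  nrq_of_abs h.wx h.wy

lemma cell_a {X Hx Y Hy A B px py F G P Q qx qy : ℕ} {E W a' : ℂ}
    (h : Cell X Hx Y Hy A B px py F G P Q qx qy E W a') :
    ‖a' - (⟨(P:ℝ) - 16777216, (Q:ℝ) - 16777216⟩ : ℂ)‖ ≤ nrq qx qy := by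
  apply nrq_of_abs
  · rw [Complex.sub_re]; exact h.ax
  · rw [Complex.sub_im]; exact h.ay

lemma situ_a {K TAU A1 A2 : ℕ} {ε w a : ℂ} (hA2 : A2 ≤ 16500000) (h : Situ K TAU A1 A2 ε w a) :
    ‖16384 * a‖ ≤ 16777216 := by
  have h1 := h.four
  have h2 := h.hi
  have h3 : (A2:ℝ) ≤ 16500000 := by exact_mod_cast hA2
  have e : ‖(16384 : ℂ)‖ = 16384 := by norm_num
  rw [norm_mul, e]
  linarith

/-- soundness of the test leaf -/
theorem ts_sound {T K TAU A1 A2 i k : ℕ} {cl : Cl} {x : ℝ} (hA2 : A2 ≤ 16500000)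
    (hS : TestOK (slot T i) x) {X Hx Y Hy A B px py F G P Q qx qy : ℕ} {ε w a : ℂ}
    (hcl : ClOK cl ε (slot T i) x) (hs : Situ K TAU A1 A2 ε w a)
    (hc : Cell X Hx Y Hy A B px py F G P Q qx qy (16777216 * ε ^ 2) (16777216 * w) (16384 * a))
    (h : ts T K TAU cl i k X Hx Y Hy A B px py F G P Q qx qy = true) : False := by
  have hE := cell_E hc
  have hW := cell_W hc
  have ha := cell_a hc
  have ha' := situ_a hA2 hs
  unfold ts ts1 ts2 ts3 at h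
  rw [gd_true, gd_true, gd_true, gd_true, gd_true] at h
  obtain ⟨h1, h2, h3, h4, h5, h6⟩ := h
  have hX := Nat.le_of_ble_eq_true h1
  have hY := Nat.le_of_ble_eq_true h2
  have ht := Nat.le_of_ble_eq_true h3
  have hk := Nat.le_of_ble_eq_true h4
  have hTAU := Nat.le_of_ble_eq_true h5
  clear h1 h2 h3 h4 h5
  generalize slot T i = S at *
  generalize hsd : Nat.land S 1099511627775 = s at *
  generalize nrq Hx Hy = t at *
  generalize nrq px py = rw at *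
  generalize nrq qx qy = ra at *
  have hsr := hS.s
  rw [hsd] at hsr
  -- the window
  have hwin : ∀ σ : ℝ, |σ| = s → |σ - 17179869184 * (x - 2 / 15)| ≤ 1 →
      17179869184 * |x - 2 / 15| ≤ TAU := by
    intro σ h1 h2
    have h3 : (17179869184 * (x - 2 / 15)) = σ - (σ - 17179869184 * (x - 2 / 15)) := by ring
    have h4 : |17179869184 * (x - 2 / 15)| ≤ s + 1 := by
      rw [h3]
      refine (abs_sub _ _).trans ?_
      rw [h1]; linarith
    rw [abs_mul, abs_of_pos (by norm_num : (0:ℝ) < 17179869184)] at h4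
    have h5 : ((s:ℝ) + 1) ≤ TAU := by
      have : s + 1 ≤ TAU := hTAU
      exact_mod_cast this
    linarith
  set D := K * ((s + 1) * (s + 1)) / 562949953421312 + 1 with hDd
  have hD : (K:ℝ) * ((s:ℝ) + 1) ^ 2 / 562949953421312 ≤ D := by
    have := div_lower (K * ((s + 1) * (s + 1))) 562949953421312 (by norm_num)
    push_cast at this
    rw [hDd]
    push_cast
    have e : (K:ℝ) * ((s:ℝ) + 1) ^ 2 / 562949953421312 =
      K * ((s + 1) * (s + 1)) / 562949953421312 := by ring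
    rw [e]; linarith
  have hte : (t:ℝ) * 3 / 131072 + 36 ≤ ((Nat.add (Nat.div (Nat.mul t 3) 131072) 37 : ℕ) : ℝ) := by
    simp only [Nat.add_eq, Nat.mul_eq, ndiv_eq]
    have := div_lower (t * 3) 131072 (by norm_num)
    push_cast at this ⊢
    linarith
  have hr : Nat.add (Nat.add rw (Nat.div (Nat.mul s ra) 16777216))
      (Nat.add (Nat.div (Nat.mul K (Nat.mul (Nat.add s 1) (Nat.add s 1))) 562949953421312) 6) =
      rw + s * ra / 16777216 + (D + 5) := by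
    simp only [Nat.add_eq, Nat.mul_eq, ndiv_eq]
    rw [hDd]
  rw [hr] at h6
  have hfin : ∀ (σ : ℝ) (A0 B0 : ℕ), |σ| = s → |σ - 17179869184 * (x - 2 / 15)| ≤ 1 →
      |(A0:ℝ) - (A + σ / 16777216 * (P - 16777216))| ≤ 1 →
      |(B0:ℝ) - (B + σ / 16777216 * (Q - 16777216))| ≤ 1 →
      ch cl X Y t (Nat.add (Nat.div (Nat.mul t 3) 131072) 37) k (Nat.shiftRight S 64) A0 B0
        (rw + s * ra / 16777216 + (D + 5)) F G = true → False := by
    intro σ A0 B0 h1 h2 h3 h4 h5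
    obtain ⟨Z, hZ, hAl⟩ := hs.test (x - 2 / 15) (hwin σ h1 h2)
    have h7 := start (P := P) (Q := Q) hW ha ha' h1 h2 h3 h4 hZ hD
    have h8 := ch_sound hS hcl hX hY ht hte hE k (j := 0) (by rw [zero_add]; exact hk) h7 h5
    apply h8
    have e : (2:ℝ) ^ 0 * x = 2 / 15 + (x - 2 / 15) := by ring
    rw [e]
    exact hAl
  clear_value D
  unfold ts4 ts5 at h6
  rcases hsr with ⟨hb, hσ⟩ | ⟨hb, hσ⟩
  · rw [hb] at h6
    have h7 : gd (Nat.ble 1 (adp s A P)) (gd (Nat.ble 1 (adp s B Q))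
      (ch cl X Y t (Nat.add (Nat.div (Nat.mul t 3) 131072) 37) k (Nat.shiftRight S 64) (adp s A P)
        (adp s B Q) (rw + s * ra / 16777216 + (D + 5)) F G)) = true := h6
    rw [gd_true, gd_true] at h7
    exact hfin s _ _ (abs_of_nonneg (Nat.cast_nonneg _)) hσ
      (adp_sound (Nat.le_of_ble_eq_true h7.1)) (adp_sound (Nat.le_of_ble_eq_true h7.2.1)) h7.2.2
  · rw [hb] at h6
    have h7 : gd (Nat.ble 1 (adn s A P)) (gd (Nat.ble 1 (adn s B Q))
      (ch cl X Y t (Nat.add (Nat.div (Nat.mul t 3) 131072) 37) k (Nat.shiftRight S 64) (adn s A P)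
        (adn s B Q) (rw + s * ra / 16777216 + (D + 5)) F G)) = true := h6
    rw [gd_true, gd_true] at h7
    exact hfin (-s) _ _ (by rw [abs_neg]; exact abs_of_nonneg (Nat.cast_nonneg _)) hσ
      (adn_sound (Nat.le_of_ble_eq_true h7.1)) (adn_sound (Nat.le_of_ble_eq_true h7.2.1)) h7.2.2

/-! ### closers -/

lemma pt_sub_sq (A B M : ℕ) :
    ‖pt A B - (⟨(M:ℝ) - 536870912, 0⟩ : ℂ)‖ ^ 2 =
      ((ds A M : ℕ) : ℝ) ^ 2 + ((ds B 536870912 : ℕ) : ℝ) ^ 2 := by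
  rw [ds_cast, ds_cast, sq_abs, sq_abs, Complex.sq_norm, Complex.normSq_apply, Complex.sub_re,
    Complex.sub_im]
  unfold pt
  push_cast
  ring

lemma es_ok {ε : ℂ} {S : ℕ} {x : ℝ} (hS : TestOK S x) (hε : Adm ε)
    (hr : 47 * ‖ε ^ 2‖ ^ 2 < 32 * (ε ^ 2).re) : ClOK es ε S x := by
  intro j hj A B R Z h hZ
  unfold es es2 at h
  have h1 := Nat.le_of_ble_eq_true h
  apply hS.esc j hj ε Z hε hr
  generalize Nat.land (Nat.shiftRight (wd S j) 26) 1073741823 = M at *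
  generalize Nat.land (Nat.shiftRight (wd S j) 56) 1073741823 = ρ at *
  simp only [Nat.add_eq, Nat.mul_eq] at h1
  have h2 : ((ρ:ℝ) + R) ^ 2 ≤ ‖pt A B - (⟨(M:ℝ) - 536870912, 0⟩ : ℂ)‖ ^ 2 := by
    rw [pt_sub_sq]
    have h3 : (((ρ + R) * (ρ + R) : ℕ) : ℝ) ≤
        ((ds A M * ds A M + ds B 536870912 * ds B 536870912 : ℕ) : ℝ) := by exact_mod_cast h1
    push_cast at h3
    linarith
  have h3 : (ρ:ℝ) + R ≤ ‖pt A B - (⟨(M:ℝ) - 536870912, 0⟩ : ℂ)‖ :=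
    Pool.Agent.W_4481e3_q42.le_of_sq_le_sq_h h2 (norm_nonneg _)
  have h4 : ‖pt A B - (⟨(M:ℝ) - 536870912, 0⟩ : ℂ)‖ ≤
      ‖16777216 * Z - (⟨(M:ℝ) - 536870912, 0⟩ : ℂ)‖ + ‖16777216 * Z - pt A B‖ := by
    have e : pt A B - (⟨(M:ℝ) - 536870912, 0⟩ : ℂ) =
      (16777216 * Z - (⟨(M:ℝ) - 536870912, 0⟩ : ℂ)) - (16777216 * Z - pt A B) := by ring
    rw [e]
    exact norm_sub_le _ _
  linarith

lemma d3_ok {ε : ℂ} {S : ℕ} {x : ℝ} (hS : TestOK S x) (hε : Adm ε)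
    (hr : 47 * ‖ε ^ 2‖ ^ 2 < 32 * (ε ^ 2).re) : ClOK d3 ε S x := by
  intro j hj A B R Z h hZ
  unfold d3 d32 at h
  rw [gd_true] at h
  obtain ⟨h1, h2⟩ := h
  obtain ⟨q, hq, hq3⟩ := hS.f3 j hj (Nat.eq_of_beq_eq_true h1)
  have h3 := Nat.le_of_ble_eq_true h2
  simp only [Nat.add_eq, Nat.mul_eq, Nat.sub_eq, Nat.succ_eq_add_one] at h3
  have hR : R ≤ 16777216 := by
    by_contra hc
    have e : 16777216 - R = 0 := by omega
    rw [e] at h3
    omega
  have h4 : ‖pt A B - (⟨((520093696 : ℕ):ℝ) - 536870912, 0⟩ : ℂ)‖ ^ 2 ≤ ((16777216:ℝ) - R) ^ 2 := by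
    rw [pt_sub_sq]
    have h5 : ((ds A 520093696 * ds A 520093696 + ds B 536870912 * ds B 536870912 + 1 : ℕ) : ℝ) ≤
        (((16777216 - R) * (16777216 - R) : ℕ) : ℝ) := by exact_mod_cast h3
    rw [Nat.cast_mul, Nat.cast_sub hR] at h5
    push_cast at h5
    linarith
  have hR' : (R:ℝ) ≤ 16777216 := by exact_mod_cast hR
  have h5 := Pool.Agent.W_4481e3_q42.le_of_sq_le_sq_h h4 (by linarith)
  have e1 : (⟨((520093696 : ℕ):ℝ) - 536870912, 0⟩ : ℂ) = -16777216 := by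
    apply Complex.ext
    · show ((520093696 : ℕ):ℝ) - 536870912 = (-16777216 : ℂ).re
      simp only [Complex.neg_re, Complex.re_ofNat]
      norm_num
    · show (0:ℝ) = (-16777216 : ℂ).im
      simp
  rw [e1] at h5
  have h6 : ‖16777216 * (Z + 1)‖ ≤ 16777216 := by
    have e : (16777216 * (Z + 1) : ℂ) = (16777216 * Z - pt A B) + (pt A B - -16777216) := by ring
    rw [e]
    refine (norm_add_le _ _).trans ?_
    linarith
  have h7 : ‖Z + 1‖ ≤ 2 * (1 / 2) := by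
    rw [norm_mul] at h6
    have e16 : ‖(16777216 : ℂ)‖ = 16777216 := by norm_num
    rw [e16] at h6
    linarith
  refine Pool.Agent.W_4481e3_q42.not_alive_disc3 hε hq hq3 (r := 1 / 2) ?_ h7
  have h8 : ‖1 - ε ^ 2‖ < 1 := by
    have e2 : ‖1 - ε ^ 2‖ ^ 2 = 1 - 2 * (ε ^ 2).re + ‖ε ^ 2‖ ^ 2 := by
      rw [Complex.sq_norm, Complex.sq_norm, Complex.normSq_apply, Complex.normSq_apply,
        Complex.sub_re, Complex.sub_im, Complex.one_re, Complex.one_im]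
      ring
    have e3 : ‖1 - ε ^ 2‖ ^ 2 < 1 ^ 2 := by
      rw [e2]
      have : 0 ≤ ‖ε ^ 2‖ ^ 2 := by positivity
      linarith
    exact lt_of_pow_lt_pow_left₀ 2 (by norm_num) e3
  have e4 : (1 / 4 - ε ^ 2 / 4 : ℂ) = (1 - ε ^ 2) / 4 := by ring
  rw [e4, norm_div]
  have e5 : ‖(4 : ℂ)‖ = 4 := by norm_num
  rw [e5]
  linarith

lemma c0_ok {tp0 : TF} (ht : Tp0OK tp0) {ε : ℂ} {S : ℕ} {x : ℝ} (hS : TestOK S x) (hε : Adm ε)
    {X Hx Y Hy : ℕ} (hx : |(16777216 * ε ^ 2 : ℂ).re - (X:ℝ)| ≤ Hx)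
    (hy : |(16777216 * ε ^ 2 : ℂ).im - (Y:ℝ)| ≤ Hy) : ClOK (c0 tp0 X Hx Y Hy) ε S x := by
  intro j hj A B R Z h hZ
  unfold c0 at h
  rw [gd_true] at h
  obtain ⟨n, hn⟩ := hS.f0 j hj (Nat.eq_of_beq_eq_true h.1)
  rw [hn]
  exact ht X Hx Y Hy A B R h.2 ε hε hx hy n Z hZ

lemma c3_ok {tp3 : TF} (ht : Tp3OK tp3) {ε : ℂ} {S : ℕ} {x : ℝ} (hS : TestOK S x) (hε : Adm ε)
    {X Hx Y Hy : ℕ} (hx : |(16777216 * ε ^ 2 : ℂ).re - (X:ℝ)| ≤ Hx)
    (hy : |(16777216 * ε ^ 2 : ℂ).im - (Y:ℝ)| ≤ Hy) : ClOK (c3 tp3 X Hx Y Hy) ε S x := by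
  intro j hj A B R Z h hZ
  unfold c3 at h
  rw [gd_true] at h
  obtain ⟨q, hq, hq3⟩ := hS.f3 j hj (Nat.eq_of_beq_eq_true h.1)
  exact ht X Hx Y Hy A B R h.2 ε hε hx hy _ q hq hq3 Z hZ

/-- the four kinds of test leaves -/
theorem lt_sound {tp0 tp3 : TF} (h0 : Tp0OK tp0) (h3 : Tp3OK tp3) {T K TAU A1 A2 m i k : ℕ}
    (hA2 : A2 ≤ 16500000) (hT : TabOK T) {X Hx Y Hy A B px py F G P Q qx qy : ℕ}
    (h : lt tp0 tp3 T K TAU m i k X Hx Y Hy A B px py F G P Q qx qy = true) :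
    Cov K TAU A1 A2 X Hx Y Hy A B px py F G P Q qx qy := by
  intro ε w a hs hc
  obtain ⟨x, hS⟩ := hT i
  unfold lt at h
  generalize Nat.ble 14 m = b14 at h
  generalize Nat.ble 13 m = b13 at h
  generalize Nat.ble 15 m = b15 at h
  cases b14 with
  | false =>
    cases b13 with
    | false => exact ts_sound hA2 hS (es_ok hS hs.adm hs.reg) hs hc h
    | true => exact ts_sound hA2 hS (c0_ok h0 hS hs.adm hc.ex hc.ey) hs hc h
  | true =>
    cases b15 with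
    | false => exact ts_sound hA2 hS (d3_ok hS hs.adm hs.reg) hs hc h
    | true => exact ts_sound hA2 hS (c3_ok h3 hS hs.adm hc.ex hc.ey) hs hc h

end Pool.Agent.W_4481e3_q25.EvR
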