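import Pool.Agent.W_4481e3_q42.Apol

/-!
Traps over the bases `0` and `1/3` which are uniform in `e = ε ^ 2` in a cone, down to `e = 0`.
-/

open Filter Topology

namespace Pool.Agent.W_4481e3_q25

open Pool.Agent.W_4481e3_q42

variable {ε : ℂ} {x : ℝ} {Z : ℂ}

lemma sq_re (ε : ℂ) : (ε ^ 2).re = ε.re ^ 2 - ε.im ^ 2 := by
  rw [pow_two, Complex.mul_re]; ring

lemma sq_im (ε : ℂ) : (ε ^ 2).im = 2 * ε.re * ε.im := by
  rw [pow_two, Complex.mul_im]; ring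

lemma sq_norm' (ε : ℂ) : ‖ε ^ 2‖ = ε.re ^ 2 + ε.im ^ 2 := by
  rw [norm_pow, Complex.sq_norm, Complex.normSq_apply]; ring

/-- the trap over the base `0`, in terms of `e = ε ^ 2` only -/
theorem not_alive_cone0 (hε : Adm ε) {n : ℤ} (hx : x = n)
    (h : ‖ε ^ 2‖ * (2 * (‖Z‖ ^ 2 + ‖ε ^ 2‖) - Z.re) < (ε ^ 2).re * Z.re + (ε ^ 2).im * Z.im) :
    ¬ Alive ε x Z := by
  apply not_alive_apol0 hε hx
  rw [sq_norm', sq_re, sq_im, Complex.sq_norm, Complex.normSq_apply] at h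
  have hre := hε.re
  set a := ε.re
  set b := ε.im
  set X := Z.re
  set Y := Z.im
  have h1 : (a ^ 2 + b ^ 2) * (X ^ 2 + Y ^ 2 + (a ^ 2 + b ^ 2)) < a * (a * X + b * Y) := by
    nlinarith
  have h2 : 0 < a * X + b * Y := by
    by_contra hc
    push Not at hc
    have : a * (a * X + b * Y) ≤ 0 := mul_nonpos_of_nonneg_of_nonpos hre.le hc
    have h3 : 0 ≤ (a ^ 2 + b ^ 2) * (X ^ 2 + Y ^ 2 + (a ^ 2 + b ^ 2)) := by positivity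
    linarith
  have h3 : a * ((a ^ 2 + b ^ 2) * (X ^ 2 + Y ^ 2 + (a ^ 2 + b ^ 2))) <
      a * (a * (a * X + b * Y)) := mul_lt_mul_of_pos_left h1 hre
  have h4 : 0 ≤ (a ^ 2 + b ^ 2) ^ 2 * (a * X + b * Y) := by positivity
  nlinarith

/-- the trap over the base `1/3`, in terms of `e = ε ^ 2` only -/
theorem not_alive_cone3 (hε : Adm ε) {q : ℤ} (hx : 3 * x = q) (hq : ¬ (3 ∣ q))
    (h : ‖ε ^ 2‖ * (‖Z‖ ^ 2 + ‖ε ^ 2‖ + Z.re) < -((ε ^ 2).re * Z.re + (ε ^ 2).im * Z.im)) :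
    ¬ Alive ε x Z := by
  apply not_alive_apol3 hε hx hq (U := -Z / 2) (η := ε / 2) rfl rfl
  have e1 : (ε / 2).re = ε.re / 2 := by simp
  have e2 : (ε / 2).im = ε.im / 2 := by simp
  have e3 : (-Z / 2).re = -Z.re / 2 := by simp
  have e4 : (-Z / 2).im = -Z.im / 2 := by simp
  rw [e1, e2, e3, e4]
  rw [sq_norm', sq_re, sq_im, Complex.sq_norm, Complex.normSq_apply] at h
  have hre := hε.re
  set a := ε.re
  set b := ε.im
  set X := Z.re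
  set Y := Z.im
  have h1 : (a ^ 2 + b ^ 2) * (X ^ 2 + Y ^ 2 + (a ^ 2 + b ^ 2)) < -(2 * a * (a * X + b * Y)) := by
    nlinarith
  have h2 : a * X + b * Y < 0 := by
    by_contra hc
    push Not at hc
    have : 0 ≤ 2 * a * (a * X + b * Y) := by positivity
    have h3 : 0 ≤ (a ^ 2 + b ^ 2) * (X ^ 2 + Y ^ 2 + (a ^ 2 + b ^ 2)) := by positivity
    linarith
  have h3 : a * ((a ^ 2 + b ^ 2) * (X ^ 2 + Y ^ 2 + (a ^ 2 + b ^ 2))) <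
      a * (-(2 * a * (a * X + b * Y))) := mul_lt_mul_of_pos_left h1 hre
  have h4 : (a ^ 2 + b ^ 2) ^ 2 * (a * X + b * Y) ≤ 0 :=
    mul_nonpos_of_nonneg_of_nonpos (by positivity) h2.le
  nlinarith

/-- `e` lies in the cone spanned by `(C₁, S₁)` and `(C₂, S₂)` -/
structure InCone (C₁ S₁ N₁ C₂ S₂ N₂ : ℝ) (e : ℂ) : Prop where
  ex : ∃ l m : ℝ, 0 ≤ l ∧ 0 ≤ m ∧ 0 < l + m ∧ e.re = l * C₁ + m * C₂ ∧ e.im = l * S₁ + m * S₂ ∧
    ‖e‖ ≤ l * N₁ + m * N₂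

theorem InCone.mk' {C₁ S₁ N₁ C₂ S₂ N₂ : ℝ} {e : ℂ} (he : e ≠ 0) (hd : C₂ * S₁ < C₁ * S₂)
    (h1 : S₁ * e.re ≤ C₁ * e.im) (h2 : C₂ * e.im ≤ S₂ * e.re) (hN1 : C₁ ^ 2 + S₁ ^ 2 ≤ N₁ ^ 2)
    (hN2 : C₂ ^ 2 + S₂ ^ 2 ≤ N₂ ^ 2) (hN10 : 0 ≤ N₁) (hN20 : 0 ≤ N₂) :
    InCone C₁ S₁ N₁ C₂ S₂ N₂ e := by
  have hD : 0 < C₁ * S₂ - C₂ * S₁ := by linarith
  set l := (S₂ * e.re - C₂ * e.im) / (C₁ * S₂ - C₂ * S₁) with hl
  set m := (C₁ * e.im - S₁ * e.re) / (C₁ * S₂ - C₂ * S₁) with hm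
  have hl0 : 0 ≤ l := div_nonneg (by linarith) hD.le
  have hm0 : 0 ≤ m := div_nonneg (by linarith) hD.le
  have hre : e.re = l * C₁ + m * C₂ := by
    rw [hl, hm, div_mul_eq_mul_div, div_mul_eq_mul_div, ← add_div, eq_div_iff hD.ne']; ring
  have him : e.im = l * S₁ + m * S₂ := by
    rw [hl, hm, div_mul_eq_mul_div, div_mul_eq_mul_div, ← add_div, eq_div_iff hD.ne']; ring
  refine ⟨l, m, hl0, hm0, ?_, hre, him, ?_⟩
  · rcases hl0.lt_or_eq with h | h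
    · linarith
    · rcases hm0.lt_or_eq with h' | h'
      · linarith
      · exfalso
        apply he
        apply Complex.ext
        · rw [hre, ← h, ← h']; simp
        · rw [him, ← h, ← h']; simp
  · have e1 : e = (l : ℂ) * (⟨C₁, S₁⟩ : ℂ) + (m : ℂ) * (⟨C₂, S₂⟩ : ℂ) := by
      apply Complex.ext
      · simp [hre]
      · simp [him]
    have n1 : ‖(⟨C₁, S₁⟩ : ℂ)‖ ≤ N₁ := by
      apply le_of_sq_le_sq _ hN10
      rw [Complex.sq_norm, Complex.normSq_apply]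
      show C₁ * C₁ + S₁ * S₁ ≤ N₁ ^ 2
      nlinarith
    have n2 : ‖(⟨C₂, S₂⟩ : ℂ)‖ ≤ N₂ := by
      apply le_of_sq_le_sq _ hN20
      rw [Complex.sq_norm, Complex.normSq_apply]
      show C₂ * C₂ + S₂ * S₂ ≤ N₂ ^ 2
      nlinarith
    calc ‖e‖ = ‖(l : ℂ) * (⟨C₁, S₁⟩ : ℂ) + (m : ℂ) * (⟨C₂, S₂⟩ : ℂ)‖ := by rw [← e1]
      _ ≤ ‖(l : ℂ) * (⟨C₁, S₁⟩ : ℂ)‖ + ‖(m : ℂ) * (⟨C₂, S₂⟩ : ℂ)‖ := norm_add_le _ _
      _ = l * ‖(⟨C₁, S₁⟩ : ℂ)‖ + m * ‖(⟨C₂, S₂⟩ : ℂ)‖ := by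
          rw [norm_mul, norm_mul, Complex.norm_real, Complex.norm_real, Real.norm_eq_abs,
            Real.norm_eq_abs, abs_of_nonneg hl0, abs_of_nonneg hm0]
      _ ≤ _ := by gcongr

/-- the pairing with a vector of the cone -/
lemma InCone.pair {C₁ S₁ N₁ C₂ S₂ N₂ : ℝ} {e : ℂ} (h : InCone C₁ S₁ N₁ C₂ S₂ N₂ e) {v : ℂ} {K r : ℝ}
    (hK : 0 ≤ K + r) (h1 : N₁ * (K + r) < C₁ * v.re + S₁ * v.im)
    (h2 : N₂ * (K + r) < C₂ * v.re + S₂ * v.im) :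
    ‖e‖ * (K + r) < e.re * v.re + e.im * v.im := by
  obtain ⟨l, m, hl, hm, hlm, hre, him, hn⟩ := h
  have h3 : ‖e‖ * (K + r) ≤ (l * N₁ + m * N₂) * (K + r) := by gcongr
  have h4 : l * (N₁ * (K + r)) ≤ l * (C₁ * v.re + S₁ * v.im) := by gcongr
  have h5 : m * (N₂ * (K + r)) ≤ m * (C₂ * v.re + S₂ * v.im) := by gcongr
  have h6 : l * (N₁ * (K + r)) + m * (N₂ * (K + r)) <
      l * (C₁ * v.re + S₁ * v.im) + m * (C₂ * v.re + S₂ * v.im) := by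
    rcases hl.lt_or_eq with h | h
    · have := mul_lt_mul_of_pos_left h1 h
      linarith
    · have hm' : 0 < m := by linarith
      have := mul_lt_mul_of_pos_left h2 hm'
      linarith
  rw [hre, him]
  nlinarith

lemma inner_ge {e Z v : ℂ} {r : ℝ} (hZ : ‖Z - v‖ ≤ r) :
    e.re * v.re + e.im * v.im - ‖e‖ * r ≤ e.re * Z.re + e.im * Z.im := by
  have h1 : |e.re * (Z - v).re + e.im * (Z - v).im| ≤ ‖e‖ * ‖Z - v‖ := by
    have h2 : e.re * (Z - v).re + e.im * (Z - v).im = ((starRingEnd ℂ) e * (Z - v)).re := by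
      rw [Complex.mul_re]
      simp
    rw [h2]
    refine (Complex.abs_re_le_norm _).trans ?_
    rw [norm_mul]
    rw [Complex.norm_conj]
  have h3 : ‖e‖ * ‖Z - v‖ ≤ ‖e‖ * r := by gcongr
  have h4 := (abs_le.1 (h1.trans h3)).1
  rw [Complex.sub_re, Complex.sub_im] at h4
  nlinarith

/-- **dead ball over the base `0`**, uniform in the cone -/
theorem dead_cone0 (hε : Adm ε) {n : ℤ} (hx : x = n) {C₁ S₁ N₁ C₂ S₂ N₂ q R K r : ℝ} {v : ℂ}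
    (hc : InCone C₁ S₁ N₁ C₂ S₂ N₂ (ε ^ 2)) (hq : ‖ε ^ 2‖ ≤ q) (hv : ‖v‖ ≤ R) (hK : 0 ≤ K)
    (hK1 : 2 * ((R + r) ^ 2 + q) - (v.re - r) ≤ K)
    (h1 : N₁ * (K + r) < C₁ * v.re + S₁ * v.im)
    (h2 : N₂ * (K + r) < C₂ * v.re + S₂ * v.im) : Dead ε x v r := by
  intro Z hZ
  have hr : 0 ≤ r := (norm_nonneg _).trans hZ
  apply not_alive_cone0 hε hx
  have h3 := hc.pair (by linarith) h1 h2
  have h4 := inner_ge (e := ε ^ 2) hZ
  have h5 : ‖Z‖ ≤ R + r := by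
    have : Z = v + (Z - v) := by ring
    rw [this]
    exact (norm_add_le _ _).trans (by linarith)
  have h6 : ‖Z‖ ^ 2 ≤ (R + r) ^ 2 := by gcongr
  have h7 : v.re - r ≤ Z.re := by
    have := (abs_le.1 ((Complex.abs_re_le_norm (Z - v)).trans hZ)).1
    rw [Complex.sub_re] at this
    linarith
  have h8 : ‖ε ^ 2‖ * (2 * (‖Z‖ ^ 2 + ‖ε ^ 2‖) - Z.re) ≤ ‖ε ^ 2‖ * K := by
    apply mul_le_mul_of_nonneg_left _ (norm_nonneg _)
    linarith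
  linarith

/-- **dead ball over the base `1/3`**, uniform in the cone -/
theorem dead_cone3 (hε : Adm ε) {q' : ℤ} (hx : 3 * x = q') (hq' : ¬ (3 ∣ q'))
    {C₁ S₁ N₁ C₂ S₂ N₂ q R K r : ℝ} {v : ℂ}
    (hc : InCone C₁ S₁ N₁ C₂ S₂ N₂ (ε ^ 2)) (hq : ‖ε ^ 2‖ ≤ q) (hv : ‖v‖ ≤ R) (hK : 0 ≤ K)
    (hK1 : (R + r) ^ 2 + q + (v.re + r) ≤ K)
    (h1 : N₁ * (K + r) < -(C₁ * v.re + S₁ * v.im))
    (h2 : N₂ * (K + r) < -(C₂ * v.re + S₂ * v.im)) : Dead ε x v r := by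
  intro Z hZ
  have hr : 0 ≤ r := (norm_nonneg _).trans hZ
  apply not_alive_cone3 hε hx hq'
  have h3 := hc.pair (v := -v) (K := K) (r := r) (by linarith) (by simp only [Complex.neg_re, Complex.neg_im]; linarith)
    (by simp only [Complex.neg_re, Complex.neg_im]; linarith)
  have h4 := inner_ge (e := ε ^ 2) (Z := -Z) (v := -v) (r := r) (by
    have : -Z - -v = -(Z - v) := by ring
    rw [this, norm_neg]; exact hZ)
  simp only [Complex.neg_re, Complex.neg_im] at h3 h4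
  have h5 : ‖Z‖ ≤ R + r := by
    have : Z = v + (Z - v) := by ring
    rw [this]
    exact (norm_add_le _ _).trans (by linarith)
  have h6 : ‖Z‖ ^ 2 ≤ (R + r) ^ 2 := by gcongr
  have h7 : Z.re ≤ v.re + r := by
    have := (abs_le.1 ((Complex.abs_re_le_norm (Z - v)).trans hZ)).2
    rw [Complex.sub_re] at this
    linarith
  have h8 : ‖ε ^ 2‖ * (‖Z‖ ^ 2 + ‖ε ^ 2‖ + Z.re) ≤ ‖ε ^ 2‖ * K := by
    apply mul_le_mul_of_nonneg_left _ (norm_nonneg _)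
    linarith
  linarith

end Pool.Agent.W_4481e3_q25
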