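import Pool.Agent.W_4481e3_q25.EvR

/-!
Kill certificate, format RT: nodes and the tree.
-/

namespace Pool.Agent.W_4481e3_q25.EvR

open Pool.Agent.W_MP_4481e3_an.Ev (gd nrm1)
open Pool.Agent.W_4481e3_q12.Ev (ds)

/-- functions of a cell: `X Hx Y Hy A B px py F G P Q qx qy` -/
abbrev CF (α : Type) := ℕ → ℕ → ℕ → ℕ → ℕ → ℕ → ℕ → ℕ → ℕ → ℕ → ℕ → ℕ → ℕ → ℕ → α

/-- traps: `X Hx Y Hy A B R` -/
abbrev TF := ℕ → ℕ → ℕ → ℕ → ℕ → ℕ → ℕ → Bool

/-- trap closers -/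
noncomputable def c0 (tp0 : TF) (X Hx Y Hy T A B R : ℕ) : Bool :=
  gd (Nat.beq (fl T) 1) (tp0 X Hx Y Hy A B R)
noncomputable def c3 (tp3 : TF) (X Hx Y Hy T A B R : ℕ) : Bool :=
  gd (Nat.beq (fl T) 2) (tp3 X Hx Y Hy A B R)

/-- the test leaf of the tag `m` -/
noncomputable def lt (tp0 tp3 : TF) (T K TAU m i k : ℕ) : CF Bool :=
  fun X Hx Y Hy A B px py F G P Q qx qy =>
    Bool.rec
      (Bool.rec (ts T K TAU es i k X Hx Y Hy A B px py F G P Q qx qy)
        (ts T K TAU (c0 tp0 X Hx Y Hy) i k X Hx Y Hy A B px py F G P Q qx qy) (Nat.ble 13 m))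
      (Bool.rec (ts T K TAU d3 i k X Hx Y Hy A B px py F G P Q qx qy)
        (ts T K TAU (c3 tp3 X Hx Y Hy) i k X Hx Y Hy A B px py F G P Q qx qy) (Nat.ble 15 m))
      (Nat.ble 14 m)

/-- leaves with tag `m >= 8`; `gs m` are the slope leaves `8 .. 11` -/
noncomputable def lf (tp0 tp3 : TF) (gs : ℕ → CF Bool) (T K TAU m : ℕ) : CF (ℕ → ℕ) :=
  fun X Hx Y Hy A B px py F G P Q qx qy n =>
    Bool.rec (Bool.rec 0 n (gs m X Hx Y Hy A B px py F G P Q qx qy))
      (Bool.rec 0 (Nat.shiftRight n 20)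
        (lt tp0 tp3 T K TAU m (Nat.land n 4095) (Nat.land (Nat.shiftRight n 12) 255)
          X Hx Y Hy A B px py F G P Q qx qy))
      (Nat.ble 12 m)

/-- `A + K (F - 2^28) / 2^16` and `A - K (F - 2^28) / 2^16` -/
def up (A F K : ℕ) : ℕ := Nat.sub (Nat.add A (Nat.div (Nat.mul F K) 65536)) (Nat.mul 4096 K)
def dn (A F K : ℕ) : ℕ := Nat.sub (Nat.add A (Nat.mul 4096 K)) (Nat.div (Nat.mul F K) 65536)

/-- guard against truncated subtraction: `0` unless `a` is positive -/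
noncomputable def gz (a b : ℕ) : ℕ := Bool.rec 0 b (Nat.ble 1 a)

section nodes
variable (go gl gh : CF (ℕ → ℕ))

noncomputable def swx (K X Hx Y Hy A B _px py F G P Q qx qy n : ℕ) : ℕ :=
  Bool.rec 0 (go X Hx Y Hy (Nat.sub A K) B K py F G P Q qx qy
    (go X Hx Y Hy (Nat.add A K) B K py F G P Q qx qy n)) (Nat.ble K A)

noncomputable def swy (K X Hx Y Hy A B px _py F G P Q qx qy n : ℕ) : ℕ :=
  Bool.rec 0 (go X Hx Y Hy A (Nat.sub B K) px K F G P Q qx qy
    (go X Hx Y Hy A (Nat.add B K) px K F G P Q qx qy n)) (Nat.ble K B)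

noncomputable def sax (K X Hx Y Hy A B px py F G P Q _qx qy n : ℕ) : ℕ :=
  Bool.rec 0 (go X Hx Y Hy A B px py F G (Nat.sub P K) Q K qy
    (go X Hx Y Hy A B px py F G (Nat.add P K) Q K qy n)) (Nat.ble K P)

noncomputable def say (K X Hx Y Hy A B px py F G P Q qx _qy n : ℕ) : ℕ :=
  Bool.rec 0 (go X Hx Y Hy A B px py F G P (Nat.sub Q K) qx K
    (go X Hx Y Hy A B px py F G P (Nat.add Q K) qx K n)) (Nat.ble K Q)

noncomputable def sex (K X _Hx Y Hy A B px py F G P Q qx qy n : ℕ) : ℕ :=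
  gz (dn A F K) (gz (dn B G K) (gz (up A F K) (gz (up B G K) (Bool.rec 0
    (go (Nat.sub X K) K Y Hy (dn A F K) (dn B G K) (Nat.add px 1) (Nat.add py 1) F G P Q qx qy
      (go (Nat.add X K) K Y Hy (up A F K) (up B G K) (Nat.add px 1) (Nat.add py 1) F G P Q qx qy n))
    (Nat.ble K X)))))

noncomputable def sey (K X Hx Y _Hy A B px py F G P Q qx qy n : ℕ) : ℕ :=
  gz (up A G K) (gz (dn B F K) (gz (dn A G K) (gz (up B F K) (Bool.rec 0
    (go X Hx (Nat.sub Y K) K (up A G K) (dn B F K) (Nat.add px 1) (Nat.add py 1) F G P Q qx qy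
      (go X Hx (Nat.add Y K) K (dn A G K) (up B F K) (Nat.add px 1) (Nat.add py 1) F G P Q qx qy n))
    (Nat.ble K Y)))))

/-- reshear with the differences `f = |F - F'|`, `g = |G - G'|` -/
noncomputable def rs2 (F' G' f g X Hx Y Hy A B px py P Q qx qy n : ℕ) : ℕ :=
  go X Hx Y Hy A B
    (Nat.add px (Nat.add (Nat.div (Nat.add (Nat.mul f Hx) (Nat.mul g Hy)) 65536) 1))
    (Nat.add py (Nat.add (Nat.div (Nat.add (Nat.mul g Hx) (Nat.mul f Hy)) 65536) 1))
    F' G' P Q qx qy n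

noncomputable def rs1 (F' G' X Hx Y Hy A B px py F G P Q qx qy n : ℕ) : ℕ :=
  rs2 go F' G' (ds F F') (ds G G') X Hx Y Hy A B px py P Q qx qy n

noncomputable def rs (X Hx Y Hy A B px py F G P Q qx qy n : ℕ) : ℕ :=
  rs1 go (Nat.add 267911168 (Nat.land n 1048575))
    (Nat.add 267911168 (Nat.land (Nat.shiftRight n 20) 1048575))
    X Hx Y Hy A B px py F G P Q qx qy (Nat.shiftRight n 40)

/-- range split: the functions `gl`, `gh` certify the cell for the lower and the upper part of the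
range of the slope at the time `0`; the data of the upper part come first -/
noncomputable def rg (X Hx Y Hy A B px py F G P Q qx qy n : ℕ) : ℕ :=
  gl X Hx Y Hy A B px py F G P Q qx qy (gh X Hx Y Hy A B px py F G P Q qx qy n)

/-- tag `7`: range split if the next 20 bits vanish, otherwise reshear -/
noncomputable def rx (X Hx Y Hy A B px py F G P Q qx qy n : ℕ) : ℕ :=
  Bool.rec (rs go X Hx Y Hy A B px py F G P Q qx qy n)
    (rg gl gh X Hx Y Hy A B px py F G P Q qx qy (Nat.shiftRight n 20))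
    (Nat.beq (Nat.land n 1048575) 0)

/-- tags `0 .. 3` -/
noncomputable def n0 (m X Hx Y Hy A B px py F G P Q qx qy n : ℕ) : ℕ :=
  Bool.rec
    (Bool.rec (Bool.rec 0 n (ou X Hx Y Hy))
      (swx go (Nat.shiftRight (Nat.add px 1) 1) X Hx Y Hy A B px py F G P Q qx qy n) (Nat.ble 1 m))
    (Bool.rec (swy go (Nat.shiftRight (Nat.add py 1) 1) X Hx Y Hy A B px py F G P Q qx qy n)
      (sax go (Nat.shiftRight (Nat.add qx 1) 1) X Hx Y Hy A B px py F G P Q qx qy n) (Nat.ble 3 m))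
    (Nat.ble 2 m)

/-- tags `4 .. 7` -/
noncomputable def n4 (m X Hx Y Hy A B px py F G P Q qx qy n : ℕ) : ℕ :=
  Bool.rec
    (Bool.rec (say go (Nat.shiftRight (Nat.add qy 1) 1) X Hx Y Hy A B px py F G P Q qx qy n)
      (sex go (Nat.shiftRight (Nat.add Hx 1) 1) X Hx Y Hy A B px py F G P Q qx qy n) (Nat.ble 5 m))
    (Bool.rec (sey go (Nat.shiftRight (Nat.add Hy 1) 1) X Hx Y Hy A B px py F G P Q qx qy n)
      (rx go gl gh X Hx Y Hy A B px py F G P Q qx qy n) (Nat.ble 7 m))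
    (Nat.ble 6 m)

/-- a node with tag `m` -/
noncomputable def nd (leaf : ℕ → CF (ℕ → ℕ)) (m X Hx Y Hy A B px py F G P Q qx qy n : ℕ) : ℕ :=
  Bool.rec
    (Bool.rec (n0 go m X Hx Y Hy A B px py F G P Q qx qy n)
      (n4 go gl gh m X Hx Y Hy A B px py F G P Q qx qy n) (Nat.ble 4 m))
    (leaf m X Hx Y Hy A B px py F G P Q qx qy n)
    (Nat.ble 8 m)

end nodes

/-- the tree with the fuel `d` -/
noncomputable def go (gl gh : CF (ℕ → ℕ)) (leaf : ℕ → CF (ℕ → ℕ)) (d : ℕ) : CF (ℕ → ℕ) :=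
  Nat.rec (fun _ _ _ _ _ _ _ _ _ _ _ _ _ _ _ => 0)
    (fun _ ih X Hx Y Hy A B px py F G P Q qx qy n =>
      nd ih gl gh leaf (Nat.land n 15) X Hx Y Hy A B px py F G P Q qx qy (Nat.shiftRight n 4)) d

/-- no range split -/
def gf : CF (ℕ → ℕ) := fun _ _ _ _ _ _ _ _ _ _ _ _ _ _ _ => 0

end Pool.Agent.W_4481e3_q25.EvR
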