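import Pool.Agent.W_4481e3_q25.NodeR
import Pool.Agent.W_4481e3_q25.SndR

/-!
Kill certificate, format RT: soundness of the tree, for an arbitrary set `S` of states.
-/

namespace Pool.Agent.W_4481e3_q25.EvR

open Complex
open Pool.Agent.W_MP_4481e3_an.Ev (gd pt gd_true div_lower div_upper norm_pt_sq norm_le_sqrt_two ndiv_eq)
open Pool.Agent.W_4481e3_q12.Ev (ds ds_cast)
open Pool.Agent.W_4481e3_q42.Ev (cf k0)

/-- a function on cells is sound for `S` -/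
def FnOK (S : ℂ → ℂ → ℂ → Prop) (g : CF (ℕ → ℕ)) : Prop :=
  ∀ X Hx Y Hy A B px py F G P Q qx qy n : ℕ, g X Hx Y Hy A B px py F G P Q qx qy n ≠ 0 →
    n ≠ 0 ∧ CovS S X Hx Y Hy A B px py F G P Q qx qy

/-- the scaled parameter region -/
def RgS (S : ℂ → ℂ → ℂ → Prop) : Prop :=
  ∀ E W a : ℂ, S E W a → ‖E‖ < 4194304 ∧ 47 * ‖E‖ ^ 2 < 536870912 * E.re

lemma ou_sound {S : ℂ → ℂ → ℂ → Prop} (hS : RgS S) {X Hx Y Hy A B px py F G P Q qx qy : ℕ}
    (h : ou X Hx Y Hy = true) : CovS S X Hx Y Hy A B px py F G P Q qx qy := by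
  intro E W a hs hc
  obtain ⟨h1, h2⟩ := hS E W a hs
  have hu : ((X - Hx : ℕ) : ℝ) ≤ |E.re| := by
    rcases le_total Hx X with h | h
    · rw [Nat.cast_sub h]
      have := abs_le.1 hc.ex
      have := le_abs_self E.re
      linarith
    · rw [Nat.sub_eq_zero_of_le h]; push_cast; exact abs_nonneg _
  have hv : ((Y - Hy : ℕ) : ℝ) ≤ |E.im| := by
    rcases le_total Hy Y with h | h
    · rw [Nat.cast_sub h]
      have := abs_le.1 hc.ey
      have := le_abs_self E.im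
      linarith
    · rw [Nat.sub_eq_zero_of_le h]; push_cast; exact abs_nonneg _
  have hq : (((X - Hx) * (X - Hx) + (Y - Hy) * (Y - Hy) : ℕ) : ℝ) ≤ ‖E‖ ^ 2 := by
    have e3 : ‖E‖ ^ 2 = |E.re| ^ 2 + |E.im| ^ 2 := by
      rw [Complex.sq_norm, Complex.normSq_apply, sq_abs, sq_abs]; ring
    rw [e3]
    push_cast
    have e4 := pow_le_pow_left₀ (Nat.cast_nonneg (α := ℝ) (X - Hx)) hu 2
    have e5 := pow_le_pow_left₀ (Nat.cast_nonneg (α := ℝ) (Y - Hy)) hv 2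
    nlinarith
  unfold ou ou1 ou2 at h
  simp only [Nat.add_eq, Nat.mul_eq, Nat.sub_eq] at h
  set q := (X - Hx) * (X - Hx) + (Y - Hy) * (Y - Hy) with hqd
  clear_value q
  cases hb : Nat.ble 17592186044416 q with
  | false =>
    rw [hb] at h
    have h3 : 536870912 * (X + Hx) ≤ 47 * q := Nat.le_of_ble_eq_true h
    have h4 : 536870912 * ((X:ℝ) + Hx) ≤ 47 * q := by exact_mod_cast h3
    have h5 := (abs_le.1 hc.ex).2
    linarith
  | true =>
    have h3 := Nat.le_of_ble_eq_true hb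
    have h4 : (17592186044416:ℝ) ≤ q := by exact_mod_cast h3
    nlinarith [norm_nonneg E]

lemma half_le (p : ℕ) : p ≤ 2 * Nat.shiftRight (Nat.add p 1) 1 := by
  have : Nat.shiftRight (Nat.add p 1) 1 = (p + 1) / 2 := by
    show (p + 1) >>> 1 = (p + 1) / 2
    rw [Nat.shiftRight_eq_div_pow]
  rw [this]
  omega

lemma shr_ne {n k : ℕ} (h : Nat.shiftRight n k ≠ 0) : n ≠ 0 := by
  intro h0
  apply h
  rw [h0]
  show 0 >>> k = 0
  simp

lemma rec_ne {b : Bool} {x : ℕ} (h : (Bool.rec 0 x b : ℕ) ≠ 0) : b = true ∧ x ≠ 0 := by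
  cases b with
  | false => exact absurd rfl h
  | true => exact ⟨rfl, h⟩

lemma gz_ne {a b : ℕ} (h : gz a b ≠ 0) : 1 ≤ a ∧ b ≠ 0 := by
  unfold gz at h
  obtain ⟨h1, h2⟩ := rec_ne h
  exact ⟨Nat.le_of_ble_eq_true h1, h2⟩

section
variable {S : ℂ → ℂ → ℂ → Prop} {g : CF (ℕ → ℕ)}

lemma swx_ok (hg : FnOK S g) {K X Hx Y Hy A B px py F G P Q qx qy n : ℕ} (hp : px ≤ 2 * K)
    (h : swx g K X Hx Y Hy A B px py F G P Q qx qy n ≠ 0) :
    n ≠ 0 ∧ CovS S X Hx Y Hy A B px py F G P Q qx qy := by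
  unfold swx at h
  obtain ⟨h1, h2⟩ := rec_ne h
  obtain ⟨h3, c1⟩ := hg _ _ _ _ _ _ _ _ _ _ _ _ _ _ _ h2
  obtain ⟨h4, c2⟩ := hg _ _ _ _ _ _ _ _ _ _ _ _ _ _ _ h3
  exact ⟨h4, CovS.swx hp (Nat.le_of_ble_eq_true h1) c1 c2⟩

lemma swy_ok (hg : FnOK S g) {K X Hx Y Hy A B px py F G P Q qx qy n : ℕ} (hp : py ≤ 2 * K)
    (h : swy g K X Hx Y Hy A B px py F G P Q qx qy n ≠ 0) :
    n ≠ 0 ∧ CovS S X Hx Y Hy A B px py F G P Q qx qy := by
  unfold swy at h
  obtain ⟨h1, h2⟩ := rec_ne h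
  obtain ⟨h3, c1⟩ := hg _ _ _ _ _ _ _ _ _ _ _ _ _ _ _ h2
  obtain ⟨h4, c2⟩ := hg _ _ _ _ _ _ _ _ _ _ _ _ _ _ _ h3
  exact ⟨h4, CovS.swy hp (Nat.le_of_ble_eq_true h1) c1 c2⟩

lemma sax_ok (hg : FnOK S g) {K X Hx Y Hy A B px py F G P Q qx qy n : ℕ} (hp : qx ≤ 2 * K)
    (h : sax g K X Hx Y Hy A B px py F G P Q qx qy n ≠ 0) :
    n ≠ 0 ∧ CovS S X Hx Y Hy A B px py F G P Q qx qy := by
  unfold sax at h
  obtain ⟨h1, h2⟩ := rec_ne h
  obtain ⟨h3, c1⟩ := hg _ _ _ _ _ _ _ _ _ _ _ _ _ _ _ h2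
  obtain ⟨h4, c2⟩ := hg _ _ _ _ _ _ _ _ _ _ _ _ _ _ _ h3
  exact ⟨h4, CovS.sax hp (Nat.le_of_ble_eq_true h1) c1 c2⟩

lemma say_ok (hg : FnOK S g) {K X Hx Y Hy A B px py F G P Q qx qy n : ℕ} (hp : qy ≤ 2 * K)
    (h : say g K X Hx Y Hy A B px py F G P Q qx qy n ≠ 0) :
    n ≠ 0 ∧ CovS S X Hx Y Hy A B px py F G P Q qx qy := by
  unfold say at h
  obtain ⟨h1, h2⟩ := rec_ne h
  obtain ⟨h3, c1⟩ := hg _ _ _ _ _ _ _ _ _ _ _ _ _ _ _ h2
  obtain ⟨h4, c2⟩ := hg _ _ _ _ _ _ _ _ _ _ _ _ _ _ _ h3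
  exact ⟨h4, CovS.say hp (Nat.le_of_ble_eq_true h1) c1 c2⟩

lemma sex_ok (hg : FnOK S g) {K X Hx Y Hy A B px py F G P Q qx qy n : ℕ} (hp : Hx ≤ 2 * K)
    (h : sex g K X Hx Y Hy A B px py F G P Q qx qy n ≠ 0) :
    n ≠ 0 ∧ CovS S X Hx Y Hy A B px py F G P Q qx qy := by
  unfold sex at h
  obtain ⟨g1, h⟩ := gz_ne h
  obtain ⟨g2, h⟩ := gz_ne h
  obtain ⟨g3, h⟩ := gz_ne h
  obtain ⟨g4, h⟩ := gz_ne h
  obtain ⟨h1, h2⟩ := rec_ne h
  obtain ⟨h3, c1⟩ := hg _ _ _ _ _ _ _ _ _ _ _ _ _ _ _ h2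
  obtain ⟨h4, c2⟩ := hg _ _ _ _ _ _ _ _ _ _ _ _ _ _ _ h3
  exact ⟨h4, CovS.sex hp (Nat.le_of_ble_eq_true h1) g1 g2 g3 g4 c1 c2⟩

lemma sey_ok (hg : FnOK S g) {K X Hx Y Hy A B px py F G P Q qx qy n : ℕ} (hp : Hy ≤ 2 * K)
    (h : sey g K X Hx Y Hy A B px py F G P Q qx qy n ≠ 0) :
    n ≠ 0 ∧ CovS S X Hx Y Hy A B px py F G P Q qx qy := by
  unfold sey at h
  obtain ⟨g1, h⟩ := gz_ne h
  obtain ⟨g2, h⟩ := gz_ne h
  obtain ⟨g3, h⟩ := gz_ne h
  obtain ⟨g4, h⟩ := gz_ne h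
  obtain ⟨h1, h2⟩ := rec_ne h
  obtain ⟨h3, c1⟩ := hg _ _ _ _ _ _ _ _ _ _ _ _ _ _ _ h2
  obtain ⟨h4, c2⟩ := hg _ _ _ _ _ _ _ _ _ _ _ _ _ _ _ h3
  exact ⟨h4, CovS.sey hp (Nat.le_of_ble_eq_true h1) g1 g2 g3 g4 c1 c2⟩

lemma rs_ok (hg : FnOK S g) {X Hx Y Hy A B px py F G P Q qx qy n : ℕ}
    (h : rs g X Hx Y Hy A B px py F G P Q qx qy n ≠ 0) :
    n ≠ 0 ∧ CovS S X Hx Y Hy A B px py F G P Q qx qy := by
  unfold rs rs1 at h
  generalize Nat.add 267911168 (Nat.land n 1048575) = F' at h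
  generalize Nat.add 267911168 (Nat.land (Nat.shiftRight n 20) 1048575) = G' at h
  unfold rs2 at h
  obtain ⟨h1, c⟩ := hg _ _ _ _ _ _ _ _ _ _ _ _ _ _ _ h
  refine ⟨shr_ne h1, CovS.rs (F' := F') (G' := G') rfl rfl ?_⟩
  simp only [Nat.add_eq, Nat.mul_eq, ndiv_eq] at c
  exact c

end

/-- **Soundness of the tree.** -/
theorem go_sound {S S1 S2 : ℂ → ℂ → ℂ → Prop} {gl gh : CF (ℕ → ℕ)} {leaf : ℕ → CF (ℕ → ℕ)}
    (hR : RgS S) (hS : ∀ E W a, S E W a → S1 E W a ∨ S2 E W a) (h1 : FnOK S1 gl) (h2 : FnOK S2 gh)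
    (hl : ∀ m, FnOK S (leaf m)) (d : ℕ) : FnOK S (go gl gh leaf d) := by
  induction d with
  | zero =>
    intro X Hx Y Hy A B px py F G P Q qx qy n h
    exact absurd rfl h
  | succ d ih =>
    intro X Hx Y Hy A B px py F G P Q qx qy n h
    have h' : nd (go gl gh leaf d) gl gh leaf (Nat.land n 15) X Hx Y Hy A B px py F G P Q qx qy
      (Nat.shiftRight n 4) ≠ 0 := h
    clear h
    suffices hh : Nat.shiftRight n 4 ≠ 0 ∧ CovS S X Hx Y Hy A B px py F G P Q qx qy from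
      ⟨shr_ne hh.1, hh.2⟩
    generalize Nat.shiftRight n 4 = n1 at *
    generalize Nat.land n 15 = m at *
    unfold nd at h'
    generalize Nat.ble 8 m = b8 at h'
    cases b8 with
    | true => exact hl m _ _ _ _ _ _ _ _ _ _ _ _ _ _ _ h'
    | false =>
      generalize Nat.ble 4 m = b4 at h'
      cases b4 with
      | false =>
        have h3 : n0 (go gl gh leaf d) m X Hx Y Hy A B px py F G P Q qx qy n1 ≠ 0 := h'
        clear h'
        unfold n0 at h3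
        generalize Nat.ble 2 m = b2 at h3
        cases b2 with
        | false =>
          generalize Nat.ble 1 m = b1 at h3
          cases b1 with
          | false =>
            obtain ⟨h4, h5⟩ := rec_ne h3
            exact ⟨h5, ou_sound hR h4⟩
          | true => exact swx_ok ih (half_le px) h3
        | true =>
          generalize Nat.ble 3 m = b3 at h3
          cases b3 with
          | false => exact swy_ok ih (half_le py) h3
          | true => exact sax_ok ih (half_le qx) h3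
      | true =>
        have h3 : n4 (go gl gh leaf d) gl gh m X Hx Y Hy A B px py F G P Q qx qy n1 ≠ 0 := h'
        clear h'
        unfold n4 at h3
        generalize Nat.ble 6 m = b2 at h3
        cases b2 with
        | false =>
          generalize Nat.ble 5 m = b1 at h3
          cases b1 with
          | false => exact say_ok ih (half_le qy) h3
          | true => exact sex_ok ih (half_le Hx) h3
        | true =>
          generalize Nat.ble 7 m = b3 at h3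
          cases b3 with
          | false => exact sey_ok ih (half_le Hy) h3
          | true =>
            have h4 : rx (go gl gh leaf d) gl gh X Hx Y Hy A B px py F G P Q qx qy n1 ≠ 0 := h3
            clear h3
            unfold rx at h4
            generalize Nat.beq (Nat.land n1 1048575) 0 = b at h4
            cases b with
            | false => exact rs_ok ih h4
            | true =>
              have h5 : rg gl gh X Hx Y Hy A B px py F G P Q qx qy (Nat.shiftRight n1 20) ≠ 0 := h4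
              unfold rg at h5
              obtain ⟨h6, c1⟩ := h1 _ _ _ _ _ _ _ _ _ _ _ _ _ _ _ h5
              obtain ⟨h7, c2⟩ := h2 _ _ _ _ _ _ _ _ _ _ _ _ _ _ _ h6
              refine ⟨shr_ne h7, ?_⟩
              intro E W a hs hc
              rcases hS E W a hs with h8 | h8
              · exact c1 E W a h8 hc
              · exact c2 E W a h8 hc

lemma gf_ok (S : ℂ → ℂ → ℂ → Prop) : FnOK S gf := by
  intro X Hx Y Hy A B px py F G P Q qx qy n h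
  exact absurd rfl h

end Pool.Agent.W_4481e3_q25.EvR
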